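import Pool.Agent.Helper58.NE.ENsq

/-!
# Project NE, block A8d: the basic inequality

`bi_N`: with `s = 3 (i + 1)`: `E K ≤ E N ≤ √(E N²) ≤ 3 · 2048^s ≤ 4096^s / (i+1)`, since `3 (i + 1) ≤ 2^s`; `K N N t z ≤ N z` (take `u = z` in the infimum, bounded below by `0`), and `J N N t v ≤ 1` implies `N v ≤ 1`.
-/

namespace Pool.Agent.Helper58.NE

open Pool.Agent.Helper25.NU

variable {U : Type} [Fintype U]

theorem bi_N {H : U → U → ℝ} {K : ℕ} (hP : Pos H K) {g P N} (hS : IsSys H K g P N) (i : ℕ) :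
    BI N N (1 / ((i : ℝ) + 1)) (4096 ^ (3 * (i + 1))) := by
  intro t ht T hT
  have hK : ∀ z, Pool.Agent.Helper25.NU.K N N t z ≤ N z := by
    intro z
    unfold Pool.Agent.Helper25.NU.K
    have h1 : BddBelow (Set.range fun u : U → ℝ => N u + t * N (z - u)) := by
      refine ⟨0, ?_⟩
      rintro _ ⟨u, rfl⟩
      have h2 := apply_nonneg N u
      have h3 := mul_nonneg ht.le (apply_nonneg N (z - u))
      simp only
      linarith
    refine (ciInf_le h1 z).trans ?_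
    simp
  have h1 : T.All (fun s' => (∀ v ∈ s', N v ≤ 1) ∧ nz s' ≤ 4096 ^ (3 * (i + 1))) := by
    refine Tree.All_mono hT fun s hs => ⟨fun v hv => ?_, ?_⟩
    · exact (le_max_left _ _).trans (hs.1 v hv)
    · have h2 := hs.2
      push_cast at h2
      exact h2
  have h2 := E_N_sq hP hS (3 * (i + 1)) T h1
  have h3 : T.E (fun s => Pool.Agent.Helper25.NU.K N N t s.sum) ≤ T.E (fun s => N s.sum) :=
    Tree.E_mono (Tree.All_of_forall T fun s => hK _)
  have h4 := Tree.E_cs T (fun s => N s.sum)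
  have h5 : √(T.E (fun s => N s.sum ^ 2)) ≤ 3 * 2048 ^ (3 * (i + 1)) := by
    apply Real.sqrt_le_iff.mpr
    refine ⟨by positivity, h2.trans (le_of_eq (by ring))⟩
  have h6 : (3 * ((i : ℝ) + 1)) ≤ 2 ^ (3 * (i + 1)) := by
    have h7 : 3 * (i + 1) ≤ 2 ^ (3 * (i + 1)) := Nat.lt_two_pow_self.le
    exact_mod_cast h7
  have h8 : (4096 : ℝ) ^ (3 * (i + 1)) = 2 ^ (3 * (i + 1)) * 2048 ^ (3 * (i + 1)) := by
    rw [← mul_pow]
    norm_num
  refine (h3.trans (h4.trans h5)).trans ?_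
  push_cast
  rw [h8, one_div, inv_mul_eq_div, le_div_iff₀ (by positivity)]
  have h9 : (0 : ℝ) < 2048 ^ (3 * (i + 1)) := by positivity
  nlinarith

end Pool.Agent.Helper58.NE
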