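import Pool.Agent.Helper58.NE.Orth

/-!
# Project NE, block C6a: volumes of balls, and the functionals `bz` in the tail

`ball_card`: induction on `ℓ`; a vertex at distance `ℓ + 1` is a neighbour of a vertex at distance `ℓ` (`G.Connected`).
`bz_tail`: Cauchy-Schwarz: `|pr x b| ≤ √(e2 x) √(∑ b²)`, `0 ≤ b ≤ 1`, `b` is supported in the ball, `√(1024 ^ K) = 32 ^ K`.
-/

namespace Pool.Agent.Helper58.NE

open Pool.Agent.Helper25.NU

variable {V : Type} [Fintype V]

open Classical in
theorem ball_card {G : SimpleGraph V} (hG : G.Connected) {D : ℕ} (hD : DegLe G D) (z : V) (ℓ : ℕ) :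
    (Finset.univ.filter fun y => G.dist z y ≤ ℓ).card ≤ (D + 1) ^ ℓ := by
  induction ℓ with
  | zero =>
    have h : (Finset.univ.filter fun y => G.dist z y ≤ 0) ⊆ {z} := by
      intro y hy
      rw [Finset.mem_filter] at hy
      have h0 : G.dist z y = 0 := Nat.le_zero.mp hy.2
      rw [hG.dist_eq_zero_iff] at h0
      rw [Finset.mem_singleton]
      exact h0.symm
    exact (Finset.card_le_card h).trans (by simp)
  | succ ℓ ih =>
    have hN : ∀ u : V, (insert u (Finset.univ.filter fun y => G.Adj u y)).card ≤ D + 1 := by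
      intro u
      refine (Finset.card_insert_le _ _).trans ?_
      have h1 := hD u
      have h2 : G.neighborSet u = ((Finset.univ.filter fun y => G.Adj u y : Finset V) : Set V) := by
        ext y
        simp [SimpleGraph.mem_neighborSet]
      rw [h2, Set.ncard_coe_finset] at h1
      omega
    have hsub : (Finset.univ.filter fun y => G.dist z y ≤ ℓ + 1) ⊆
        (Finset.univ.filter fun y => G.dist z y ≤ ℓ).biUnion
          (fun u => insert u (Finset.univ.filter fun y => G.Adj u y)) := by
      intro y hy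
      rw [Finset.mem_filter] at hy
      have hy2 := hy.2
      rw [Finset.mem_biUnion]
      rcases Nat.lt_or_ge (G.dist z y) (ℓ + 1) with h | h
      · exact ⟨y, by rw [Finset.mem_filter]; exact ⟨Finset.mem_univ _, by omega⟩,
          Finset.mem_insert_self _ _⟩
      · obtain ⟨p, hp⟩ := hG.exists_walk_length_eq_dist y z
        rw [SimpleGraph.dist_comm] at hp
        cases p with
        | nil =>
          rw [SimpleGraph.Walk.length_nil] at hp
          omega
        | cons hadj q =>
          rename_i u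
          rw [SimpleGraph.Walk.length_cons] at hp
          have hq := SimpleGraph.dist_le q
          rw [SimpleGraph.dist_comm] at hq
          refine ⟨u, ?_, ?_⟩
          · rw [Finset.mem_filter]
            exact ⟨Finset.mem_univ _, by omega⟩
          · refine Finset.mem_insert_of_mem ?_
            rw [Finset.mem_filter]
            exact ⟨Finset.mem_univ _, hadj.symm⟩
    calc _ ≤ _ := Finset.card_le_card hsub
      _ ≤ ∑ u ∈ (Finset.univ.filter fun y => G.dist z y ≤ ℓ),
            (insert u (Finset.univ.filter fun y => G.Adj u y)).card := Finset.card_biUnion_le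
      _ ≤ ∑ _u ∈ (Finset.univ.filter fun y => G.dist z y ≤ ℓ), (D + 1) :=
          Finset.sum_le_sum fun u _ => hN u
      _ = (Finset.univ.filter fun y => G.dist z y ≤ ℓ).card * (D + 1) := by
          rw [Finset.sum_const, smul_eq_mul]
      _ ≤ (D + 1) ^ ℓ * (D + 1) := Nat.mul_le_mul_right _ ih
      _ = (D + 1) ^ (ℓ + 1) := (pow_succ _ _).symm

theorem bz_tail {G : SimpleGraph V} (hG : G.Connected) {D Lb K : ℕ} (hD : DegLe G D)
    (hV : (D + 1) ^ Lb ≤ 1024 ^ K) (r : ℝ) (z : V) (x : V → ℝ) :
    |pr x (bz G r Lb z)| ≤ 32 ^ K * √(e2 x) := by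
  classical
  have hb0 : ∀ y, 0 ≤ bz G r Lb z y := by
    intro y
    unfold bz
    split_ifs
    · exact (Real.exp_pos _).le
    · exact le_refl _
  have hb1 : ∀ y, bz G r Lb z y ≤ 1 := by
    intro y
    unfold bz
    split_ifs
    · rw [Real.exp_le_one_iff]
      have := sq_nonneg ((G.dist z y : ℝ) / r)
      linarith
    · exact zero_le_one
  have hsum : ∑ y, bz G r Lb z y ^ 2 ≤ (1024 : ℝ) ^ K := by
    calc ∑ y, bz G r Lb z y ^ 2 ≤ ∑ y, (if G.dist z y ≤ Lb then (1 : ℝ) else 0) := by
          refine Finset.sum_le_sum fun y _ => ?_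
          by_cases h : G.dist z y ≤ Lb
          · rw [if_pos h]
            have h1 := hb0 y
            have h2 := hb1 y
            nlinarith
          · rw [if_neg h]
            unfold bz
            rw [if_neg h]
            norm_num
      _ = ((Finset.univ.filter fun y => G.dist z y ≤ Lb).card : ℝ) := by
          rw [Finset.sum_boole]
      _ ≤ (((D + 1) ^ Lb : ℕ) : ℝ) := by exact_mod_cast ball_card hG hD z Lb
      _ ≤ ((1024 ^ K : ℕ) : ℝ) := by exact_mod_cast hV
      _ = (1024 : ℝ) ^ K := by push_cast; rfl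
  have hcs : (pr x (bz G r Lb z)) ^ 2 ≤ e2 x * ∑ y, bz G r Lb z y ^ 2 := by
    unfold pr e2
    exact Finset.sum_mul_sq_le_sq_mul_sq _ _ _
  have he := e2_nonneg x
  have h3 : (pr x (bz G r Lb z)) ^ 2 ≤ (32 ^ K * √(e2 x)) ^ 2 := by
    rw [mul_pow, Real.sq_sqrt he]
    have h4 : ((32 : ℝ) ^ K) ^ 2 = 1024 ^ K := by
      rw [← pow_mul, mul_comm, pow_mul]
      norm_num
    rw [h4, mul_comm]
    exact hcs.trans (mul_le_mul_of_nonneg_left hsum he)
  exact abs_le_of_sq_le_sq h3 (by positivity)

end Pool.Agent.Helper58.NE
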