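import Pool.Agent.Helper67.NE.GaussI

/-!
Project NE, block B (proved by helper67 in `Pool/Agent/Helper67/NE/GaussI.lean`).
-/

namespace Pool.Agent.Helper58.NE

theorem gauss_ineq : ∃ C : ℝ, 0 < C ∧ ∀ (ι : Type) [Fintype ι] (u n : ι → ℝ) (ε : ℝ), 0 ≤ ε →
    (∑ i, |u i|) ≤ 1 → (∀ i, 0 ≤ n i) →
    (∫ a in Set.Ioi (0 : ℝ), (∑ i, u i * Real.exp (-(a * n i))) ^ 2 * (1 + a) ^ (-2 : ℤ)) ≤ ε ^ 2 →
    |∑ i, u i * Real.exp (-(n i) ^ 2)| ≤ C * ε ^ (1 / 3 : ℝ) :=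
  Pool.Agent.Helper67.NE.gauss_ineq

end Pool.Agent.Helper58.NE
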