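import Pool.Agent.Helper58.NE.Kernel
import Pool.Agent.Helper58.NE.GaussStub

/-!
# Project NE, block C5: the Gaussian functionals on atoms

PROOF of `bz_atom`. `C = 2 C₀ + 2` or so, `C₀` of `gauss_ineq`. Let `S` = support of `a` together with `z`, `card S ≤ 4096^k + 1 ≤ 4096^K + 1`; `exists_forest` gives `F`. Let `ι = {y // a y ≠ 0 ∧ F.Reachable z y}`, `u y = a y`, `n y = F.dist z y / r`.
For `t > 0`: `∑ u y exp (-(t n y)) = ∑ y, fk F (exp (-(t / r))) z y * a y`, its square is `≤ qf (fk F ..) a` (`forest_cs`); integrate against `(1+t)^{-2}` (`qf_HF`, `integrable_HF`): `≤ qf (HF F r) a ≤ qf (Hk G r) a + n1 a ^ 2 / 4096^K ≤ 2 / 4096^k + 1 / 4096^K ≤ 3 / 4096^k`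
(`qf_Hk_ge`, `e2 ≥ 0`). So `gauss_ineq` with `ε² = 3 / 4096^k` gives `|∑ u y exp (-(n y)²)| ≤ C₀ (3 / 4096^k)^(1/6) ≤ 2 C₀ / 4^k`.
Finally `|pr a (bz G r Lb z) - ∑ u y exp (-(n y)²)| ≤ 1 / 4^K · n1 a`: for `y` in the support: if `G.dist z y ≤ Lb ≤ L` then `F.Reachable z y`, `F.dist = G.dist`, the terms agree; if `G.dist z y > Lb` then `bz = 0` and `exp (-(F.dist/r)²) ≤ exp (-(Lb/r)²) ≤ 1 / 4^K` (`dist_le_of_le`) if `F.Reachable z y`, and there is
no term otherwise. `1 / 4^K ≤ 1 / 4^k`.
-/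

namespace Pool.Agent.Helper58.NE

open Pool.Agent.Helper25.NU

open MeasureTheory

private theorem rpow_aux (k : ℕ) : ((8 : ℝ) / 64 ^ k) ^ (1 / 3 : ℝ) = 2 / 4 ^ k := by
  have h1 : (8 : ℝ) / 64 ^ k = (2 / 4 ^ k) ^ 3 := by
    rw [div_pow, ← pow_mul, mul_comm k 3, pow_mul]
    norm_num
  have h2 : (1 / 3 : ℝ) = ((3 : ℕ) : ℝ)⁻¹ := by norm_num
  rw [h1, h2, Real.pow_rpow_inv_natCast (by positivity) (by norm_num)]

theorem bz_atom : ∃ C : ℝ, 1 ≤ C ∧ ∀ (V : Type) [Fintype V] (G : SimpleGraph V) (r : ℝ)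
    (K L Lb W : ℕ), G.Connected → 0 < r → NoShort G W → (4096 ^ K + 1) ^ 2 * L ≤ W → 0 < L →
    r / L ≤ 1 / 4096 ^ K → Lb ≤ L → Real.exp (-((Lb : ℝ) / r) ^ 2) ≤ 1 / 4 ^ K →
    ∀ (z : V) (k : ℕ), k < K → ∀ a : V → ℝ, Atom (Hk G r) k a →
      |pr a (bz G r Lb z)| ≤ C / 4 ^ k := by
  classical
  obtain ⟨C₀, hC₀, HG⟩ := gauss_ineq
  refine ⟨2 * C₀ + 1, by linarith, ?_⟩
  intro V _ G r K L Lb W hG hr hW hWL hL0 hL hLb hexp z k hk a ha
  -- the support
  have hS : (insert z (Finset.univ.filter fun y => a y ≠ 0)).card ≤ 4096 ^ K + 1 := by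
    refine (Finset.card_insert_le _ _).trans ?_
    have h1 : (Finset.univ.filter fun y => a y ≠ 0).card ≤ 4096 ^ k := by
      have h2 := ha.supp
      unfold sc at h2
      convert h2
    have h3 : (4096 : ℕ) ^ k ≤ 4096 ^ K := Nat.pow_le_pow_right (by norm_num) hk.le
    omega
  obtain ⟨F, hFG, hFa, hF⟩ := exists_forest G hG hW _ hS hWL
  have hF' : ∀ u, a u ≠ 0 → ∀ v, a v ≠ 0 → G.dist u v ≤ L → F.Reachable u v ∧ F.dist u v = G.dist u v := by
    intro u hu v hv h
    exact hF u (Finset.mem_insert_of_mem (Finset.mem_filter.2 ⟨Finset.mem_univ _, hu⟩)) v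
      (Finset.mem_insert_of_mem (Finset.mem_filter.2 ⟨Finset.mem_univ _, hv⟩)) h
  have hFz : ∀ v, a v ≠ 0 → G.dist z v ≤ L → F.Reachable z v ∧ F.dist z v = G.dist z v := by
    intro v hv h
    exact hF z (Finset.mem_insert_self _ _) v
      (Finset.mem_insert_of_mem (Finset.mem_filter.2 ⟨Finset.mem_univ _, hv⟩)) h
  have hn1 : 0 ≤ n1 a := by
    unfold n1
    exact Finset.sum_nonneg fun _ _ => abs_nonneg _
  have hn1' : n1 a ^ 2 ≤ 1 := by
    have := ha.one
    nlinarith
  have h4k : (0 : ℝ) < 4096 ^ k := by positivity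
  have h4K : (4096 : ℝ) ^ k ≤ 4096 ^ K := pow_le_pow_right₀ (by norm_num) hk.le
  -- the quadratic form of the forest
  have hq : qf (HF F r) a ≤ 3 / 4096 ^ k := by
    have h1 := qf_Hk_ge hr hL0 hL hFG a hF'
    have h2 : 0 ≤ e2 a := by
      unfold e2
      exact Finset.sum_nonneg fun _ _ => sq_nonneg _
    have h3 : qf (Hk G r) a ≤ 2 / 4096 ^ k := by
      rw [le_div_iff₀ h4k, mul_comm]
      exact ha.quad
    have h4 : n1 a ^ 2 / 4096 ^ K ≤ 1 / 4096 ^ k :=
      div_le_div₀ (by norm_num) hn1' h4k h4K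
    have h5 : (3 : ℝ) / 4096 ^ k = 2 / 4096 ^ k + 1 / 4096 ^ k := by ring
    rw [h5]
    linarith
  -- the Gaussian inequality
  have hgauss := HG V (fun y => if F.Reachable z y then a y else 0) (fun y => F.dist z y / r)
    (8 / 64 ^ k) (by positivity) ?_ (fun y => by positivity) ?_
  · rw [rpow_aux] at hgauss
    have hdiff : |pr a (bz G r Lb z) - ∑ y, (if F.Reachable z y then a y else 0) *
        Real.exp (-(F.dist z y / r : ℝ) ^ 2)| ≤ 1 / 4 ^ K := by
      unfold pr
      rw [← Finset.sum_sub_distrib]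
      refine (Finset.abs_sum_le_sum_abs _ _).trans ?_
      have hterm : ∀ y ∈ (Finset.univ : Finset V), |a y * bz G r Lb z y -
          (if F.Reachable z y then a y else 0) * Real.exp (-(F.dist z y / r : ℝ) ^ 2)| ≤
          |a y| * (1 / 4 ^ K) := by
        intro y _
        by_cases hay : a y = 0
        · rw [hay]
          simp
        by_cases hd : G.dist z y ≤ Lb
        · obtain ⟨h1, h2⟩ := hFz y hay (hd.trans hLb)
          unfold bz
          rw [if_pos hd, if_pos h1, h2, sub_self, abs_zero]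
          positivity
        · have hb : bz G r Lb z y = 0 := by
            unfold bz
            rw [if_neg hd]
          rw [hb, mul_zero, zero_sub, abs_neg]
          by_cases hR : F.Reachable z y
          · rw [if_pos hR, abs_mul]
            refine mul_le_mul_of_nonneg_left ?_ (abs_nonneg _)
            rw [abs_of_pos (Real.exp_pos _)]
            refine le_trans (Real.exp_le_exp.2 ?_) hexp
            have h3 : Lb ≤ F.dist z y := by
              have := dist_le_of_le hFG hR
              omega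
            have h4 : (Lb : ℝ) ≤ F.dist z y := by exact_mod_cast h3
            have h5 : (Lb : ℝ) / r ≤ F.dist z y / r := div_le_div_of_nonneg_right h4 hr.le
            have h6 : ((Lb : ℝ) / r) ^ 2 ≤ (F.dist z y / r) ^ 2 :=
              pow_le_pow_left₀ (by positivity) h5 2
            linarith
          · rw [if_neg hR, zero_mul, abs_zero]
            positivity
      refine (Finset.sum_le_sum hterm).trans ?_
      rw [← Finset.sum_mul]
      have h7 : ∑ y, |a y| = n1 a := rfl
      rw [h7]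
      calc n1 a * (1 / 4 ^ K) ≤ 1 * (1 / 4 ^ K) :=
            mul_le_mul_of_nonneg_right ha.one (by positivity)
        _ = 1 / 4 ^ K := one_mul _
    have h8 : (1 : ℝ) / 4 ^ K ≤ 1 / 4 ^ k :=
      one_div_le_one_div_of_le (by positivity) (pow_le_pow_right₀ (by norm_num) hk.le)
    have h9 := abs_sub_abs_le_abs_sub (pr a (bz G r Lb z))
      (∑ y, (if F.Reachable z y then a y else 0) * Real.exp (-(F.dist z y / r : ℝ) ^ 2))
    have h10 : (2 * C₀ + 1) / 4 ^ k = C₀ * (2 / 4 ^ k) + 1 / 4 ^ k := by ring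
    rw [h10]
    linarith
  · refine le_trans (Finset.sum_le_sum (g := fun y => |a y|) fun y _ => ?_) ha.one
    split_ifs
    · exact le_rfl
    · rw [abs_zero]
      exact abs_nonneg _
  · have hint : ∫ s in Set.Ioi (0 : ℝ), (∑ y, (if F.Reachable z y then a y else 0) *
        Real.exp (-(s * (F.dist z y / r)))) ^ 2 * (1 + s) ^ (-2 : ℤ) ≤
        ∫ s in Set.Ioi (0 : ℝ), qf (fk F (Real.exp (-(s / r)))) a * ((1 + s) ^ 2)⁻¹ := by
      refine integral_mono_of_nonneg ?_ (integrable_HF F hr a) ?_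
      · refine (ae_restrict_iff' measurableSet_Ioi).2 (Filter.Eventually.of_forall fun s hs => ?_)
        rw [Set.mem_Ioi] at hs
        show (0 : ℝ) ≤ _
        positivity
      · refine (ae_restrict_iff' measurableSet_Ioi).2 (Filter.Eventually.of_forall fun s hs => ?_)
        rw [Set.mem_Ioi] at hs
        have e1 : (1 + s) ^ (-2 : ℤ) = ((1 + s) ^ 2)⁻¹ := by
          rw [zpow_neg]
          norm_cast
        have e2 : ∑ y, (if F.Reachable z y then a y else 0) * Real.exp (-(s * (F.dist z y / r))) =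
            ∑ y, fk F (Real.exp (-(s / r))) z y * a y := by
          refine Finset.sum_congr rfl fun y _ => ?_
          unfold fk
          split_ifs with h
          · rw [← Real.exp_nat_mul]
            have : (F.dist z y : ℝ) * -(s / r) = -(s * (F.dist z y / r)) := by ring
            rw [this, mul_comm]
          · rw [zero_mul, zero_mul]
        show _ ≤ _
        beta_reduce
        rw [e1, e2]
        refine mul_le_mul_of_nonneg_right ?_ (by positivity)
        refine forest_cs F hFa (Real.exp_pos _).le ?_ a z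
        rw [Real.exp_le_one_iff]
        have : 0 ≤ s / r := by positivity
        linarith
    refine hint.trans ?_
    rw [← qf_HF F hr a]
    refine hq.trans ?_
    have e3 : ((8 : ℝ) / 64 ^ k) ^ 2 = 64 / 4096 ^ k := by
      rw [div_pow, ← pow_mul, mul_comm k 2, pow_mul]
      norm_num
    rw [e3]
    exact div_le_div_of_nonneg_right (by norm_num) h4k.le

end Pool.Agent.Helper58.NE
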