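import Pool.Agent.Helper58.NE.RDefs

/-!
# Project NE, block D6: Cheeger's inequality

`coarea`: let `F ≥ 0` with `2 |{F > 0}| ≤ n`. Then `2 ∑ F ≤ ∑_{u ~ v} |F u - F v|` (ordered pairs). Proof: by induction on the number of different non-zero values of `F` (subtract the smallest
non-zero value `t` on `{F > 0}`: the left side decreases by `2 t |{F > 0}|`, the right side by `2 t |cutp G {F > 0}|`), or by integration over the levels: `|F u - F v| = ∫ |1[F u > t] - 1[F v > t]| dt`.
`half_bound`: for `f ≥ 0` with `2 |{f > 0}| ≤ n`: with `F = f²`: `2 ∑ f² ≤ ∑_{u ~ v} |f u - f v| (f u + f v) ≤ √(∑_{u~v} (f u - f v)²) √(∑_{u~v} (f u + f v)²)` and `∑_{u~v} (f u + f v)² ≤ 2 ∑_{u~v} (f u² + f v²) ≤ 4 D ∑ f²`. So `4 S² ≤ E · 4 D S`, `S ≤ D E`, `S = ∑ f²`.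
`poinc_of_cut`: let `c` be a median of `g`: `2 |{g > c}| ≤ n` and `2 |{g < c}| ≤ n`. `S₊ = ∑ max (g - c) 0 ^ 2 ≤ D E₊`, the same for `max (c - g) 0`, and `E₊ + E₋ ≤ E(g)` (pointwise). Finally `∑_{u,v} (g u - g v)² = 2 n ∑ (g - c)² - 2 (∑ (g - c))² ≤ 2 n ∑ (g - c)² ≤ 2 n D E`.
-/

namespace Pool.Agent.Helper58.NE

open Classical in
private theorem cut_sum80 {n : ℕ} (G : SimpleGraph (Fin n)) (A : Finset (Fin n)) :
    (∑ u, ∑ v, if G.Adj u v ∧ u ∈ A ∧ v ∉ A then (1 : ℝ) else 0) = (cutp G A).card ∧
    (∑ u, ∑ v, if G.Adj u v ∧ u ∉ A ∧ v ∈ A then (1 : ℝ) else 0) = (cutp G A).card := by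
  have h1 : (∑ u, ∑ v, if G.Adj u v ∧ u ∈ A ∧ v ∉ A then (1 : ℝ) else 0) =
      (cutp G A).card := by
    have e : cutp G A = Finset.univ.filter
        (fun p : Fin n × Fin n => G.Adj p.1 p.2 ∧ p.1 ∈ A ∧ p.2 ∉ A) := by
      ext p
      simp only [cutp, Finset.mem_filter, Finset.mem_univ, true_and]
      tauto
    rw [e, ← Finset.sum_boole, ← Finset.univ_product_univ, Finset.sum_product]
  refine ⟨h1, ?_⟩
  rw [← h1, Finset.sum_comm]
  refine Finset.sum_congr rfl fun u _ => Finset.sum_congr rfl fun v _ => ?_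
  refine if_congr ?_ rfl rfl
  constructor
  · rintro ⟨a, b, c⟩
    exact ⟨a.symm, c, b⟩
  · rintro ⟨a, b, c⟩
    exact ⟨a.symm, c, b⟩

open Classical in
private theorem coarea80 {n : ℕ} (G : SimpleGraph (Fin n))
    (h : ∀ A : Finset (Fin n), 2 * A.card ≤ n → A.card ≤ (cutp G A).card) (N : ℕ) :
    ∀ F : Fin n → ℝ, (∀ u, 0 ≤ F u) → (Finset.univ.filter fun u => 0 < F u).card ≤ N →
      2 * (Finset.univ.filter fun u => 0 < F u).card ≤ n →
      2 * ∑ u, F u ≤ ∑ u, ∑ v, if G.Adj u v then |F u - F v| else 0 := by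
  induction N with
  | zero =>
    intro F hF hN _
    have h0 : ∀ u, F u = 0 := by
      intro u
      by_contra hu
      have h1 : u ∈ Finset.univ.filter fun u => 0 < F u :=
        Finset.mem_filter.2 ⟨Finset.mem_univ _, lt_of_le_of_ne (hF u) (Ne.symm hu)⟩
      have h2 := Finset.card_pos.2 ⟨u, h1⟩
      omega
    have h1 : ∑ u, F u = 0 := Finset.sum_eq_zero fun u _ => h0 u
    rw [h1, mul_zero]
    exact Finset.sum_nonneg fun u _ => Finset.sum_nonneg fun v _ => by
      split_ifs
      · exact abs_nonneg _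
      · exact le_rfl
  | succ N ih =>
    intro F hF hN hs
    obtain ⟨A, hA⟩ : ∃ A, A = Finset.univ.filter fun u => 0 < F u := ⟨_, rfl⟩
    rw [← hA] at hN hs
    have hmem : ∀ u, u ∈ A ↔ 0 < F u := by
      intro u
      rw [hA]
      simp
    rcases A.eq_empty_or_nonempty with hemp | hne
    · refine ih F hF ?_ ?_
      · rw [← hA, hemp]
        simp
      · rw [← hA]
        exact hs
    · obtain ⟨w, hw, hmin⟩ := A.exists_min_image F hne
      obtain ⟨t, ht⟩ : ∃ t, t = F w := ⟨_, rfl⟩
      have ht0 : 0 < t := by rw [ht]; exact (hmem w).1 hw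
      have hzero : ∀ u, u ∉ A → F u = 0 := by
        intro u hu
        rw [hmem] at hu
        exact le_antisymm (not_lt.1 hu) (hF u)
      obtain ⟨F', hF'⟩ : ∃ F' : Fin n → ℝ, F' = fun u => if u ∈ A then F u - t else 0 := ⟨_, rfl⟩
      have hin : ∀ u, u ∈ A → F' u = F u - t := fun u hu => by rw [hF']; exact if_pos hu
      have hout : ∀ u, u ∉ A → F' u = 0 := fun u hu => by rw [hF']; exact if_neg hu
      have hF'0 : ∀ u, 0 ≤ F' u := by
        intro u
        by_cases hu : u ∈ A
        · rw [hin u hu, ht]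
          linarith [hmin u hu]
        · rw [hout u hu]
      have hsub : (Finset.univ.filter fun u => 0 < F' u) ⊆ A.erase w := by
        intro u hu
        rw [Finset.mem_filter] at hu
        have hu2 := hu.2
        rw [Finset.mem_erase]
        by_cases hu1 : u ∈ A
        · refine ⟨?_, hu1⟩
          rintro rfl
          rw [hin u hu1, ht, sub_self] at hu2
          exact lt_irrefl _ hu2
        · rw [hout u hu1] at hu2
          exact absurd hu2 (lt_irrefl _)
      have hcard := Finset.card_le_card hsub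
      rw [Finset.card_erase_of_mem hw] at hcard
      have h1 := ih F' hF'0 (by omega) (by omega)
      have h2 := h A hs
      have h3 : ∑ u, F u = ∑ u, F' u + t * A.card := by
        have e1 : ∀ u, F u = F' u + if u ∈ A then t else 0 := by
          intro u
          by_cases hu : u ∈ A
          · rw [hin u hu, if_pos hu]
            ring
          · rw [hout u hu, if_neg hu, hzero u hu]
            ring
        rw [Finset.sum_congr rfl fun u _ => e1 u, Finset.sum_add_distrib]
        congr 1
        rw [← Finset.sum_filter, Finset.sum_const, nsmul_eq_mul, Finset.filter_mem_eq_inter,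
          Finset.univ_inter]
        ring
      have h4 : (∑ u, ∑ v, if G.Adj u v then |F u - F v| else 0) =
          (∑ u, ∑ v, if G.Adj u v then |F' u - F' v| else 0) +
            (t * (cutp G A).card + t * (cutp G A).card) := by
        nth_rw 1 [← (cut_sum80 G A).1]
        rw [← (cut_sum80 G A).2, Finset.mul_sum, Finset.mul_sum, ← Finset.sum_add_distrib,
          ← Finset.sum_add_distrib]
        refine Finset.sum_congr rfl fun u _ => ?_
        rw [Finset.mul_sum, Finset.mul_sum, ← Finset.sum_add_distrib, ← Finset.sum_add_distrib]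
        refine Finset.sum_congr rfl fun v _ => ?_
        by_cases hadj : G.Adj u v
        · by_cases hu : u ∈ A <;> by_cases hv : v ∈ A
          · simp only [hadj, hu, hv, if_true, hin u hu, hin v hv, not_true_eq_false, and_false,
              if_false, mul_zero, add_zero, and_true]
            congr 1
            ring
          · have hu0 := hF'0 u
            have hFu := hF u
            rw [hin u hu] at hu0
            simp only [hadj, hu, hv, if_true, hin u hu, hout v hv, hzero v hv, not_true_eq_false,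
              not_false_eq_true, and_false, if_false, mul_zero, add_zero, and_true, sub_zero,
              mul_one]
            rw [abs_of_nonneg hFu, abs_of_nonneg hu0]
            ring
          · have hv0 := hF'0 v
            have hFv := hF v
            rw [hin v hv] at hv0
            simp only [hadj, hu, hv, if_true, hin v hv, hout u hu, hzero u hu, not_true_eq_false,
              not_false_eq_true, and_false, if_false, mul_zero, zero_add, and_true, zero_sub,
              mul_one, abs_neg]
            rw [abs_of_nonneg hFv, abs_of_nonneg hv0]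
            ring
          · simp only [hadj, hu, hv, if_true, hout u hu, hout v hv, hzero u hu, hzero v hv,
              not_false_eq_true, and_false, if_false, mul_zero, add_zero, and_true, sub_zero]
        · simp only [hadj, false_and, if_false, mul_zero, add_zero]
      rw [h3, h4]
      have h5 : (A.card : ℝ) ≤ (cutp G A).card := by exact_mod_cast h2
      have h6 := mul_le_mul_of_nonneg_left h5 ht0.le
      linarith

open Classical in
theorem coarea {n : ℕ} (G : SimpleGraph (Fin n))
    (h : ∀ A : Finset (Fin n), 2 * A.card ≤ n → A.card ≤ (cutp G A).card) (F : Fin n → ℝ)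
    (hF : ∀ u, 0 ≤ F u) (hs : 2 * (Finset.univ.filter fun u => 0 < F u).card ≤ n) :
    2 * ∑ u, F u ≤ ∑ u, ∑ v, if G.Adj u v then |F u - F v| else 0 :=
  coarea80 G h _ F hF le_rfl hs

open Classical in
private theorem deg_sum81 {n D : ℕ} (G : SimpleGraph (Fin n)) (hD : DegLe G D) (a : Fin n → ℝ)
    (ha : ∀ u, 0 ≤ a u) :
    (∑ u, ∑ v, if G.Adj u v then a u else 0) ≤ D * ∑ u, a u := by
  rw [Finset.mul_sum]
  refine Finset.sum_le_sum fun u _ => ?_
  rw [← Finset.sum_filter, Finset.sum_const, nsmul_eq_mul]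
  have h1 : ((Finset.univ.filter fun v => G.Adj u v).card : ℝ) ≤ D := by
    have h2 := hD u
    have h3 : G.neighborSet u = ((Finset.univ.filter fun v => G.Adj u v : Finset (Fin n)) : Set (Fin n)) := by
      ext v; simp
    rw [h3, Set.ncard_coe_finset] at h2
    exact_mod_cast h2
  exact mul_le_mul_of_nonneg_right h1 (ha u)

open Classical in
private theorem deg_sum81' {n D : ℕ} (G : SimpleGraph (Fin n)) (hD : DegLe G D) (a : Fin n → ℝ)
    (ha : ∀ u, 0 ≤ a u) :
    (∑ u, ∑ v, if G.Adj u v then a v else 0) ≤ D * ∑ u, a u := by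
  rw [Finset.sum_comm]
  refine le_trans (le_of_eq ?_) (deg_sum81 G hD a ha)
  refine Finset.sum_congr rfl fun u _ => Finset.sum_congr rfl fun v _ => ?_
  simp only [G.adj_comm v u]

open Classical in
private theorem half_bound81 {n D : ℕ} (G : SimpleGraph (Fin n)) (hD : DegLe G D)
    (h : ∀ A : Finset (Fin n), 2 * A.card ≤ n → A.card ≤ (cutp G A).card) (f : Fin n → ℝ)
    (hf : ∀ u, 0 ≤ f u) (hs : 2 * (Finset.univ.filter fun u => 0 < f u).card ≤ n) :
    ∑ u, f u ^ 2 ≤ D * ∑ u, ∑ v, if G.Adj u v then (f u - f v) ^ 2 else 0 := by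
  set S := ∑ u, f u ^ 2 with hS
  set En := ∑ u, ∑ v, if G.Adj u v then (f u - f v) ^ 2 else 0 with hEn
  have hS0 : 0 ≤ S := Finset.sum_nonneg fun u _ => sq_nonneg _
  have hE0 : 0 ≤ En := Finset.sum_nonneg fun u _ => Finset.sum_nonneg fun v _ => by
    split_ifs
    · exact sq_nonneg _
    · exact le_rfl
  -- coarea for the squares
  have h1 := coarea G h (fun u => f u ^ 2) (fun u => sq_nonneg _) (by
    refine le_trans (Nat.mul_le_mul_left 2 (Finset.card_le_card fun u hu => ?_)) hs
    simp only [Finset.mem_filter, Finset.mem_univ, true_and] at hu ⊢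
    exact lt_of_le_of_ne (hf u) (fun h0 => by rw [← h0] at hu; norm_num at hu))
  rw [← hS] at h1
  -- Cauchy-Schwarz over the pairs
  have h2 : (∑ u, ∑ v, if G.Adj u v then |f u ^ 2 - f v ^ 2| else 0) ^ 2 ≤
      En * ∑ u, ∑ v, if G.Adj u v then (f u + f v) ^ 2 else 0 := by
    have e1 : (∑ u, ∑ v, if G.Adj u v then |f u ^ 2 - f v ^ 2| else 0) =
        ∑ p : Fin n × Fin n, (if G.Adj p.1 p.2 then |f p.1 - f p.2| else 0) *
          (if G.Adj p.1 p.2 then (f p.1 + f p.2) else 0) := by
      rw [Fintype.sum_prod_type]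
      refine Finset.sum_congr rfl fun u _ => Finset.sum_congr rfl fun v _ => ?_
      split_ifs
      · rw [show f u ^ 2 - f v ^ 2 = (f u - f v) * (f u + f v) by ring, abs_mul,
          abs_of_nonneg (add_nonneg (hf u) (hf v))]
      · simp
    have e2 : En = ∑ p : Fin n × Fin n, (if G.Adj p.1 p.2 then |f p.1 - f p.2| else 0) ^ 2 := by
      rw [Fintype.sum_prod_type]
      refine Finset.sum_congr rfl fun u _ => Finset.sum_congr rfl fun v _ => ?_
      split_ifs
      · rw [sq_abs]
      · simp
    have e3 : (∑ u, ∑ v, if G.Adj u v then (f u + f v) ^ 2 else 0) =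
        ∑ p : Fin n × Fin n, (if G.Adj p.1 p.2 then (f p.1 + f p.2) else 0) ^ 2 := by
      rw [Fintype.sum_prod_type]
      refine Finset.sum_congr rfl fun u _ => Finset.sum_congr rfl fun v _ => ?_
      split_ifs
      · rfl
      · simp
    rw [e1, e2, e3]
    exact Finset.sum_mul_sq_le_sq_mul_sq _ _ _
  have h3 : (∑ u, ∑ v, if G.Adj u v then (f u + f v) ^ 2 else 0) ≤ 4 * D * S := by
    have e1 : (∑ u, ∑ v, if G.Adj u v then (f u + f v) ^ 2 else 0) ≤
        2 * (∑ u, ∑ v, if G.Adj u v then f u ^ 2 else 0) +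
          2 * (∑ u, ∑ v, if G.Adj u v then f v ^ 2 else 0) := by
      simp only [Finset.mul_sum]
      rw [← Finset.sum_add_distrib]
      refine Finset.sum_le_sum fun u _ => ?_
      rw [← Finset.sum_add_distrib]
      refine Finset.sum_le_sum fun v _ => ?_
      split_ifs
      · nlinarith [sq_nonneg (f u - f v)]
      · simp
    have e2 := deg_sum81 G hD (fun u => f u ^ 2) (fun u => sq_nonneg _)
    have e3 := deg_sum81' G hD (fun u => f u ^ 2) (fun u => sq_nonneg _)
    rw [← hS] at e2 e3
    linarith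
  have h4 : (2 * S) ^ 2 ≤ En * (4 * D * S) := by
    refine le_trans (pow_le_pow_left₀ (by positivity) h1 2) (h2.trans ?_)
    exact mul_le_mul_of_nonneg_left h3 hE0
  rcases hS0.eq_or_lt with h5 | h5
  · rw [← h5]
    positivity
  · have h6 : S * S ≤ S * (D * En) := by nlinarith
    exact le_of_mul_le_mul_left h6 h5

open Classical in
private theorem exists_median81 {n : ℕ} (g : Fin n → ℝ) : ∃ c : ℝ,
    2 * (Finset.univ.filter fun u => c < g u).card ≤ n ∧
    2 * (Finset.univ.filter fun u => g u < c).card ≤ n := by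
  rcases Nat.eq_zero_or_pos n with hn | hn
  · subst hn
    exact ⟨0, by simp, by simp⟩
  haveI : Nonempty (Fin n) := ⟨⟨0, hn⟩⟩
  set A := Finset.univ.filter fun u => n ≤ 2 * (Finset.univ.filter fun v => g v ≤ g u).card with hA
  have hAne : A.Nonempty := by
    obtain ⟨u, -, hu⟩ := Finset.exists_max_image Finset.univ g Finset.univ_nonempty
    refine ⟨u, ?_⟩
    rw [hA, Finset.mem_filter]
    refine ⟨Finset.mem_univ _, ?_⟩
    rw [Finset.filter_true_of_mem (fun v hv => hu v hv), Finset.card_univ, Fintype.card_fin]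
    omega
  obtain ⟨u0, hu0, hmin⟩ := Finset.exists_min_image A g hAne
  refine ⟨g u0, ?_, ?_⟩
  · have h1 := (Finset.mem_filter.1 hu0).2
    have h2 := Finset.card_filter_add_card_filter_not (s := (Finset.univ : Finset (Fin n)))
      (fun v => g v ≤ g u0)
    rw [Finset.card_univ, Fintype.card_fin] at h2
    have h3 : (Finset.univ.filter fun u => g u0 < g u) = Finset.univ.filter fun u => ¬ g u ≤ g u0 := by
      refine Finset.filter_congr fun u _ => ?_
      exact not_le.symm
    rw [h3]
    omega
  · by_cases hne : (Finset.univ.filter fun u => g u < g u0).Nonempty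
    · obtain ⟨v0, hv0, hmax⟩ := Finset.exists_max_image _ g hne
      have hv1 : g v0 < g u0 := (Finset.mem_filter.1 hv0).2
      have hv2 : v0 ∉ A := fun h => absurd (hmin v0 h) (not_le.2 hv1)
      rw [hA, Finset.mem_filter] at hv2
      have h3 : (Finset.univ.filter fun u => g u < g u0) ⊆ Finset.univ.filter fun u => g u ≤ g v0 := by
        intro u hu
        exact Finset.mem_filter.2 ⟨Finset.mem_univ _, hmax u hu⟩
      have h4 := Finset.card_le_card h3
      have h5 : ¬ n ≤ 2 * (Finset.univ.filter fun v => g v ≤ g v0).card := fun h =>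
        hv2 ⟨Finset.mem_univ _, h⟩
      omega
    · rw [Finset.not_nonempty_iff_eq_empty.1 hne]
      simp

theorem poinc_of_cut {n D : ℕ} (G : SimpleGraph (Fin n)) (hD : DegLe G D)
    (h : ∀ A : Finset (Fin n), 2 * A.card ≤ n → A.card ≤ (cutp G A).card) :
    Poinc (2 * D) G := by
  classical
  intro g
  obtain ⟨c, hc1, hc2⟩ := exists_median81 g
  have hp := half_bound81 G hD h (fun u => max (g u - c) 0) (fun u => le_max_right _ _) (by
    refine le_trans (Nat.mul_le_mul_left 2 (Finset.card_le_card fun u hu => ?_)) hc1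
    simp only [Finset.mem_filter, Finset.mem_univ, true_and, lt_max_iff, lt_irrefl, or_false] at hu ⊢
    linarith)
  have hm := half_bound81 G hD h (fun u => max (c - g u) 0) (fun u => le_max_right _ _) (by
    refine le_trans (Nat.mul_le_mul_left 2 (Finset.card_le_card fun u hu => ?_)) hc2
    simp only [Finset.mem_filter, Finset.mem_univ, true_and, lt_max_iff, lt_irrefl, or_false] at hu ⊢
    linarith)
  have hE : (∑ u, ∑ v, if G.Adj u v then (max (g u - c) 0 - max (g v - c) 0) ^ 2 else 0) +
      (∑ u, ∑ v, if G.Adj u v then (max (c - g u) 0 - max (c - g v) 0) ^ 2 else 0) ≤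
      ∑ u, ∑ v, if G.Adj u v then (g u - g v) ^ 2 else 0 := by
    rw [← Finset.sum_add_distrib]
    refine Finset.sum_le_sum fun u _ => ?_
    rw [← Finset.sum_add_distrib]
    refine Finset.sum_le_sum fun v _ => ?_
    split_ifs
    · rcases le_total (g u) c with h1 | h1 <;> rcases le_total (g v) c with h2 | h2
      · rw [max_eq_right (by linarith : g u - c ≤ 0), max_eq_right (by linarith : g v - c ≤ 0),
          max_eq_left (by linarith : (0:ℝ) ≤ c - g u), max_eq_left (by linarith : (0:ℝ) ≤ c - g v)]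
        nlinarith
      · rw [max_eq_right (by linarith : g u - c ≤ 0), max_eq_left (by linarith : (0:ℝ) ≤ g v - c),
          max_eq_left (by linarith : (0:ℝ) ≤ c - g u), max_eq_right (by linarith : c - g v ≤ 0)]
        nlinarith
      · rw [max_eq_left (by linarith : (0:ℝ) ≤ g u - c), max_eq_right (by linarith : g v - c ≤ 0),
          max_eq_right (by linarith : c - g u ≤ 0), max_eq_left (by linarith : (0:ℝ) ≤ c - g v)]
        nlinarith
      · rw [max_eq_left (by linarith : (0:ℝ) ≤ g u - c), max_eq_left (by linarith : (0:ℝ) ≤ g v - c),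
          max_eq_right (by linarith : c - g u ≤ 0), max_eq_right (by linarith : c - g v ≤ 0)]
        nlinarith
    · simp
  have hsq : ∑ u, (g u - c) ^ 2 = ∑ u, max (g u - c) 0 ^ 2 + ∑ u, max (c - g u) 0 ^ 2 := by
    rw [← Finset.sum_add_distrib]
    refine Finset.sum_congr rfl fun u _ => ?_
    rcases le_total (g u) c with h1 | h1
    · rw [max_eq_right (by linarith : g u - c ≤ 0), max_eq_left (by linarith : (0:ℝ) ≤ c - g u)]
      ring
    · rw [max_eq_left (by linarith : (0:ℝ) ≤ g u - c), max_eq_right (by linarith : c - g u ≤ 0)]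
      ring
  have hvar : ∑ u, ∑ v, (g u - g v) ^ 2 = 2 * n * ∑ u, (g u - c) ^ 2 - 2 * (∑ u, (g u - c)) ^ 2 := by
    have e1 : ∀ u v : Fin n, (g u - g v) ^ 2 =
        (g u - c) ^ 2 + (g v - c) ^ 2 - 2 * ((g u - c) * (g v - c)) := fun u v => by ring
    simp only [e1]
    simp only [Finset.sum_sub_distrib, Finset.sum_add_distrib, Finset.sum_const, Finset.card_univ,
      Fintype.card_fin, nsmul_eq_mul, ← Finset.mul_sum, ← Finset.sum_mul]
    ring
  rw [hvar]
  set En := ∑ u, ∑ v, if G.Adj u v then (g u - g v) ^ 2 else 0 with hEn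
  have h1 : ∑ u, (g u - c) ^ 2 ≤ D * En := by
    rw [hsq]
    have hD0 : (0 : ℝ) ≤ D := Nat.cast_nonneg _
    nlinarith [mul_le_mul_of_nonneg_left hE hD0]
  have hn0 : (0 : ℝ) ≤ 2 * n := by positivity
  have h2 := mul_le_mul_of_nonneg_left h1 hn0
  nlinarith [sq_nonneg (∑ u, (g u - c))]

end Pool.Agent.Helper58.NE
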