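import Pool.Agent.Helper58.NE.RDefs

/-!
# Project NE, block D5: the core of a graph which expands large sets

PROOF of `exists_core`. Let `B` be a set of maximal cardinality among the sets with `2 |B| ≤ n` and `|cutp G B| ≤ |B|` (`∅` is one). Then `8 |B| < n` (otherwise `3 n ≤ |cutp G B| ≤ |B|`). Let `U = Bᶜ`, `n' = |U| ≥ 7n/8`, `G' = G.comap` along an equivalence (embedding) `Fin n' → Fin n` with image `U`.
Degrees and short cycles: `G'` is (isomorphic to) an induced subgraph (`Walk.map`, injective).
Let `A ⊆ U` non-empty, `2 |A| ≤ |U|`. The cut of `A` in `G'` has `c = |{(u, v) : u ∈ A, v ∈ U \ A, Adj}|` elements.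
Case `2 |A ∪ B| ≤ n`: by maximality `|cutp G (A ∪ B)| > |A| + |B|`; a pair in `cutp G (A ∪ B)` is in the cut of `A` in `G'` or in `cutp G B`; so `c ≥ |A| + |B| + 1 - |B| > |A|`.
Case `2 |A ∪ B| > n`: `|A| > n/2 - n/8`, so `n ≤ 8 |A|`, `2 |A| ≤ n` and `3 n ≤ |cutp G A| ≤ c + |cutp G B|` (a pair `(u, v)` with `u ∈ A`, `v ∈ B` gives the pair `(v, u)` of `cutp G B`) `≤ c + |B|`, so `c ≥ 3 n - n / 8 ≥ |A|`.

`connected_of_cut`: if `G` is not connected (and `n > 0`), a component or its complement has at most half of the vertices, is not empty and has an empty cut.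
-/

namespace Pool.Agent.Helper58.NE

theorem exists_core {n W D : ℕ} (hn : 0 < n) (G : SimpleGraph (Fin n)) (hD : DegLe G D)
    (hW : NoShort G W)
    (h : ∀ A : Finset (Fin n), n ≤ 8 * A.card → 2 * A.card ≤ n → 3 * n ≤ (cutp G A).card) :
    ∃ (n' : ℕ) (G' : SimpleGraph (Fin n')), 7 * n ≤ 8 * n' ∧ DegLe G' D ∧ NoShort G' W ∧
      ∀ A : Finset (Fin n'), 2 * A.card ≤ n' → A.card ≤ (cutp G' A).card := by
  classical
  have memc : ∀ {m : ℕ} (H : SimpleGraph (Fin m)) (A : Finset (Fin m)) (p : Fin m × Fin m),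
      p ∈ cutp H A ↔ p.1 ∈ A ∧ p.2 ∉ A ∧ H.Adj p.1 p.2 := by
    intro m H A p
    simp [cutp]
  let S : Finset (Finset (Fin n)) := Finset.univ.filter fun B =>
    2 * B.card ≤ n ∧ (cutp G B).card ≤ B.card
  have hS : S.Nonempty := by
    refine ⟨∅, ?_⟩
    simp only [S, Finset.mem_filter, Finset.mem_univ, true_and, Finset.card_empty]
    refine ⟨by omega, ?_⟩
    rw [Nat.le_zero, Finset.card_eq_zero, Finset.eq_empty_iff_forall_notMem]
    intro p hp
    exact absurd ((memc G ∅ p).mp hp).1 (Finset.notMem_empty _)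
  obtain ⟨B, hBS, hBmax⟩ := S.exists_max_image Finset.card hS
  have hB := hBS
  simp only [S, Finset.mem_filter, Finset.mem_univ, true_and] at hB
  obtain ⟨hB1, hB2⟩ := hB
  have hB8 : 8 * B.card < n := by
    by_contra hcon
    have := h B (by omega) hB1
    omega
  have hBc : Bᶜ.card = n - B.card := by
    rw [Finset.card_compl, Fintype.card_fin]
  have hBle : B.card ≤ n := by omega
  let f : Fin (Bᶜ.card) ↪o Fin n := Bᶜ.orderEmbOfFin rfl
  have hfinj : Function.Injective f := f.injective
  have hfmem : ∀ i, f i ∉ B := by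
    intro i
    have : f i ∈ Bᶜ := Finset.orderEmbOfFin_mem _ _ _
    exact Finset.mem_compl.mp this
  have hfsurj : ∀ v, v ∉ B → ∃ i, f i = v := by
    intro v hv
    have h1 : v ∈ Set.range f := by
      rw [Finset.range_orderEmbOfFin]
      exact Finset.mem_coe.mpr (Finset.mem_compl.mpr hv)
    exact h1
  refine ⟨Bᶜ.card, G.comap f, by omega, ?_, ?_, ?_⟩
  · intro v
    refine le_trans ?_ (hD (f v))
    rw [← Set.ncard_image_of_injective _ hfinj]
    apply Set.ncard_le_ncard _ (Set.toFinite _)
    rintro _ ⟨w, hw, rfl⟩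
    exact hw
  · intro v c hc
    have h1 := hW (f v) (c.map (SimpleGraph.Hom.comap f G))
      (hc.map (f := SimpleGraph.Hom.comap f G) hfinj)
    exact lt_of_lt_of_eq h1 (SimpleGraph.Walk.length_map (SimpleGraph.Hom.comap f G) c)
  · intro A hA
    rcases A.eq_empty_or_nonempty with rfl | hne
    · simp
    have hApos : 0 < A.card := Finset.card_pos.mpr hne
    let A' : Finset (Fin n) := A.map f.toEmbedding
    have hA' : A'.card = A.card := Finset.card_map _
    have memA' : ∀ v, v ∈ A' ↔ ∃ a ∈ A, f a = v := by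
      intro v
      simp [A']
    let C' : Finset (Fin n × Fin n) := (cutp G A').filter fun p => p.2 ∉ B
    have hC : C'.card ≤ (cutp (G.comap f) A).card := by
      have hsub : C' ⊆ (cutp (G.comap f) A).image (Prod.map f f) := by
        rintro ⟨u, v⟩ huv
        simp only [C', Finset.mem_filter, memc] at huv
        obtain ⟨⟨h1, h2, h3⟩, h4⟩ := huv
        obtain ⟨a, ha, rfl⟩ := (memA' u).mp h1
        obtain ⟨b, rfl⟩ := hfsurj v h4
        refine Finset.mem_image.mpr ⟨(a, b), ?_, rfl⟩
        rw [memc]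
        refine ⟨ha, fun hb => h2 ((memA' _).mpr ⟨b, hb, rfl⟩), h3⟩
      exact (Finset.card_le_card hsub).trans Finset.card_image_le
    have hdisj : Disjoint A' B := by
      rw [Finset.disjoint_left]
      intro v hv
      obtain ⟨a, -, rfl⟩ := (memA' v).mp hv
      exact hfmem a
    have hunion : (A' ∪ B).card = A.card + B.card := by
      rw [Finset.card_union_of_disjoint hdisj, hA']
    rcases Nat.lt_or_ge n (2 * (A' ∪ B).card) with hlt | hge
    · have h3 := h A' (by omega) (by omega)
      have hsub : cutp G A' ⊆ C' ∪ (cutp G B).image Prod.swap := by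
        rintro ⟨u, v⟩ huv
        have huv' := (memc _ _ _).mp huv
        obtain ⟨h1, h2, h4⟩ := huv'
        by_cases hv : v ∈ B
        · apply Finset.mem_union_right
          refine Finset.mem_image.mpr ⟨(v, u), ?_, rfl⟩
          rw [memc]
          exact ⟨hv, Finset.disjoint_left.mp hdisj h1, h4.symm⟩
        · apply Finset.mem_union_left
          exact Finset.mem_filter.mpr ⟨huv, hv⟩
      have h5 := (Finset.card_le_card hsub).trans (Finset.card_union_le _ _)
      have h6 : ((cutp G B).image Prod.swap).card ≤ (cutp G B).card := Finset.card_image_le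
      omega
    · have h3 : (A' ∪ B).card < (cutp G (A' ∪ B)).card := by
        by_contra hcon
        have h4 : A' ∪ B ∈ S := by
          simp only [S, Finset.mem_filter, Finset.mem_univ, true_and]
          exact ⟨hge, by omega⟩
        have h5 := hBmax _ h4
        omega
      have hsub : cutp G (A' ∪ B) ⊆ C' ∪ cutp G B := by
        rintro ⟨u, v⟩ huv
        obtain ⟨h1, h2, h4⟩ := (memc _ _ _).mp huv
        have h2a : v ∉ A' := fun hv => h2 (Finset.mem_union_left _ hv)
        have h2b : v ∉ B := fun hv => h2 (Finset.mem_union_right _ hv)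
        rcases Finset.mem_union.mp h1 with hu | hu
        · apply Finset.mem_union_left
          exact Finset.mem_filter.mpr ⟨(memc _ _ _).mpr ⟨hu, h2a, h4⟩, h2b⟩
        · apply Finset.mem_union_right
          exact (memc _ _ _).mpr ⟨hu, h2b, h4⟩
      have h5 := (Finset.card_le_card hsub).trans (Finset.card_union_le _ _)
      omega

theorem connected_of_cut {n : ℕ} (hn : 0 < n) (G : SimpleGraph (Fin n))
    (h : ∀ A : Finset (Fin n), 2 * A.card ≤ n → A.card ≤ (cutp G A).card) : G.Connected := by
  classical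
  haveI : Nonempty (Fin n) := ⟨⟨0, hn⟩⟩
  refine { preconnected := ?_, nonempty := inferInstance }
  intro u v
  by_contra huv
  set A : Finset (Fin n) := Finset.univ.filter (fun w => G.Reachable u w) with hA
  have memA : ∀ w, w ∈ A ↔ G.Reachable u w := fun w => by simp [hA]
  have cut1 : cutp G A = ∅ := by
    rw [Finset.eq_empty_iff_forall_notMem]
    rintro ⟨a, b⟩ hab
    simp only [cutp, Finset.mem_filter, Finset.mem_univ, true_and] at hab
    obtain ⟨h1, h2, h3⟩ := hab
    exact h2 ((memA b).mpr (((memA a).mp h1).trans h3.reachable))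
  have cut2 : cutp G Aᶜ = ∅ := by
    rw [Finset.eq_empty_iff_forall_notMem]
    rintro ⟨a, b⟩ hab
    simp only [cutp, Finset.mem_filter, Finset.mem_univ, true_and, Finset.mem_compl,
      not_not] at hab
    obtain ⟨h1, h2, h3⟩ := hab
    exact h1 ((memA a).mpr (((memA b).mp h2).trans h3.symm.reachable))
  have hu : u ∈ A := (memA u).mpr (SimpleGraph.Reachable.refl u)
  have hv : v ∈ Aᶜ := by
    rw [Finset.mem_compl, memA]; exact huv
  have c1 : 1 ≤ A.card := Finset.card_pos.mpr ⟨u, hu⟩
  have c2 : 1 ≤ Aᶜ.card := Finset.card_pos.mpr ⟨v, hv⟩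
  have c3 : A.card + Aᶜ.card = n := by
    rw [Finset.card_add_card_compl, Fintype.card_fin]
  rcases Nat.lt_or_ge n (2 * A.card) with hlt | hge
  · have := h Aᶜ (by omega)
    rw [cut2, Finset.card_empty] at this
    omega
  · have := h A hge
    rw [cut1, Finset.card_empty] at this
    omega

end Pool.Agent.Helper58.NE
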