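import Pool.Agent.Helper25.NU.Tree

/-!
# Project NE (MP_460089_an, MP_0402b8_an, MP_ef1e35_an): a uniformly convex space in which large girth
expanders are not expanders.  Definitions

`U` is a finite set, `x : U → ℝ`.

* `sc x`: the number of non-zero coordinates; `n1 x` (Helper25): the `ℓ₁`-norm; `e2 x`: the square of
  the Euclidean norm; `pr x b`: the pairing; `qf H x`: the quadratic form with the kernel `H`.
* `Atom H k`: the atoms of level `k`; `IsGauge H k p`: `p` is the gauge of their convex hull.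
* `Pos H K`: positivity of the form on vectors of small support.
* `al H k x`: the square of the atomic size of `x`.
* `FB H K b c c'`: bounds for the functional `b` on the atoms of level `k < K` and in the tail.
* `kap n = ∫₀^∞ e^{-a n} (1+a)^{-2} da`, `Hk G r`: the kernel `kap (dist/r) + 1[u = v]` of a graph,
  `bz G r Lb z`: the truncated Gaussian functional at `z`.
* `fk F s`: the kernel `s ^ dist` of a graph (`0` if not reachable).
* `Poinc γ G`: Poincaré inequality;  `Fam`: families of maps which violate the `X`-valued one.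
-/

namespace Pool.Agent.Helper58.NE

open Pool.Agent.Helper25.NU

/-- Binary trees with labels in `V` (Helper25). -/
abbrev Tr (V : Type) : Type := Pool.Agent.Helper25.NU.Tree V

section Vec

variable {U : Type} [Fintype U]

open Classical in
/-- The number of non-zero coordinates. -/
noncomputable def sc (x : U → ℝ) : ℕ := (Finset.univ.filter fun u => x u ≠ 0).card

/-- The square of the Euclidean norm. -/
noncomputable def e2 (x : U → ℝ) : ℝ := ∑ u, x u ^ 2

/-- The pairing. -/
noncomputable def pr (x b : U → ℝ) : ℝ := ∑ u, x u * b u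

/-- The quadratic form with kernel `H`. -/
noncomputable def qf (H : U → U → ℝ) (x : U → ℝ) : ℝ := ∑ u, ∑ v, H u v * (x u * x v)

/-- The atoms of level `k`. -/
structure Atom (H : U → U → ℝ) (k : ℕ) (x : U → ℝ) : Prop where
  supp : sc x ≤ 4096 ^ k
  one : n1 x ≤ 1
  quad : 4096 ^ k * qf H x ≤ 2

/-- The square of the atomic size of level `k` (for vectors of support at most `4096 ^ k`). -/
noncomputable def al (H : U → U → ℝ) (k : ℕ) (x : U → ℝ) : ℝ :=
  max (n1 x ^ 2) (4096 ^ k * qf H x / 2)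

/-- Positivity of the form on vectors of small support. -/
def Pos (H : U → U → ℝ) (K : ℕ) : Prop :=
  ∀ x : U → ℝ, sc x ≤ 4096 ^ K → e2 x ≤ qf H x + n1 x ^ 2 / 4096 ^ K

/-- `p` is the gauge of the convex hull of the atoms of level `k`. -/
structure IsGauge (H : U → U → ℝ) (k : ℕ) (p : Seminorm ℝ (U → ℝ)) : Prop where
  up : ∀ (x : U → ℝ) (t : ℝ), 0 ≤ t → sc x ≤ 4096 ^ k → n1 x ≤ t →
    4096 ^ k * qf H x ≤ 2 * t ^ 2 → p x ≤ t
  hull : ∀ Ψ : (U → ℝ) → ℝ, ConvexOn ℝ Set.univ Ψ → ∀ (x : U → ℝ) (t : ℝ), p x < t →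
    ∃ a, Atom H k a ∧ Ψ x ≤ Ψ (t • a)

/-- Bounds for the functional `b`: `c k` on the atoms of level `k < K`, and `c'` in the tail. -/
structure FB (H : U → U → ℝ) (K : ℕ) (b : U → ℝ) (c : ℕ → ℝ) (c' : ℝ) : Prop where
  c_nonneg : ∀ k, 0 ≤ c k
  c'_nonneg : 0 ≤ c'
  atom : ∀ k < K, ∀ a : U → ℝ, Atom H k a → |pr a b| ≤ c k
  tail : ∀ x : U → ℝ, |pr x b| ≤ c' * (32 ^ K * √(e2 x))

/-- The resulting bound for the norm of `b`. -/
noncomputable def fbn (K : ℕ) (c : ℕ → ℝ) (c' : ℝ) : ℝ :=
  √(∑ k ∈ Finset.range K, 4 ^ k * c k ^ 2 + c' ^ 2)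

end Vec

section Graph

/-- The Laplace transform of `(1+a)^{-2}`. -/
noncomputable def kap (n : ℝ) : ℝ :=
  ∫ a in Set.Ioi (0 : ℝ), Real.exp (-(a * n)) * ((1 + a) ^ 2)⁻¹

variable {V : Type}

open Classical in
/-- The kernel of the graph `G` at scale `r`. -/
noncomputable def Hk (G : SimpleGraph V) (r : ℝ) (u v : V) : ℝ :=
  kap (G.dist u v / r) + if u = v then 1 else 0

open Classical in
/-- The truncated Gaussian functional at `z`. -/
noncomputable def bz (G : SimpleGraph V) (r : ℝ) (Lb : ℕ) (z : V) (y : V) : ℝ :=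
  if G.dist z y ≤ Lb then Real.exp (-(G.dist z y / r) ^ 2) else 0

open Classical in
/-- The kernel `s ^ dist` of a graph. -/
noncomputable def fk (F : SimpleGraph V) (s : ℝ) (u v : V) : ℝ :=
  if F.Reachable u v then s ^ F.dist u v else 0

/-- No cycle of length at most `W`. -/
def NoShort (G : SimpleGraph V) (W : ℕ) : Prop :=
  ∀ (v : V) (c : G.Walk v v), c.IsCycle → W < c.length

/-- All degrees are at most `D`. -/
def DegLe (G : SimpleGraph V) (D : ℕ) : Prop := ∀ v, (G.neighborSet v).ncard ≤ D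

open Classical in
/-- Poincaré inequality with constant `γ`. -/
def Poinc (γ : ℝ) {n : ℕ} (G : SimpleGraph (Fin n)) : Prop :=
  ∀ g : Fin n → ℝ, ∑ u, ∑ v, (g u - g v) ^ 2 ≤
    γ * n * ∑ u, ∑ v, if G.Adj u v then (g u - g v) ^ 2 else 0

open Classical in
/-- A map from a graph to `X` which is bounded by `C`, moves by at most `ε` along edges, and
separates at least half of the pairs of vertices by `1 / 2`. -/
structure Fam {X : Type*} [NormedAddCommGroup X] (C ε : ℝ) {n : ℕ} (G : SimpleGraph (Fin n))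
    (f : Fin n → X) : Prop where
  bdd : ∀ v, ‖f v‖ ≤ C
  edge : ∀ u v, G.Adj u v → ‖f u - f v‖ ≤ ε
  far : 2 * (Finset.univ.filter fun p : Fin n × Fin n => ‖f p.1 - f p.2‖ < 1 / 2).card ≤ n ^ 2

end Graph

end Pool.Agent.Helper58.NE
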