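import Pool.Agent.Helper58.NE.Defs

/-!
# Project NE, block A7: lifting of trees

PROOF of `exists_lift`. Induction on the tree: at a label `x` choose `y` with `∑ y = x` and `∑ P² ≤ N x ^ 2 + η`; if `x = 0` choose `y = 0`. For the right
subtree the label of the path is `-x = ∑ (-y)`. In `All` both `y` and `-y` occur: the properties are symmetric.
-/

namespace Pool.Agent.Helper58.NE

open Pool.Agent.Helper25.NU

variable {ι : Type} [Fintype ι] {V : Type} [AddCommGroup V] [Module ℝ V]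

theorem exists_lift {P : ι → Seminorm ℝ V} {N : Seminorm ℝ V}
    (hN : ∀ (x : V) (η : ℝ), 0 < η →
      ∃ y : ι → V, ∑ i, y i = x ∧ ∑ i, P i (y i) ^ 2 ≤ N x ^ 2 + η)
    (T : Tr V) {η : ℝ} (hη : 0 < η) :
    ∃ T' : Tr (ι → V), T'.map (fun y => ∑ i, y i) = T ∧
      T'.All (fun s => ∀ y ∈ s, ∑ i, P i (y i) ^ 2 ≤ N (∑ i, y i) ^ 2 + η ∧
        (∑ i, y i = 0 → y = 0)) := by
  have neg50 : ∀ y : ι → V, (∑ i, P i (y i) ^ 2 ≤ N (∑ i, y i) ^ 2 + η ∧ (∑ i, y i = 0 → y = 0)) →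
      (∑ i, P i ((-y) i) ^ 2 ≤ N (∑ i, (-y) i) ^ 2 + η ∧ (∑ i, (-y) i = 0 → -y = 0)) := by
    intro y hy
    have h1 : ∑ i, (-y) i = -∑ i, y i := by
      simp only [Pi.neg_apply, Finset.sum_neg_distrib]
    refine ⟨?_, fun h => ?_⟩
    · rw [h1, map_neg_eq_map]
      have h2 : ∀ i, P i ((-y) i) = P i (y i) := fun i => by rw [Pi.neg_apply, map_neg_eq_map]
      simp only [h2]
      exact hy.1
    · rw [h1, neg_eq_zero] at h
      rw [hy.2 h, neg_zero]
  induction T with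
  | leaf =>
    refine ⟨Pool.Agent.Helper25.NU.Tree.leaf, rfl, ?_⟩
    intro y hy
    exact absurd hy (by simp)
  | node x l r ihl ihr =>
    obtain ⟨l', hl1, hl2⟩ := ihl
    obtain ⟨r', hr1, hr2⟩ := ihr
    obtain ⟨y, hy1, hy2⟩ : ∃ y : ι → V, ∑ i, y i = x ∧
        (∑ i, P i (y i) ^ 2 ≤ N (∑ i, y i) ^ 2 + η ∧ (∑ i, y i = 0 → y = 0)) := by
      by_cases hx : x = 0
      · refine ⟨0, by simp [hx], ?_, fun _ => rfl⟩
        simp only [Pi.zero_apply, map_zero, Finset.sum_const_zero]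
        norm_num
        exact hη.le
      · obtain ⟨y, h1, h2⟩ := hN x η hη
        refine ⟨y, h1, ?_, fun h => ?_⟩
        · rw [h1]
          exact h2
        · exact absurd (h1.symm.trans h) hx
    refine ⟨Pool.Agent.Helper25.NU.Tree.node y l' r', ?_, ?_, ?_⟩
    · show Pool.Agent.Helper25.NU.Tree.node (∑ i, y i) (l'.map _) (r'.map _) = _
      rw [hl1, hr1, hy1]
    · refine Pool.Agent.Helper25.NU.Tree.All_mono hl2 fun s hs v hv => ?_
      rcases List.mem_cons.1 hv with rfl | hv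
      · exact hy2
      · exact hs v hv
    · refine Pool.Agent.Helper25.NU.Tree.All_mono hr2 fun s hs v hv => ?_
      rcases List.mem_cons.1 hv with rfl | hv
      · exact neg50 y hy2
      · exact hs v hv

end Pool.Agent.Helper58.NE
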