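import Pool.Agent.Helper58.NE.Orth

/-!
# Project NE, block A5: the gauge and the Euclidean norm

PROOF. `IsGauge.hull` with `Ψ = e2` (convex): for `t > p x`, `e2 x ≤ e2 (t • a) = t² e2 a`, and for an atom `a` (`sc a ≤ 4096^k ≤ 4096^K`)
`e2 a ≤ qf H a + n1 a ^ 2 / 4096^K ≤ 2 / 4096^k + 1 / 4096^K ≤ 3 / 4096^k`; let `t → p x`.
-/

namespace Pool.Agent.Helper58.NE

open Pool.Agent.Helper25.NU

variable {U : Type} [Fintype U]

theorem gauge_e2 {H : U → U → ℝ} {K k : ℕ} (hP : Pos H K) (hk : k ≤ K) {p : Seminorm ℝ (U → ℝ)}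
    (hp : IsGauge H k p) (x : U → ℝ) : e2 x ≤ 3 / 4096 ^ k * p x ^ 2 := by
  have hconv : ConvexOn ℝ Set.univ (e2 : (U → ℝ) → ℝ) := by
    refine ⟨convex_univ, fun x _ y _ a b ha hb hab => ?_⟩
    simp only [e2, smul_eq_mul, Finset.mul_sum]
    rw [← Finset.sum_add_distrib]
    refine Finset.sum_le_sum fun u _ => ?_
    simp only [Pi.add_apply, Pi.smul_apply, smul_eq_mul]
    have hb' : b = 1 - a := by linarith
    subst hb'
    nlinarith [mul_nonneg (mul_nonneg ha hb) (sq_nonneg (x u - y u))]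
  have h4 : (0 : ℝ) < 4096 ^ k := by positivity
  have hatom : ∀ a : U → ℝ, Atom H k a → e2 a ≤ 3 / 4096 ^ k := by
    intro a ha
    have h1 : sc a ≤ 4096 ^ K := ha.supp.trans (Nat.pow_le_pow_right (by norm_num) hk)
    have h2 := hP a h1
    have h3 : qf H a ≤ 2 / 4096 ^ k := by
      rw [le_div_iff₀ h4]
      have := ha.quad
      linarith
    have h5 : n1 a ^ 2 / 4096 ^ K ≤ 1 / 4096 ^ k := by
      have h6 : n1 a ^ 2 ≤ 1 := by
        have h7 := ha.one
        have h8 := n1_nonneg a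
        nlinarith
      have h9 : (4096 : ℝ) ^ k ≤ 4096 ^ K := pow_le_pow_right₀ (by norm_num) hk
      exact div_le_div₀ zero_le_one h6 h4 h9
    have h6 : (3 : ℝ) / 4096 ^ k = 2 / 4096 ^ k + 1 / 4096 ^ k := by ring
    rw [h6]
    linarith
  have key : ∀ t : ℝ, p x < t → e2 x ≤ 3 / 4096 ^ k * t ^ 2 := by
    intro t ht
    obtain ⟨a, ha, h1⟩ := hp.hull e2 hconv x t ht
    rw [e2_smul] at h1
    have h2 := mul_le_mul_of_nonneg_left (hatom a ha) (sq_nonneg t)
    linarith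
  have hc : Continuous (fun t : ℝ => 3 / (4096 : ℝ) ^ k * t ^ 2) := by fun_prop
  have h5 : Filter.Tendsto (fun t : ℝ => 3 / (4096 : ℝ) ^ k * t ^ 2) (nhdsWithin (p x) (Set.Ioi (p x)))
      (nhds (3 / 4096 ^ k * p x ^ 2)) := (hc.tendsto (p x)).mono_left nhdsWithin_le_nhds
  refine ge_of_tendsto h5 ?_
  filter_upwards [self_mem_nhdsWithin] with t ht
  exact key t ht

end Pool.Agent.Helper58.NE
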