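import Pool.Agent.Helper58.NE.Sys
import Pool.Agent.Helper58.NE.GaugeE2

/-!
# Project NE, block A8b: the tail of a label

PROOF of `tail_label`. `32^K √(e2 (∑ ..)) ≤ ∑_{K ≤ k+s} 32^K √(e2 (y (some k))) + P none (y none)` (`√ ∘ e2` is a seminorm: `exists_e2_seminorm`) `≤ ∑_{K ≤ k+s} 32^K √3 64^(-k) g k (y (some k)) + P none (y none)`
(`gauge_e2`, `4096 = 64²`) `= ∑_{K ≤ k+s} √3 32^(K-k) P (some k) (y (some k)) + P none (y none)`, so by Cauchy-Schwarz its square is `≤ (∑_{K ≤ k+s} 3 · 1024^(K-k) + 1) ∑ P²`, and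
`∑_{k < K, K ≤ k+s} 1024^(K-k) ≤ ∑_{1 ≤ j ≤ s} 1024^j ≤ (1024/1023) 1024^s`, so the factor is `≤ 5 · 1024^s`.
-/

namespace Pool.Agent.Helper58.NE

open Pool.Agent.Helper25.NU

variable {U : Type} [Fintype U]

private theorem tl21_geo (K s : ℕ) :
    ∑ k ∈ Finset.range K, (if K ≤ k + s then 3 * (1024 : ℝ) ^ (K - k) else 0) + 1 ≤ 5 * 1024 ^ s := by
  have h1 : ∑ k ∈ Finset.range K, (if K ≤ k + s then 3 * (1024 : ℝ) ^ (K - k) else 0) =
      ∑ j ∈ Finset.range K, (if j + 1 ≤ s then 3 * (1024 : ℝ) ^ (j + 1) else 0) := by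
    rw [← Finset.sum_range_reflect]
    refine Finset.sum_congr rfl fun j hj => ?_
    have hj' := Finset.mem_range.1 hj
    have e1 : K - (K - 1 - j) = j + 1 := by omega
    have e2 : (K ≤ K - 1 - j + s) ↔ (j + 1 ≤ s) := by omega
    rw [e1]
    by_cases h : j + 1 ≤ s
    · rw [if_pos h, if_pos (e2.2 h)]
    · rw [if_neg h, if_neg (fun h' => h (e2.1 h'))]
  have h2 : ∑ j ∈ Finset.range K, (if j + 1 ≤ s then 3 * (1024 : ℝ) ^ (j + 1) else 0) ≤
      ∑ j ∈ Finset.range s, 3 * (1024 : ℝ) ^ (j + 1) := by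
    rw [← Finset.sum_filter]
    refine Finset.sum_le_sum_of_subset_of_nonneg (fun j hj => ?_) (fun j _ _ => by positivity)
    have := (Finset.mem_filter.1 hj).2
    exact Finset.mem_range.2 (by omega)
  have h3 : ∀ s : ℕ, ∑ j ∈ Finset.range s, 3 * (1024 : ℝ) ^ (j + 1) + 1 ≤ 5 * 1024 ^ s - 4 := by
    intro s
    induction s with
    | zero => norm_num
    | succ s ih =>
      rw [Finset.sum_range_succ]
      have h5 : (1024 : ℝ) ^ (s + 1) = 1024 * 1024 ^ s := by ring
      have h6 : (1 : ℝ) ≤ 1024 ^ s := one_le_pow₀ (by norm_num)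
      linarith
  rw [h1]
  linarith [h3 s]

theorem tail_label {H : U → U → ℝ} {K : ℕ} (hP : Pos H K) {g P N} (hS : IsSys H K g P N) (s : ℕ)
    (y : Option (Fin K) → (U → ℝ)) :
    (32 ^ K) ^ 2 * e2 (∑ k : Fin K, (if K ≤ k + s then y (some k) else 0) + y none) ≤
      5 * 1024 ^ s * ∑ i, P i (y i) ^ 2 := by
  obtain ⟨q, hq⟩ := exists_e2_seminorm (U := U)
  obtain ⟨c, hc⟩ : ∃ c : Fin K → ℝ, c = fun k : Fin K =>
      if K ≤ (k : ℕ) + s then √3 * 32 ^ (K - (k : ℕ)) else 0 := ⟨_, rfl⟩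
  have hc0 : ∀ k, 0 ≤ c k := by
    intro k
    rw [hc]
    dsimp only
    split_ifs <;> positivity
  have hP0 : ∀ i x, 0 ≤ P i x := fun i x => apply_nonneg _ _
  -- one term
  have h1 : ∀ k : Fin K, 32 ^ K * q (if K ≤ (k : ℕ) + s then y (some k) else 0) ≤
      c k * P (some k) (y (some k)) := by
    intro k
    have hck : c k = if K ≤ (k : ℕ) + s then √3 * 32 ^ (K - (k : ℕ)) else 0 := by rw [hc]
    by_cases h : K ≤ (k : ℕ) + s
    · rw [if_pos h, hck, if_pos h, hq, hS.some]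
      have h2 := gauge_e2 hP k.2.le (hS.gauge k) (y (some k))
      have hg0 : 0 ≤ g k (y (some k)) := apply_nonneg _ _
      have h3 : √(e2 (y (some k))) ≤ √3 / 64 ^ (k : ℕ) * g k (y (some k)) := by
        rw [Real.sqrt_le_iff]
        refine ⟨by positivity, h2.trans (le_of_eq ?_)⟩
        rw [mul_pow, div_pow, Real.sq_sqrt (by norm_num), ← pow_mul, mul_comm (k : ℕ) 2, pow_mul]
        norm_num
      have h4 : (32 : ℝ) ^ K = 32 ^ (K - (k : ℕ)) * 32 ^ (k : ℕ) := by
        rw [← pow_add]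
        congr 1
        have := k.2
        omega
      have h5 : (64 : ℝ) ^ (k : ℕ) = 32 ^ (k : ℕ) * 2 ^ (k : ℕ) := by
        rw [← mul_pow]
        norm_num
      calc (32 : ℝ) ^ K * √(e2 (y (some k))) ≤ 32 ^ K * (√3 / 64 ^ (k : ℕ) * g k (y (some k))) :=
            mul_le_mul_of_nonneg_left h3 (by positivity)
        _ = √3 * 32 ^ (K - (k : ℕ)) * ((2 ^ (k : ℕ))⁻¹ * g k (y (some k))) := by
            rw [h4, h5]
            field_simp
    · rw [if_neg h, hck, if_neg h, map_zero]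
      simp
  have h2 : 32 ^ K * q (∑ k : Fin K, (if K ≤ (k : ℕ) + s then y (some k) else 0) + y none) ≤
      ∑ k : Fin K, c k * P (some k) (y (some k)) + P none (y none) := by
    have h3 := map_add_le_add q (∑ k : Fin K, (if K ≤ (k : ℕ) + s then y (some k) else 0)) (y none)
    have h4 : q (∑ k : Fin K, (if K ≤ (k : ℕ) + s then y (some k) else 0)) ≤
        ∑ k : Fin K, q (if K ≤ (k : ℕ) + s then y (some k) else 0)  :=
      Finset.le_sum_of_subadditive q (map_zero q).le (map_add_le_add q) _ _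
    have h5 : ∑ k : Fin K, 32 ^ K * q (if K ≤ (k : ℕ) + s then y (some k) else 0) ≤
        ∑ k : Fin K, c k * P (some k) (y (some k)) := Finset.sum_le_sum fun k _ => h1 k
    rw [← Finset.mul_sum] at h5
    have h6 : P none (y none) = 32 ^ K * q (y none) := by rw [hS.none, hq]
    rw [h6]
    have h7 : (32 : ℝ) ^ K * q (∑ k : Fin K, (if K ≤ (k : ℕ) + s then y (some k) else 0) + y none) ≤
        32 ^ K * (∑ k : Fin K, q (if K ≤ (k : ℕ) + s then y (some k) else 0) + q (y none)) :=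
      mul_le_mul_of_nonneg_left (by linarith) (by positivity)
    rw [mul_add] at h7
    linarith
  -- Cauchy-Schwarz
  have h3 : (∑ k : Fin K, c k * P (some k) (y (some k)) + P none (y none)) ^ 2 ≤
      (∑ k : Fin K, c k ^ 2 + 1) * ∑ i, P i (y i) ^ 2 := by
    have h4 := Finset.sum_mul_sq_le_sq_mul_sq (Finset.univ : Finset (Option (Fin K)))
      (fun i => i.elim 1 c) (fun i => P i (y i))
    rw [Fintype.sum_option, Fintype.sum_option] at h4
    simp only [Option.elim_none, Option.elim_some, one_mul, one_pow] at h4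
    rw [add_comm (∑ k : Fin K, c k * P (some k) (y (some k))), add_comm (∑ k : Fin K, c k ^ 2)]
    exact h4
  have h4 : ∑ k : Fin K, c k ^ 2 + 1 ≤ 5 * 1024 ^ s := by
    refine le_trans (le_of_eq ?_) (tl21_geo K s)
    rw [← Fin.sum_univ_eq_sum_range (fun k => if K ≤ k + s then 3 * (1024 : ℝ) ^ (K - k) else 0) K]
    congr 1
    refine Finset.sum_congr rfl fun k _ => ?_
    rw [hc]
    dsimp only
    split_ifs
    · rw [mul_pow, Real.sq_sqrt (by norm_num), ← pow_mul, mul_comm (K - (k : ℕ)) 2, pow_mul]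
      norm_num
    · norm_num
  have h5 : 0 ≤ 32 ^ K * q (∑ k : Fin K, (if K ≤ (k : ℕ) + s then y (some k) else 0) + y none) := by
    positivity
  have h6 := pow_le_pow_left₀ h5 h2 2
  rw [mul_pow, hq, Real.sq_sqrt (e2_nonneg _)] at h6
  refine h6.trans (h3.trans ?_)
  exact mul_le_mul_of_nonneg_right h4 (Finset.sum_nonneg fun i _ => sq_nonneg _)

end Pool.Agent.Helper58.NE
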