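import Pool.Agent.Helper58.NE.HullRed
import Pool.Agent.Helper58.NE.Lift
import Pool.Agent.Helper58.NE.TailLab

/-!
# Project NE, block A8c: the second moment of the norm of a martingale

PROOF of `E_N_lift`. For a path `s'` let `M k = (s'.map (· (some k))).sum`, `M∞ = (s'.map (· none)).sum`; the sum of `s'.map (∑ i, · i)` is `∑ k M k + M∞`. `IsSys.le` for `z (some j) = M (j - s)` if `s ≤ j`, `0` if `j < s`, and
`z none = R = ∑_{K ≤ k + s} M k + M∞`: `N (..)² ≤ ∑_{k + s < K} (2^(-(k+s)) g (k+s) (M k))² + (32^K)² e2 R`.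
(1) `k + s < K`: `E (2^(-(k+s)) g (k+s) (M k))² ≤ 4^(-(k+s)) · 3 · 4096^s · E ∑ g k (y (some k))² = 3 · 1024^s · E ∑ P (some k) (y (some k))²` (`level_est` for the tree `T'.map (· (some k))`, `Tree.E_map`, `Tree.All_map`; its `nz` is at most that
of `T'`: `y (some k) ≠ 0` implies `y ≠ 0`).
(2) `(32^K)² E e2 R = E ∑ (32^K)² e2 (R-label) ≤ 5 · 1024^s E ∑ ∑ P²` (`E_e2` for the tree mapped by `y ↦ ∑_{K ≤ k + s} y (some k) + y none`, `tail_label`).

PROOF of `E_N_sq`. Lift (`exists_lift`) with `η`: `E_N_lift`; on each path the labels `y ≠ 0` are those with `∑ y ≠ 0`, at most `4096^s`, each with `∑ P² ≤ 1 + η`. So `E ≤ 8 · 1024^s · 4096^s (1 + η)`, take `η = 1/8`. (`1024^s · 4096^s = (2048^s)²`.)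
-/

namespace Pool.Agent.Helper58.NE

open Pool.Agent.Helper25.NU

variable {U : Type} [Fintype U]

omit [Fintype U] in
private theorem sum_fin65 {ι : Type} [Fintype ι] (s' : List (ι → (U → ℝ))) :
    (s'.map (fun y => ∑ i, y i)).sum = ∑ i, (s'.map fun y => y i).sum := by
  induction s' with
  | nil => simp
  | cons a l ih => simp only [List.map_cons, List.sum_cons, ih, Finset.sum_add_distrib]

omit [Fintype U] in
private theorem sum_rho65 {K : ℕ} (s : ℕ) (s' : List (Option (Fin K) → (U → ℝ))) :
    (s'.map (fun y : Option (Fin K) → (U → ℝ) =>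
      ∑ k : Fin K, (if K ≤ k + s then y (some k) else 0) + y none)).sum =
      ∑ k : Fin K, (if K ≤ k + s then (s'.map fun y => y (some k)).sum else 0) +
        (s'.map fun y => y none).sum := by
  induction s' with
  | nil => simp
  | cons a l ih =>
    simp only [List.map_cons, List.sum_cons, ih]
    have h1 : ∀ k : Fin K, (if K ≤ k + s then (a (some k) + (l.map fun y => y (some k)).sum) else 0) =
        (if K ≤ k + s then a (some k) else 0) +
          (if K ≤ k + s then (l.map fun y => y (some k)).sum else 0) := by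
      intro k
      split_ifs <;> simp
    simp only [h1, Finset.sum_add_distrib]
    abel

private theorem shift65 {K : ℕ} (s : ℕ) {M : Type} [AddCommMonoid M] (S : Fin K → M) :
    ∑ j : Fin K, ∑ k : Fin K, (if (k : ℕ) + s = j then S k else 0) =
      ∑ k : Fin K, (if (k : ℕ) + s < K then S k else 0) := by
  rw [Finset.sum_comm]
  refine Finset.sum_congr rfl fun k _ => ?_
  by_cases h : (k : ℕ) + s < K
  · rw [if_pos h, Finset.sum_eq_single (⟨k + s, h⟩ : Fin K)]
    · simp
    · intro j _ hj
      rw [if_neg]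
      intro h1
      exact hj (Fin.ext h1.symm)
    · simp
  · rw [if_neg h]
    refine Finset.sum_eq_zero fun j _ => ?_
    rw [if_neg]
    have := j.isLt
    omega

private theorem det65 {H : U → U → ℝ} {K : ℕ} {g P N} (hS : IsSys H K g P N) (s : ℕ)
    (s' : List (Option (Fin K) → (U → ℝ))) :
    N (s'.map (fun y => ∑ i, y i)).sum ^ 2 ≤
      ∑ k : Fin K, (if (k : ℕ) + s < K then
        (4 ^ ((k : ℕ) + s))⁻¹ * g (k + s) ((s'.map fun y => y (some k)).sum) ^ 2 else 0) +
      (32 ^ K) ^ 2 * e2 (s'.map (fun y : Option (Fin K) → (U → ℝ) =>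
        ∑ k : Fin K, (if K ≤ k + s then y (some k) else 0) + y none)).sum := by
  classical
  set S : Fin K → (U → ℝ) := fun k => (s'.map fun y => y (some k)).sum with hSd
  set z : Option (Fin K) → (U → ℝ) := fun i => match i with
    | some j => ∑ k : Fin K, (if (k : ℕ) + s = j then S k else 0)
    | none => ∑ k : Fin K, (if K ≤ k + s then S k else 0) + (s'.map fun y => y none).sum with hz
  have h1 : ∑ i, z i = (s'.map (fun y => ∑ i, y i)).sum := by
    rw [sum_fin65, Fintype.sum_option, Fintype.sum_option]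
    have h2 : ∑ j : Fin K, z (some j) = ∑ k : Fin K, (if (k : ℕ) + s < K then S k else 0) :=
      shift65 s S
    rw [h2]
    have h3 : z none = ∑ k : Fin K, (if K ≤ k + s then S k else 0) +
      (s'.map fun y => y none).sum := rfl
    rw [h3]
    have h4 : ∀ k : Fin K, S k = (if K ≤ k + s then S k else 0) +
        (if (k : ℕ) + s < K then S k else 0) := by
      intro k
      by_cases h : (k : ℕ) + s < K
      · rw [if_neg (by omega), if_pos h, zero_add]
      · rw [if_pos (by omega), if_neg h, add_zero]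
    have h5 : ∑ k : Fin K, (s'.map fun y => y (some k)).sum = ∑ k : Fin K, S k := rfl
    rw [h5, Finset.sum_congr rfl fun k _ => h4 k, Finset.sum_add_distrib]
    abel
  rw [← h1]
  refine (hS.le z).trans ?_
  rw [Fintype.sum_option, add_comm]
  refine add_le_add ?_ ?_
  · have h2 : ∀ j : Fin K, P (some j) (z (some j)) ^ 2 =
        ∑ k : Fin K, (if (k : ℕ) + s = j then
          (4 ^ ((k : ℕ) + s))⁻¹ * g (k + s) (S k) ^ 2 else 0) := by
      intro j
      have hzj : z (some j) = ∑ k : Fin K, (if (k : ℕ) + s = j then S k else 0) := rfl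
      by_cases h : s ≤ j
      · have hk : (j : ℕ) - s < K := by have := j.isLt; omega
        have e1 : z (some j) = S ⟨j - s, hk⟩ := by
          rw [hzj, Finset.sum_eq_single (⟨j - s, hk⟩ : Fin K)]
          · rw [if_pos]
            show (j : ℕ) - s + s = j
            omega
          · intro k _ hne
            rw [if_neg]
            intro h3
            apply hne
            apply Fin.ext
            show (k : ℕ) = j - s
            omega
          · simp
        rw [e1, Finset.sum_eq_single (⟨j - s, hk⟩ : Fin K)]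
        · have e2' : ((⟨j - s, hk⟩ : Fin K) : ℕ) + s = j := by
            show (j : ℕ) - s + s = j
            omega
          rw [if_pos e2', e2', hS.some, mul_pow]
          congr 1
          rw [← inv_pow, ← inv_pow, ← pow_mul, mul_comm (j : ℕ) 2, pow_mul]
          norm_num
        · intro k _ hne
          rw [if_neg]
          intro h3
          apply hne
          apply Fin.ext
          show (k : ℕ) = j - s
          omega
        · simp
      · have e1 : z (some j) = 0 := by
          rw [hzj]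
          refine Finset.sum_eq_zero fun k _ => ?_
          rw [if_neg]
          omega
        rw [e1, map_zero]
        symm
        rw [zero_pow two_ne_zero]
        refine Finset.sum_eq_zero fun k _ => ?_
        rw [if_neg]
        omega
    rw [Finset.sum_congr rfl fun j _ => h2 j,
      shift65 s (fun k : Fin K => (4 ^ ((k : ℕ) + s))⁻¹ * g (k + s) (S k) ^ 2)]
  · have h3 : z none = (s'.map (fun y : Option (Fin K) → (U → ℝ) =>
        ∑ k : Fin K, (if K ≤ k + s then y (some k) else 0) + y none)).sum := (sum_rho65 s s').symm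
    rw [h3, hS.none, mul_pow, Real.sq_sqrt (e2_nonneg _)]

private theorem lev65 {H : U → U → ℝ} {K : ℕ} (hP : Pos H K) {g P N} (hS : IsSys H K g P N)
    (s : ℕ) (T : Tr (Option (Fin K) → (U → ℝ))) (hT : T.All (fun s' => nz s' ≤ 4096 ^ s))
    (k : Fin K) (hk : (k : ℕ) + s < K) :
    T.E (fun s' => (4 ^ ((k : ℕ) + s))⁻¹ * g (k + s) ((s'.map fun y => y (some k)).sum) ^ 2) ≤
      3 * 1024 ^ s * T.E (fun s' => (s'.map fun y => P (some k) (y (some k)) ^ 2).sum) := by
  classical
  have hneg : ∀ y : Option (Fin K) → (U → ℝ), (-y) (some k) = -y (some k) := fun y => rfl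
  have hnz : ∀ l : List (Option (Fin K) → (U → ℝ)), nz (l.map fun y => y (some k)) ≤ nz l := by
    intro l
    unfold nz
    rw [List.map_map]
    refine sum_map_le_of_le fun y _ => ?_
    simp only [Function.comp]
    by_cases hy : y = 0
    · simp [hy]
    · rw [if_neg hy]
      split_ifs <;> norm_num
  have h1 := level_est hP hk.le (hS.gauge k) (hS.gauge (k + s)) (T.map fun y => y (some k))
    ((Tree.All_map hneg T _).2 (Tree.All_mono hT fun l hl => (hnz l).trans hl))
  rw [Tree.E_map hneg, Tree.E_map hneg] at h1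
  rw [Tree.E_mul]
  have h2 := mul_le_mul_of_nonneg_left h1 (show (0 : ℝ) ≤ (4 ^ ((k : ℕ) + s))⁻¹ by positivity)
  refine h2.trans (le_of_eq ?_)
  have h3 : (fun s' : List (Option (Fin K) → (U → ℝ)) =>
      (s'.map fun y => P (some k) (y (some k)) ^ 2).sum) =
      fun s' => (4 ^ (k : ℕ))⁻¹ * ((s'.map fun y => y (some k)).map fun v => g k v ^ 2).sum := by
    funext l
    rw [List.map_map, ← List.sum_map_mul_left]
    congr 1
    refine List.map_congr_left fun y _ => ?_
    show P (some k) (y (some k)) ^ 2 = (4 ^ (k : ℕ))⁻¹ * g k (y (some k)) ^ 2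
    rw [hS.some, mul_pow]
    congr 1
    rw [← inv_pow, ← inv_pow, ← pow_mul, mul_comm (k : ℕ) 2, pow_mul]
    norm_num
  rw [h3, Tree.E_mul]
  have h4 : (4096 : ℝ) ^ s = 4 ^ s * 1024 ^ s := by
    rw [← mul_pow]; norm_num
  rw [h4, pow_add]
  have h5 : (0 : ℝ) < 4 ^ s := by positivity
  have h6 : (0 : ℝ) < 4 ^ (k : ℕ) := by positivity
  field_simp

theorem E_N_lift {H : U → U → ℝ} {K : ℕ} (hP : Pos H K) {g P N} (hS : IsSys H K g P N) (s : ℕ)
    (T : Tr (Option (Fin K) → (U → ℝ))) (hT : T.All (fun s' => nz s' ≤ 4096 ^ s)) :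
    T.E (fun s' => N (s'.map (fun y => ∑ i, y i)).sum ^ 2) ≤
      8 * 1024 ^ s * T.E (fun s' => (s'.map fun y => ∑ i, P i (y i) ^ 2).sum) := by
  classical
  refine (Tree.E_mono (Tree.All_of_forall T fun s' => det65 hS s s')).trans ?_
  rw [Tree.E_add, Tree.E_sum]
  set Q : ℝ := T.E (fun s' => (s'.map fun y => ∑ i, P i (y i) ^ 2).sum) with hQ
  have h1 : ∑ k : Fin K, T.E (fun s' => if (k : ℕ) + s < K then
        (4 ^ ((k : ℕ) + s))⁻¹ * g (k + s) ((s'.map fun y => y (some k)).sum) ^ 2 else 0) ≤
      3 * 1024 ^ s * Q := by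
    have h2 : ∀ k : Fin K, T.E (fun s' => if (k : ℕ) + s < K then
        (4 ^ ((k : ℕ) + s))⁻¹ * g (k + s) ((s'.map fun y => y (some k)).sum) ^ 2 else 0) ≤
        3 * 1024 ^ s * T.E (fun s' => (s'.map fun y => P (some k) (y (some k)) ^ 2).sum) := by
      intro k
      by_cases h : (k : ℕ) + s < K
      · simp only [if_pos h]
        exact lev65 hP hS s T hT k h
      · simp only [if_neg h]
        rw [Tree.E_const]
        refine mul_nonneg (by positivity) (Tree.E_nonneg (Tree.All_of_forall T fun l => ?_))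
        exact List.sum_nonneg fun x hx => by
          obtain ⟨y, -, rfl⟩ := List.mem_map.1 hx
          positivity
    refine (Finset.sum_le_sum fun k _ => h2 k).trans ?_
    rw [← Finset.mul_sum, ← Tree.E_sum]
    refine mul_le_mul_of_nonneg_left ?_ (by positivity)
    rw [hQ]
    refine Tree.E_mono (Tree.All_of_forall T fun l => ?_)
    have h3 : ∑ k : Fin K, (l.map fun y => P (some k) (y (some k)) ^ 2).sum =
        (l.map fun y => ∑ k : Fin K, P (some k) (y (some k)) ^ 2).sum := by
      induction l with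
      | nil => simp
      | cons a l ih => simp only [List.map_cons, List.sum_cons, Finset.sum_add_distrib, ih]
    rw [h3]
    refine sum_map_le_of_le fun y _ => ?_
    rw [Fintype.sum_option]
    have := sq_nonneg (P none (y none))
    linarith
  have h2 : T.E (fun s' => (32 ^ K) ^ 2 * e2 (s'.map (fun y : Option (Fin K) → (U → ℝ) =>
        ∑ k : Fin K, (if K ≤ k + s then y (some k) else 0) + y none)).sum) ≤
      5 * 1024 ^ s * Q := by
    set ρ : (Option (Fin K) → (U → ℝ)) → (U → ℝ) := fun y =>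
      ∑ k : Fin K, (if K ≤ k + s then y (some k) else 0) + y none with hρ
    have hneg : ∀ y, ρ (-y) = -ρ y := by
      intro y
      simp only [hρ, Pi.neg_apply]
      have h3 : ∀ k : Fin K, (if K ≤ k + s then -y (some k) else 0) =
          -(if K ≤ k + s then y (some k) else 0) := by
        intro k
        split_ifs <;> simp
      simp only [h3, Finset.sum_neg_distrib]
      abel
    have h3 := E_e2 (T.map ρ)
    rw [Tree.E_map hneg, Tree.E_map hneg] at h3
    rw [Tree.E_mul, h3, ← Tree.E_mul, hQ, ← Tree.E_mul]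
    refine Tree.E_mono (Tree.All_of_forall T fun l => ?_)
    rw [List.map_map, ← List.sum_map_mul_left, ← List.sum_map_mul_left]
    exact sum_map_le_of_le fun y _ => tail_label hP hS s y
  linarith

private theorem nz_le_nz_map52 {V W : Type} [Zero V] [Zero W] (g : V → W) (s : List V)
    (h : ∀ v ∈ s, g v = 0 → v = 0) : nz s ≤ nz (s.map g) := by
  classical
  unfold nz
  induction s with
  | nil => simp
  | cons v s ih =>
    simp only [List.map_cons, List.sum_cons]
    refine add_le_add ?_ (ih fun w hw => h w (List.mem_cons_of_mem _ hw))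
    by_cases hv : g v = 0
    · rw [if_pos hv, if_pos (h v List.mem_cons_self hv)]
    · rw [if_neg hv]
      split_ifs <;> norm_num

theorem E_N_sq {H : U → U → ℝ} {K : ℕ} (hP : Pos H K) {g P N} (hS : IsSys H K g P N) (s : ℕ)
    (T : Tr (U → ℝ)) (hT : T.All (fun s' => (∀ v ∈ s', N v ≤ 1) ∧ nz s' ≤ 4096 ^ s)) :
    T.E (fun s' => N s'.sum ^ 2) ≤ 9 * (2048 ^ s) ^ 2 := by
  obtain ⟨T', hT', hA⟩ := exists_lift hS.ge T (η := 1 / 8) (by norm_num)
  have hodd : ∀ y : Option (Fin K) → (U → ℝ), ∑ i, (-y) i = -∑ i, y i := by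
    intro y
    simp
  have hT2 : T'.All (fun s' => (∀ v ∈ s'.map (fun y => ∑ i, y i), N v ≤ 1) ∧
      nz (s'.map (fun y => ∑ i, y i)) ≤ 4096 ^ s) := by
    have h1 := (Tree.All_map (g := fun y : Option (Fin K) → (U → ℝ) => ∑ i, y i) hodd T'
      (fun s' => (∀ v ∈ s', N v ≤ 1) ∧ nz s' ≤ 4096 ^ s)).1
    rw [hT'] at h1
    exact h1 hT
  have hB := Tree.All_and hA hT2
  have hnz : T'.All (fun s' => nz s' ≤ 4096 ^ s) := by
    refine Tree.All_mono hB fun s' hs' => ?_
    exact (nz_le_nz_map52 _ s' fun y hy => (hs'.1 y hy).2).trans hs'.2.2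
  have hC : T'.All (fun s' => (s'.map fun y => ∑ i, P i (y i) ^ 2).sum ≤ 9 / 8 * 4096 ^ s) := by
    refine Tree.All_mono (Tree.All_and hB hnz) fun s' hs' => ?_
    have h1 : (s'.map fun y => ∑ i, P i (y i) ^ 2).sum ≤ 9 / 8 * nz s' := by
      refine sum_map_le_nz ?_ fun y hy => ?_
      · simp
      · have h2 := (hs'.1.1 y hy).1
        have h3 : N (∑ i, y i) ≤ 1 := hs'.1.2.1 _ (List.mem_map.2 ⟨y, hy, rfl⟩)
        have h4 : 0 ≤ N (∑ i, y i) := apply_nonneg N _
        nlinarith
    have h2 := hs'.2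
    linarith
  have hD := E_N_lift hP hS s T' hnz
  have hE : T.E (fun s' => N s'.sum ^ 2) =
      T'.E (fun s' => N (s'.map (fun y => ∑ i, y i)).sum ^ 2) := by
    conv_lhs => rw [← hT']
    exact Tree.E_map hodd T' (fun s' => N s'.sum ^ 2)
  rw [hE]
  have hF := Tree.E_le_const hC
  have hG : (1024 : ℝ) ^ s * 4096 ^ s = (2048 ^ s) ^ 2 := by
    rw [← mul_pow, ← pow_mul, mul_comm s 2, pow_mul]
    norm_num
  have hH : (0 : ℝ) ≤ 8 * 1024 ^ s := by positivity
  calc T'.E (fun s' => N (s'.map (fun y => ∑ i, y i)).sum ^ 2)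
      ≤ 8 * 1024 ^ s * T'.E (fun s' => (s'.map fun y => ∑ i, P i (y i) ^ 2).sum) := hD
    _ ≤ 8 * 1024 ^ s * (9 / 8 * 4096 ^ s) := mul_le_mul_of_nonneg_left hF hH
    _ = 9 * ((1024 : ℝ) ^ s * 4096 ^ s) := by ring
    _ = 9 * (2048 ^ s) ^ 2 := by rw [hG]

end Pool.Agent.Helper58.NE
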