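import Pool.Agent.Helper58.NE.RGraph
import Pool.Agent.Helper58.NE.Core
import Pool.Agent.Helper58.NE.Cheeger

/-!
# Project NE, block D7: bounded degree expanders of large girth (assembly)
-/

namespace Pool.Agent.Helper58.NE

/-- Bounded degree expanders of large girth. -/
theorem exists_expander (W n₀ : ℕ) : ∃ (n : ℕ) (G : SimpleGraph (Fin n)), n₀ ≤ n ∧ 0 < n ∧
    G.Connected ∧ DegLe G 133120 ∧ NoShort G W ∧ Poinc 266240 G := by
  obtain ⟨n, G, hn0, hn, hD, hW, hE⟩ := exists_graph W (2 * n₀ + 2)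
  obtain ⟨n', G', hn', hD', hW', hE'⟩ := exists_core hn G hD hW hE
  have hpos : 0 < n' := by omega
  refine ⟨n', G', by omega, hpos, connected_of_cut hpos G' hE', hD', hW', ?_⟩
  have h := poinc_of_cut G' hD' hE'
  norm_num at h
  exact h

end Pool.Agent.Helper58.NE
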