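import Pool.Agent.Helper58.NE.Defs

/-!
# Project NE, block E2: no uniform embedding of the ball into Hilbert space (Ozawa's argument)

`poinc_hilbert`: the Poincaré inequality for functions with values in an inner product space `H`: apply the scalar one to the coordinates in an orthonormal basis of the (finite dimensional) span of the values (`stdOrthonormalBasis`), or use that a positive semidefinite
real matrix `A` satisfies `∑ A i j ⟪g i, g j⟫ ≥ 0`.

PROOF of `no_embedding`. Let `F` be a uniform embedding, `η > 0` with `‖F x - F y‖ < η → ‖x - y‖ < 1 / (2 C)` (`IsUniformInducing`), and for `θ > 0` let `δ > 0` with `‖x - y‖ < δ → ‖F x - F y‖ ≤ θ`. Take the family for `ε = δ C / 2` and `g v = F (C⁻¹ f v)`. Edges: `‖C⁻¹ (f u - f v)‖ ≤ δ / 2 < δ`, so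
`‖g u - g v‖ ≤ θ`. The pairs with `‖f u - f v‖ ≥ 1/2` have `‖C⁻¹ ..‖ ≥ 1 / (2 C)`, so `‖g u - g v‖ ≥ η`: there are at least `n²/2` of them. Hence `n² η² / 2 ≤ ∑∑ ‖g u - g v‖² ≤ γ n ∑∑_{Adj} θ² ≤ γ n · n D θ²`, i.e. `η² ≤ 2 |γ| D θ²`:
false for `θ` small.
-/

namespace Pool.Agent.Helper58.NE

open Classical in
theorem poinc_hilbert {γ : ℝ} {n : ℕ} {G : SimpleGraph (Fin n)} (h : Poinc γ G) {H : Type*}
    [NormedAddCommGroup H] [InnerProductSpace ℝ H] (g : Fin n → H) :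
    ∑ u, ∑ v, ‖g u - g v‖ ^ 2 ≤ γ * n * ∑ u, ∑ v, if G.Adj u v then ‖g u - g v‖ ^ 2 else 0 := by
  let W : Submodule ℝ H := Submodule.span ℝ (Set.range g)
  have : FiniteDimensional ℝ W := FiniteDimensional.span_of_finite ℝ (Set.finite_range g)
  let b := stdOrthonormalBasis ℝ W
  let w : Fin n → W := fun u => ⟨g u, Submodule.subset_span ⟨u, rfl⟩⟩
  have hn : ∀ u v, ‖g u - g v‖ ^ 2 = ∑ i, (inner ℝ (b i) (w u) - inner ℝ (b i) (w v)) ^ 2 := by
    intro u v
    have h1 : ‖g u - g v‖ = ‖w u - w v‖ := rfl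
    rw [h1, ← b.sum_sq_norm_inner_right (w u - w v)]
    refine Finset.sum_congr rfl fun i _ => ?_
    rw [inner_sub_right, Real.norm_eq_abs, sq_abs]
  have hi : ∀ i, ∑ u, ∑ v, (inner ℝ (b i) (w u) - inner ℝ (b i) (w v)) ^ 2 ≤
      γ * n * ∑ u, ∑ v, if G.Adj u v then
        (inner ℝ (b i) (w u) - inner ℝ (b i) (w v)) ^ 2 else 0 :=
    fun i => h (fun u => inner ℝ (b i) (w u))
  have h1 : ∑ u, ∑ v, ‖g u - g v‖ ^ 2 =
      ∑ i, ∑ u, ∑ v, (inner ℝ (b i) (w u) - inner ℝ (b i) (w v)) ^ 2 :=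
    calc ∑ u, ∑ v, ‖g u - g v‖ ^ 2
        = ∑ u, ∑ v, ∑ i, (inner ℝ (b i) (w u) - inner ℝ (b i) (w v)) ^ 2 :=
          Finset.sum_congr rfl fun u _ => Finset.sum_congr rfl fun v _ => hn u v
      _ = ∑ u, ∑ i, ∑ v, (inner ℝ (b i) (w u) - inner ℝ (b i) (w v)) ^ 2 :=
          Finset.sum_congr rfl fun u _ => Finset.sum_comm
      _ = ∑ i, ∑ u, ∑ v, (inner ℝ (b i) (w u) - inner ℝ (b i) (w v)) ^ 2 := Finset.sum_comm
  have h2 : (∑ u, ∑ v, if G.Adj u v then ‖g u - g v‖ ^ 2 else 0) =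
      ∑ i, ∑ u, ∑ v, if G.Adj u v then
        (inner ℝ (b i) (w u) - inner ℝ (b i) (w v)) ^ 2 else 0 :=
    calc (∑ u, ∑ v, if G.Adj u v then ‖g u - g v‖ ^ 2 else 0)
        = ∑ u, ∑ v, ∑ i, if G.Adj u v then
            (inner ℝ (b i) (w u) - inner ℝ (b i) (w v)) ^ 2 else 0 := by
          refine Finset.sum_congr rfl fun u _ => Finset.sum_congr rfl fun v _ => ?_
          split_ifs
          · exact hn u v
          · exact Finset.sum_const_zero.symm
      _ = ∑ u, ∑ i, ∑ v, if G.Adj u v then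
            (inner ℝ (b i) (w u) - inner ℝ (b i) (w v)) ^ 2 else 0 :=
          Finset.sum_congr rfl fun u _ => Finset.sum_comm
      _ = ∑ i, ∑ u, ∑ v, if G.Adj u v then
            (inner ℝ (b i) (w u) - inner ℝ (b i) (w v)) ^ 2 else 0 := Finset.sum_comm
  rw [h1, h2, Finset.mul_sum]
  exact Finset.sum_le_sum fun i _ => hi i

theorem no_embedding {X : Type} [NormedAddCommGroup X] [NormedSpace ℝ X] {C γ : ℝ} {D : ℕ}
    (hC : 0 < C)
    (h : ∀ ε : ℝ, 0 < ε → ∃ (n : ℕ) (G : SimpleGraph (Fin n)) (f : Fin n → X), 0 < n ∧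
      DegLe G D ∧ Poinc γ G ∧ Fam C ε G f)
    {H : Type*} [NormedAddCommGroup H] [InnerProductSpace ℝ H]
    (F : Metric.closedBall (0 : X) 1 → H) : ¬ IsUniformEmbedding F := by
  intro hF
  classical
  obtain ⟨hF1, hF2⟩ := Metric.isUniformEmbedding_iff'.1 hF
  obtain ⟨η, hη, hηF⟩ := hF2 (1 / (2 * C)) (by positivity)
  set A : ℝ := 2 * |γ| * D with hAdef
  have hA : 0 ≤ A := by positivity
  set θ : ℝ := η / (A + 1) with hθdef
  have hθ : 0 < θ := by positivity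
  obtain ⟨δ, hδ, hδF⟩ := hF1 θ hθ
  obtain ⟨n, G, f, hn, hdeg, hpo, hfam⟩ := h (δ * C / 2) (by positivity)
  have hmem : ∀ v, C⁻¹ • f v ∈ Metric.closedBall (0 : X) 1 := by
    intro v
    rw [mem_closedBall_zero_iff, norm_smul, norm_inv, Real.norm_eq_abs, abs_of_pos hC]
    rw [inv_mul_le_iff₀ hC, mul_one]
    exact hfam.bdd v
  let g : Fin n → H := fun v => F ⟨C⁻¹ • f v, hmem v⟩
  have hdist : ∀ u v, dist (⟨C⁻¹ • f u, hmem u⟩ : Metric.closedBall (0 : X) 1) ⟨C⁻¹ • f v, hmem v⟩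
      = C⁻¹ * ‖f u - f v‖ := by
    intro u v
    rw [Subtype.dist_eq, dist_eq_norm, ← smul_sub, norm_smul, norm_inv, Real.norm_eq_abs,
      abs_of_pos hC]
  have hedge : ∀ u v, G.Adj u v → ‖g u - g v‖ ≤ θ := by
    intro u v huv
    have h1 : dist (⟨C⁻¹ • f u, hmem u⟩ : Metric.closedBall (0 : X) 1) ⟨C⁻¹ • f v, hmem v⟩ < δ := by
      rw [hdist, inv_mul_lt_iff₀ hC]
      have := hfam.edge u v huv
      nlinarith [mul_pos hδ hC]
    have h2 := hδF h1
    rw [dist_eq_norm] at h2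
    exact h2.le
  have hfar : ∀ u v, ¬ ‖f u - f v‖ < 1 / 2 → η ≤ ‖g u - g v‖ := by
    intro u v huv
    by_contra hlt
    push Not at hlt
    have h1 : dist (F ⟨C⁻¹ • f u, hmem u⟩) (F ⟨C⁻¹ • f v, hmem v⟩) < η := by
      rw [dist_eq_norm]
      exact hlt
    have h2 := hηF h1
    rw [hdist, inv_mul_lt_iff₀ hC] at h2
    apply huv
    have h3 : C * (1 / (2 * C)) = 1 / 2 := by field_simp
    rwa [h3] at h2
  have hP := poinc_hilbert hpo g
  -- lower bound
  have hlow : (n : ℝ) ^ 2 / 2 * η ^ 2 ≤ ∑ u, ∑ v, ‖g u - g v‖ ^ 2 := by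
    rw [← Fintype.sum_prod_type' (fun u v => ‖g u - g v‖ ^ 2)]
    have h1 : ∑ p ∈ Finset.univ.filter (fun p : Fin n × Fin n => ¬ ‖f p.1 - f p.2‖ < 1 / 2), η ^ 2
        ≤ ∑ p : Fin n × Fin n, ‖g p.1 - g p.2‖ ^ 2 := by
      refine (Finset.sum_le_sum (fun p hp => ?_)).trans
        (Finset.sum_le_sum_of_subset_of_nonneg (Finset.filter_subset _ _) fun p _ _ => sq_nonneg _)
      exact pow_le_pow_left₀ hη.le (hfar p.1 p.2 (Finset.mem_filter.1 hp).2) 2
    refine le_trans ?_ h1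
    rw [Finset.sum_const, nsmul_eq_mul]
    have h2 := Finset.card_filter_add_card_filter_not (s := (Finset.univ : Finset (Fin n × Fin n)))
      (fun p : Fin n × Fin n => ‖f p.1 - f p.2‖ < 1 / 2)
    have h3 : (Finset.univ : Finset (Fin n × Fin n)).card = n ^ 2 := by
      rw [Finset.card_univ, Fintype.card_prod, Fintype.card_fin, sq]
    rw [h3] at h2
    have h4 := hfam.far
    have h5 : n ^ 2 ≤ 2 * (Finset.univ.filter (fun p : Fin n × Fin n => ¬ ‖f p.1 - f p.2‖ < 1 / 2)).card := by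
      omega
    have h6 : ((n : ℝ)) ^ 2 ≤ 2 * ((Finset.univ.filter (fun p : Fin n × Fin n => ¬ ‖f p.1 - f p.2‖ < 1 / 2)).card : ℝ) := by
      exact_mod_cast h5
    have h7 : (0 : ℝ) ≤ η ^ 2 := sq_nonneg _
    nlinarith
  have hup1 : ∑ u, ∑ v, (if G.Adj u v then ‖g u - g v‖ ^ 2 else 0) ≤ n * (D * θ ^ 2) := by
    have h1 : ∀ u ∈ (Finset.univ : Finset (Fin n)),
        ∑ v, (if G.Adj u v then ‖g u - g v‖ ^ 2 else 0) ≤ D * θ ^ 2 := by
      intro u _
      rw [← Finset.sum_filter]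
      have h2 : ∑ v ∈ Finset.univ.filter (fun v => G.Adj u v), ‖g u - g v‖ ^ 2 ≤
          ∑ v ∈ Finset.univ.filter (fun v => G.Adj u v), θ ^ 2 := by
        refine Finset.sum_le_sum fun v hv => ?_
        exact pow_le_pow_left₀ (norm_nonneg _) (hedge u v (Finset.mem_filter.1 hv).2) 2
      refine h2.trans ?_
      rw [Finset.sum_const, nsmul_eq_mul]
      have h3 : (Finset.univ.filter (fun v => G.Adj u v)).card ≤ D := by
        have h4 := hdeg u
        rw [← Set.ncard_coe_finset]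
        refine le_of_eq_of_le ?_ h4
        congr 1
        ext v
        simp
      have h5 : ((Finset.univ.filter (fun v => G.Adj u v)).card : ℝ) ≤ D := by exact_mod_cast h3
      exact mul_le_mul_of_nonneg_right h5 (sq_nonneg _)
    refine (Finset.sum_le_sum h1).trans ?_
    rw [Finset.sum_const, Finset.card_univ, Fintype.card_fin, nsmul_eq_mul]
  have hup0 : 0 ≤ ∑ u, ∑ v, (if G.Adj u v then ‖g u - g v‖ ^ 2 else 0) :=
    Finset.sum_nonneg fun u _ => Finset.sum_nonneg fun v _ => by split_ifs <;> positivity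
  have hn' : (0 : ℝ) < n := by exact_mod_cast hn
  have hmain : (n : ℝ) ^ 2 / 2 * η ^ 2 ≤ |γ| * n * (n * (D * θ ^ 2)) := by
    refine hlow.trans (hP.trans ?_)
    refine (mul_le_mul_of_nonneg_right (mul_le_mul_of_nonneg_right (le_abs_self γ) hn'.le) hup0).trans ?_
    exact mul_le_mul_of_nonneg_left hup1 (by positivity)
  have h1 : η ^ 2 ≤ A * θ ^ 2 := by
    have h2 : (n : ℝ) ^ 2 / 2 * η ^ 2 ≤ (n : ℝ) ^ 2 / 2 * (A * θ ^ 2) := by
      rw [hAdef]
      calc (n : ℝ) ^ 2 / 2 * η ^ 2 ≤ |γ| * n * (n * (D * θ ^ 2)) := hmain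
        _ = (n : ℝ) ^ 2 / 2 * (2 * |γ| * D * θ ^ 2) := by ring
    exact le_of_mul_le_mul_left h2 (by positivity)
  have h3 : η = θ * (A + 1) := by
    rw [hθdef]
    field_simp
  rw [h3] at h1
  nlinarith [mul_pos hθ hθ, mul_nonneg hA (mul_pos hθ hθ).le]

end Pool.Agent.Helper58.NE
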