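import Pool.Agent.Helper58.NE.MainSpace
import Pool.Agent.Helper58.NE.NoEmb

/-!
# Project NE, block E3: assembly
-/

namespace Pool.Agent.Helper58.NE

theorem final : ¬ (∀ (X : Type) [NormedAddCommGroup X] [NormedSpace ℝ X] [CompleteSpace X],
      (∃ N : X → ℝ, ∃ c C : ℝ, 0 < c ∧ 0 < C ∧
        (∀ x : X, c * ‖x‖ ≤ N x ∧ N x ≤ C * ‖x‖) ∧
        (∀ x y : X, N (x + y) ≤ N x + N y) ∧
        (∀ (a : ℝ) (x : X), N (a • x) = |a| * N x) ∧
        (∀ ε : ℝ, 0 < ε → ∃ δ : ℝ, 0 < δ ∧ ∀ x y : X,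
          N x ≤ 1 → N y ≤ 1 → ε ≤ N (x - y) → N (x + y) ≤ 2 - 2 * δ)) →
      ∃ (H : Type) (_ : NormedAddCommGroup H) (_ : InnerProductSpace ℝ H)
        (_ : CompleteSpace H) (f : Metric.closedBall (0 : X) 1 → H),
        IsUniformEmbedding f) := by
  intro h
  obtain ⟨X, i1, i2, i3, huc, C, hC, hfam⟩ := main_space
  obtain ⟨H, j1, j2, j3, f, hf⟩ := h X ⟨fun x => ‖x‖, 1, 1, one_pos, one_pos, fun x => by simp,
    norm_add_le, fun a x => by simp [norm_smul], fun ε hε => by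
      obtain ⟨δ, hδ, h1⟩ := exists_forall_closed_ball_dist_add_le_two_sub X hε
      exact ⟨δ / 2, by positivity, fun x y hx hy hxy => by
        have := h1 hx hy hxy
        linarith⟩⟩
  refine no_embedding (C := C) (γ := 266240) (D := 133120) hC (fun ε hε => ?_) f hf
  obtain ⟨n, G, g, -, hn, -, hD, hP, hF⟩ := hfam ε hε 0
  exact ⟨n, G, g, hn, hD, hP, hF⟩

end Pool.Agent.Helper58.NE
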