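import Pool.Agent.Helper58.NE.Orth

/-!
# Project NE, block C1: the kernel `s ^ dist` of a forest is positive semi-definite

PROOF of `forest_psd` (`0 ≤ s ≤ 1`). Induction on the number of edges of `F`. No edges: `fk F s u v = 1[u = v]`, `qf = e2 ≥ 0`. Otherwise let `u v` be an edge and
`F' = F.deleteEdges {s(u, v)}` (acyclic, fewer edges); as `F` is acyclic, `u v` is a bridge: `¬ F'.Reachable u v`. Let `a = fk F' s · u`, `b = fk F' s · v`. Then
`fk F s x y = fk F' s x y + s (a x b y + b x a y)`: if `x`, `y` are connected in `F'` the distance does not change (a path from `x` to `y` in `F` which uses the bridge cannot come back: paths in a forest are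
unique) and one of `a x`, `b y` and one of `b x`, `a y` vanishes; if `x ~ u`, `v ~ y` in `F'` then `F.dist x y = F'.dist x u + 1 + F'.dist v y`; otherwise all vanish.
So `qf (fk F s) x = Q(x) + 2 s (∑ a x) (∑ b x)` with `Q = qf (fk F' s)`, and by Bessel's inequality `(∑ a x)² + (∑ b x)² ≤ Q(x)`: apply `Q ≥ 0` to `x - A e_u - B e_v`, where `A = ∑ a x`, `B = ∑ b x`, `Q(e_u) = Q(e_v) = 1`,
`Q(e_u, e_v) = 0`. Hence `qf ≥ A² + B² - 2 s |A B| ≥ 0`.
`forest_cs`: `qf ≥ 0` at `x - A e_z`, `A = ∑ fk F s z y * x y`.
(Any other proof is fine, for example with independent random signs on the edges.)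
-/

namespace Pool.Agent.Helper58.NE

open Pool.Agent.Helper25.NU

open Classical in
private theorem reach_psd {V : Type} [Fintype V] (G : SimpleGraph V) (x : V → ℝ) :
    0 ≤ ∑ u, ∑ v, (if G.Reachable u v then (1 : ℝ) else 0) * (x u * x v) := by
  have h : ∑ u, ∑ v, (if G.Reachable u v then (1 : ℝ) else 0) * (x u * x v)
      = ∑ C : G.ConnectedComponent, (∑ u, if G.connectedComponentMk u = C then x u else 0) ^ 2 := by
    have h1 : ∀ C : G.ConnectedComponent, (∑ u, if G.connectedComponentMk u = C then x u else 0) ^ 2
        = ∑ u, ∑ v, (if G.connectedComponentMk u = C then x u else 0)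
          * (if G.connectedComponentMk v = C then x v else 0) := by
      intro C
      rw [sq, Finset.sum_mul_sum]
    simp only [h1]
    symm
    rw [Finset.sum_comm]
    apply Finset.sum_congr rfl
    intro u _
    rw [Finset.sum_comm]
    apply Finset.sum_congr rfl
    intro v _
    rw [Finset.sum_eq_single (G.connectedComponentMk u)]
    · rw [if_pos rfl]
      by_cases h : G.Reachable u v
      · rw [if_pos h, if_pos (SimpleGraph.ConnectedComponent.eq.2 h.symm), one_mul]
      · rw [if_neg h, if_neg (fun h' => h (SimpleGraph.ConnectedComponent.eq.1 h').symm)]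
        ring
    · intro C _ hC
      rw [if_neg (fun h => hC h.symm), zero_mul]
    · intro h
      exact absurd (Finset.mem_univ _) h
  rw [h]
  exact Finset.sum_nonneg fun _ _ => sq_nonneg _

open Classical in
private theorem perc {V : Type} [Fintype V] (F : SimpleGraph V) (hF : F.IsAcyclic) (s : ℝ) (u v : V) :
    fk F s u v = ∑ S ∈ F.edgeFinset.powerset, ((∏ _e ∈ S, (1 - s)) * ∏ _e ∈ F.edgeFinset \ S, s)
      * (if (F.deleteEdges (S : Set (Sym2 V))).Reachable u v then (1 : ℝ) else 0) := by
  by_cases h : F.Reachable u v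
  · obtain ⟨p, hp⟩ := h.exists_isPath
    have hlen : F.dist u v = p.length := by
      obtain ⟨q, hq, hq'⟩ := h.exists_path_of_dist
      have : q = p := by
        have := hF.path_unique ⟨q, hq⟩ ⟨p, hp⟩
        exact congrArg Subtype.val this
      rw [← hq', this]
    have hreach : ∀ S : Finset (Sym2 V), (F.deleteEdges (S : Set (Sym2 V))).Reachable u v
        ↔ ∀ e ∈ S, e ∉ p.edges := by
      intro S
      constructor
      · intro hr e he hep
        obtain ⟨q, hq⟩ := hr.exists_isPath
        have hle : F.deleteEdges (S : Set (Sym2 V)) ≤ F := SimpleGraph.deleteEdges_le _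
        have h2 : (q.mapLe hle).IsPath := hq.mapLe hle
        have h3 : q.mapLe hle = p := by
          have := hF.path_unique ⟨_, h2⟩ ⟨p, hp⟩
          exact congrArg Subtype.val this
        rw [← h3] at hep
        have h4 : e ∈ q.edges := by
          simpa using hep
        have h5 := q.edges_subset_edgeSet h4
        rw [SimpleGraph.edgeSet_deleteEdges] at h5
        exact h5.2 (by exact_mod_cast he)
      · intro hS
        refine ⟨p.transfer _ ?_⟩
        intro e he
        rw [SimpleGraph.edgeSet_deleteEdges]
        refine ⟨p.edges_subset_edgeSet he, fun h' => hS e (by exact_mod_cast h') he⟩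
    have hfk : fk F s u v = s ^ p.length := by
      unfold fk
      rw [if_pos h, hlen]
    rw [hfk]
    have h1 : ∀ S ∈ F.edgeFinset.powerset, ((∏ _e ∈ S, (1 - s)) * ∏ _e ∈ F.edgeFinset \ S, s)
        * (if (F.deleteEdges (S : Set (Sym2 V))).Reachable u v then (1 : ℝ) else 0)
        = (∏ e ∈ S, ((1 - s) * if e ∈ p.edges then (0 : ℝ) else 1)) * ∏ _e ∈ F.edgeFinset \ S, s := by
      intro S _
      rw [Finset.prod_mul_distrib]
      have h2 : (∏ e ∈ S, if e ∈ p.edges then (0 : ℝ) else 1)
          = if (F.deleteEdges (S : Set (Sym2 V))).Reachable u v then (1 : ℝ) else 0 := by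
        by_cases hr : (F.deleteEdges (S : Set (Sym2 V))).Reachable u v
        · rw [if_pos hr]
          apply Finset.prod_eq_one
          intro e he
          rw [if_neg ((hreach S).1 hr e he)]
        · rw [if_neg hr]
          rw [hreach] at hr
          push_neg at hr
          obtain ⟨e, he, hep⟩ := hr
          exact Finset.prod_eq_zero he (if_pos hep)
      rw [h2]
      ring
    rw [Finset.sum_congr rfl h1, ← Finset.prod_add]
    have h3 : ∀ e ∈ F.edgeFinset, ((1 - s) * (if e ∈ p.edges then (0 : ℝ) else 1) + s)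
        = if e ∈ p.edges then s else 1 := by
      intro e _
      split_ifs <;> ring
    rw [Finset.prod_congr rfl h3, Finset.prod_ite, Finset.prod_const_one, mul_one, Finset.prod_const]
    congr 1
    have h4 : F.edgeFinset.filter (fun e => e ∈ p.edges) = p.edges.toFinset := by
      ext e
      simp only [Finset.mem_filter, List.mem_toFinset, SimpleGraph.mem_edgeFinset]
      exact ⟨fun h => h.2, fun h => ⟨p.edges_subset_edgeSet h, h⟩⟩
    rw [h4, List.toFinset_card_of_nodup hp.isTrail.edges_nodup, SimpleGraph.Walk.length_edges]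
  · have h0 : ∀ S : Finset (Sym2 V), ¬ (F.deleteEdges (S : Set (Sym2 V))).Reachable u v := by
      intro S hr
      exact h (hr.mono (SimpleGraph.deleteEdges_le _))
    unfold fk
    rw [if_neg h]
    symm
    apply Finset.sum_eq_zero
    intro S _
    rw [if_neg (h0 S), mul_zero]

theorem forest_psd {V : Type} [Fintype V] (F : SimpleGraph V) (hF : F.IsAcyclic) {s : ℝ}
    (h0 : 0 ≤ s) (h1 : s ≤ 1) (x : V → ℝ) : 0 ≤ qf (fk F s) x := by
  classical
  have h : qf (fk F s) x = ∑ S ∈ F.edgeFinset.powerset,
      ((∏ _e ∈ S, (1 - s)) * ∏ _e ∈ F.edgeFinset \ S, s) *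
      ∑ u, ∑ v, (if (F.deleteEdges (S : Set (Sym2 V))).Reachable u v then (1 : ℝ) else 0)
        * (x u * x v) := by
    unfold qf
    simp only [perc F hF s, Finset.sum_mul, Finset.mul_sum]
    have e1 : ∀ u : V, ∑ v, ∑ S ∈ F.edgeFinset.powerset,
        ((∏ _e ∈ S, (1 - s)) * ∏ _e ∈ F.edgeFinset \ S, s)
        * (if (F.deleteEdges (S : Set (Sym2 V))).Reachable u v then (1 : ℝ) else 0) * (x u * x v)
        = ∑ S ∈ F.edgeFinset.powerset, ∑ v, ((∏ _e ∈ S, (1 - s)) * ∏ _e ∈ F.edgeFinset \ S, s)
        * ((if (F.deleteEdges (S : Set (Sym2 V))).Reachable u v then (1 : ℝ) else 0)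
          * (x u * x v)) := by
      intro u
      rw [Finset.sum_comm]
      apply Finset.sum_congr rfl
      intro S _
      apply Finset.sum_congr rfl
      intro v _
      ring
    rw [Finset.sum_congr rfl (fun u _ => e1 u), Finset.sum_comm]
  rw [h]
  apply Finset.sum_nonneg
  intro S _
  apply mul_nonneg
  · exact mul_nonneg (Finset.prod_nonneg fun _ _ => by linarith) (Finset.prod_nonneg fun _ _ => h0)
  · refine (reach_psd (F.deleteEdges (S : Set (Sym2 V))) x).trans_eq ?_
    refine Finset.sum_congr rfl fun u _ => Finset.sum_congr rfl fun v _ => ?_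
    congr 1
    by_cases hr : (F.deleteEdges (S : Set (Sym2 V))).Reachable u v
    · rw [if_pos hr, if_pos hr]
    · rw [if_neg hr, if_neg hr]

theorem forest_cs {V : Type} [Fintype V] (F : SimpleGraph V) (hF : F.IsAcyclic) {s : ℝ}
    (h0 : 0 ≤ s) (h1 : s ≤ 1) (x : V → ℝ) (z : V) :
    (∑ y, fk F s z y * x y) ^ 2 ≤ qf (fk F s) x := by
  classical
  set A := ∑ y, fk F s z y * x y with hA
  have hsym : ∀ u v, fk F s u v = fk F s v u := by
    intro u v
    unfold fk
    rw [SimpleGraph.dist_comm]
    by_cases h : F.Reachable u v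
    · rw [if_pos h, if_pos h.symm]
    · rw [if_neg h, if_neg (fun h' => h h'.symm)]
  have hzz : fk F s z z = 1 := by
    unfold fk
    rw [if_pos (SimpleGraph.Reachable.refl z), SimpleGraph.dist_self, pow_zero]
  have hp := forest_psd F hF h0 h1 (fun u => x u - A * if u = z then 1 else 0)
  have he : qf (fk F s) (fun u => x u - A * if u = z then 1 else 0) = qf (fk F s) x - A ^ 2 := by
    unfold qf
    have e1 : ∀ u v, fk F s u v * ((x u - A * if u = z then 1 else 0) * (x v - A * if v = z then 1 else 0))
        = fk F s u v * (x u * x v) - A * ((if v = z then 1 else 0) * (fk F s u v * x u))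
          - A * ((if u = z then 1 else 0) * (fk F s u v * x v))
          + A ^ 2 * ((if u = z then 1 else 0) * ((if v = z then 1 else 0) * fk F s u v)) := by
      intro u v
      ring
    simp only [e1, Finset.sum_add_distrib, Finset.sum_sub_distrib, ← Finset.mul_sum, ite_mul, one_mul, zero_mul,
      Finset.sum_ite_eq', Finset.mem_univ, if_true]
    have e2 : ∑ u, fk F s u z * x u = A := by
      rw [hA]
      exact Finset.sum_congr rfl fun u _ => by rw [hsym u z]
    have e3 : ∑ u, ∑ v, (if u = z then fk F s u v * x v else 0) = A := by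
      rw [Finset.sum_eq_single z]
      · simp [hA]
      · intro u _ hu
        simp [hu]
      · intro h
        exact absurd (Finset.mem_univ z) h
    have e4 : ∑ u, ∑ v, (if u = z then if v = z then fk F s u v else 0 else 0) = 1 := by
      rw [Finset.sum_eq_single z]
      · simp [hzz]
      · intro u _ hu
        simp [hu]
      · intro h
        exact absurd (Finset.mem_univ z) h
    rw [e2, e3, e4]
    ring
  rw [he] at hp
  linarith

end Pool.Agent.Helper58.NE
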