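import Pool.Agent.Helper58.NE.Defs

/-!
# Project NE, block C8: the parameters

PROOF of `exists_par`. Let `d = D + 1` (so `D + 1 ≤ 1024 ^ d`), `r` a natural number `≥ max 1 r₀`, `Lb = 2 d r²`, `K = d Lb`, `L = r 4096 ^ K`, `W = (4096 ^ K + 1)² L`. `(D+1)^Lb ≤ 1024^(d Lb) = 1024^K`; `(Lb/r)² = 4 d² r² = 2 d Lb = 2 K`, so
`exp (-(Lb/r)²) = exp (-2 K) ≤ 4^(-K)` (`4 ≤ e²`); `4^K ≥ K ≥ r`; `Lb ≤ K ≤ 4096^K ≤ L`.
-/

namespace Pool.Agent.Helper58.NE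

/-- The conditions for the parameters. -/
structure Par (D : ℕ) (r : ℝ) (K L Lb W : ℕ) : Prop where
  r_pos : 1 ≤ r
  WL : (4096 ^ K + 1) ^ 2 * L ≤ W
  L_pos : 0 < L
  rL : r / L ≤ 1 / 4096 ^ K
  LbL : Lb ≤ L
  gauss : Real.exp (-((Lb : ℝ) / r) ^ 2) ≤ 1 / 4 ^ K
  small : 1 / 4 ^ K ≤ 1 / r
  vol : (D + 1) ^ Lb ≤ 1024 ^ K

/-- The parameters exist. -/
theorem exists_par (D : ℕ) (r₀ : ℝ) : ∃ (r : ℝ) (K L Lb W : ℕ), r₀ ≤ r ∧ Par D r K L Lb W := by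
  obtain ⟨n, hn⟩ := exists_nat_ge r₀
  obtain ⟨q, hq⟩ : ∃ q : ℕ, q = n + 1 := ⟨_, rfl⟩
  have hq1 : 1 ≤ q := by omega
  have hqr : (1 : ℝ) ≤ (q : ℝ) := by exact_mod_cast hq1
  have hq0 : (0 : ℝ) < (q : ℝ) := by linarith
  obtain ⟨d, hd⟩ : ∃ d : ℕ, d = D + 1 := ⟨_, rfl⟩
  have hd1 : 1 ≤ d := by omega
  obtain ⟨Lb, hLb⟩ : ∃ Lb : ℕ, Lb = 2 * d * q ^ 2 := ⟨_, rfl⟩
  obtain ⟨K, hK⟩ : ∃ K : ℕ, K = d * Lb := ⟨_, rfl⟩
  have hLbK : Lb ≤ K := by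
    rw [hK]; exact Nat.le_mul_of_pos_left _ hd1
  have hqK : q ≤ K := by
    refine le_trans ?_ hLbK
    rw [hLb]
    nlinarith [Nat.mul_le_mul hd1 (Nat.mul_le_mul hq1 hq1), Nat.mul_le_mul hd1 (Nat.mul_le_mul hq1 (le_refl q)), sq q]
  have hK4 : K ≤ 4096 ^ K := (Nat.lt_pow_self (by norm_num)).le
  have hKr : (K : ℝ) ≤ (4 : ℝ) ^ K := by
    have : K ≤ 4 ^ K := (Nat.lt_pow_self (by norm_num)).le
    exact_mod_cast this
  refine ⟨(q : ℝ), K, q * 4096 ^ K, Lb, (4096 ^ K + 1) ^ 2 * (q * 4096 ^ K), ?_, ?_⟩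
  · have : (q : ℝ) = (n : ℝ) + 1 := by rw [hq]; push_cast; ring
    linarith
  · constructor
    · exact hqr
    · exact le_refl _
    · positivity
    · have hc : ((q * 4096 ^ K : ℕ) : ℝ) = (q : ℝ) * 4096 ^ K := by push_cast; ring
      rw [hc]
      have h4 : (0 : ℝ) < 4096 ^ K := by positivity
      rw [div_le_div_iff₀ (by positivity) h4]
      linarith
    · calc Lb ≤ K := hLbK
        _ ≤ 4096 ^ K := hK4
        _ ≤ q * 4096 ^ K := Nat.le_mul_of_pos_left _ hq1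
    · have h1 : ((Lb : ℝ) / q) ^ 2 = 2 * (K : ℝ) := by
        have e1 : (Lb : ℝ) = 2 * d * (q : ℝ) ^ 2 := by rw [hLb]; push_cast; ring
        have e2 : (K : ℝ) = d * (2 * d * (q : ℝ) ^ 2) := by rw [hK, hLb]; push_cast; ring
        rw [e1, e2]
        field_simp
        try ring
      rw [h1]
      have h2 : Real.exp (-(2 * (K : ℝ))) = (Real.exp (-2)) ^ K := by
        rw [← Real.exp_nat_mul]; congr 1; ring
      rw [h2, ← one_div_pow]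
      apply pow_le_pow_left₀ (Real.exp_pos _).le
      have h3 : (4 : ℝ) ≤ Real.exp 2 := by
        have h5 : (2 : ℝ) ≤ Real.exp 1 := by
          have := Real.add_one_le_exp (1 : ℝ); linarith
        have h6 : Real.exp 2 = Real.exp 1 * Real.exp 1 := by
          rw [← Real.exp_add]; norm_num
        rw [h6]; nlinarith
      rw [Real.exp_neg, ← one_div]
      exact one_div_le_one_div_of_le (by norm_num) h3
    · apply one_div_le_one_div_of_le hq0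
      have : (q : ℝ) ≤ (K : ℝ) := by exact_mod_cast hqK
      linarith
    · have h1 : D + 1 ≤ 1024 ^ d := by
        rw [← hd]; exact (Nat.lt_pow_self (by norm_num)).le
      calc (D + 1) ^ Lb ≤ (1024 ^ d) ^ Lb := Nat.pow_le_pow_left h1 _
        _ = 1024 ^ K := by rw [hK, pow_mul]

end Pool.Agent.Helper58.NE
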