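import Pool.Agent.Helper58.NE.Ball

/-!
# Project NE, block C6b: the differences of the functionals `bz` along edges

`bz_diff_sup`: `|exp(-s²) - exp(-t²)| ≤ |s - t|` for `s, t ≥ 0` (derivative `2 t exp (-t²) ≤ 1`), `|G.dist z y - G.dist z' y| ≤ 1`. If exactly one of the two distances is `≤ Lb`, it is equal to `Lb` and
the difference is `exp (-(Lb/r)²)`.
`bz_diff_tail`: Cauchy-Schwarz with the support of size `≤ 2 · 1024 ^ K` (`ball_card`), `√2 ≤ 2`.
-/

namespace Pool.Agent.Helper58.NE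

open Pool.Agent.Helper25.NU

variable {V : Type} [Fintype V]

private theorem exp_sq_lip (s t : ℝ) : |Real.exp (-s ^ 2) - Real.exp (-t ^ 2)| ≤ |s - t| := by
  have hd : ∀ x : ℝ, HasDerivAt (fun x : ℝ => Real.exp (-x ^ 2)) (Real.exp (-x ^ 2) * (-(2 * x))) x := by
    intro x
    have h1 : HasDerivAt (fun x : ℝ => -x ^ 2) (-(2 * x)) x := by
      have h2 := (hasDerivAt_pow 2 x).fun_neg
      simpa using h2
    exact h1.exp
  have hb : ∀ x : ℝ, ‖deriv (fun x : ℝ => Real.exp (-x ^ 2)) x‖ ≤ 1 := by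
    intro x
    rw [(hd x).deriv, norm_mul, norm_neg, Real.norm_eq_abs, Real.norm_eq_abs,
      abs_of_pos (Real.exp_pos _), Real.exp_neg, inv_mul_le_iff₀ (Real.exp_pos _), mul_one, abs_mul,
      abs_two]
    have h1 := Real.add_one_le_exp (x ^ 2)
    have h2 := sq_nonneg (|x| - 1)
    have h3 := sq_abs x
    nlinarith
  have h := Convex.norm_image_sub_le_of_norm_deriv_le (s := Set.univ) (x := t) (y := s)
    (fun x _ => (hd x).differentiableAt) (fun x _ => hb x) convex_univ (Set.mem_univ _)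
    (Set.mem_univ _)
  rw [one_mul] at h
  exact h

theorem bz_diff_sup {G : SimpleGraph V} (hG : G.Connected) {r : ℝ} (hr : 0 < r) (Lb : ℕ) {z z' : V}
    (h : G.Adj z z') (y : V) :
    |bz G r Lb z y - bz G r Lb z' y| ≤ 1 / r + Real.exp (-((Lb : ℝ) / r) ^ 2) := by
  have h1 : G.dist z y ≤ G.dist z' y + 1 := by
    have h2 := hG.dist_triangle (u := z) (v := z') (w := y)
    have h3 : G.dist z z' = 1 := SimpleGraph.dist_eq_one_iff_adj.2 h
    omega
  have h1' : G.dist z' y ≤ G.dist z y + 1 := by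
    have h2 := hG.dist_triangle (u := z') (v := z) (w := y)
    have h3 : G.dist z' z = 1 := SimpleGraph.dist_eq_one_iff_adj.2 h.symm
    omega
  have hr' : 0 < 1 / r := by positivity
  have he := Real.exp_pos (-((Lb : ℝ) / r) ^ 2)
  unfold bz
  by_cases ha : G.dist z y ≤ Lb
  · by_cases hb : G.dist z' y ≤ Lb
    · rw [if_pos ha, if_pos hb]
      refine (exp_sq_lip _ _).trans ?_
      rw [← sub_div, abs_div, abs_of_pos hr]
      have h4 : |(G.dist z y : ℝ) - G.dist z' y| ≤ 1 := by
        rw [abs_le]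
        have e1 : (G.dist z y : ℝ) ≤ G.dist z' y + 1 := by exact_mod_cast h1
        have e2 : (G.dist z' y : ℝ) ≤ G.dist z y + 1 := by exact_mod_cast h1'
        constructor <;> linarith
      have h5 : |(G.dist z y : ℝ) - G.dist z' y| / r ≤ 1 / r := div_le_div_of_nonneg_right h4 hr.le
      linarith
    · have h4 : G.dist z y = Lb := by omega
      rw [if_pos ha, if_neg hb, h4, sub_zero, abs_of_pos he]
      linarith
  · by_cases hb : G.dist z' y ≤ Lb
    · have h4 : G.dist z' y = Lb := by omega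
      rw [if_neg ha, if_pos hb, h4, zero_sub, abs_neg, abs_of_pos he]
      linarith
    · rw [if_neg ha, if_neg hb, sub_zero, abs_zero]
      linarith

theorem bz_diff_tail {G : SimpleGraph V} (hG : G.Connected) {D Lb K : ℕ} (hD : DegLe G D)
    (hV : (D + 1) ^ Lb ≤ 1024 ^ K) {r : ℝ} (z z' : V) {d : ℝ}
    (hd : ∀ y, |bz G r Lb z y - bz G r Lb z' y| ≤ d) (x : V → ℝ) :
    |pr x (bz G r Lb z - bz G r Lb z')| ≤ 2 * d * (32 ^ K * √(e2 x)) := by
  classical
  have hd0 : 0 ≤ d := (abs_nonneg _).trans (hd z)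
  have hcard : ∀ w : V, (((Finset.univ.filter fun y => G.dist w y ≤ Lb).card : ℕ) : ℝ) ≤
      1024 ^ K := by
    intro w
    calc (((Finset.univ.filter fun y => G.dist w y ≤ Lb).card : ℕ) : ℝ) ≤
          (((D + 1) ^ Lb : ℕ) : ℝ) := by exact_mod_cast ball_card hG hD w Lb
      _ ≤ ((1024 ^ K : ℕ) : ℝ) := by exact_mod_cast hV
      _ = (1024 : ℝ) ^ K := by push_cast; rfl
  have hsum : ∑ y, (bz G r Lb z - bz G r Lb z') y ^ 2 ≤ 2 * d ^ 2 * (1024 : ℝ) ^ K := by
    calc ∑ y, (bz G r Lb z - bz G r Lb z') y ^ 2 ≤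
          ∑ y, ((if G.dist z y ≤ Lb then d ^ 2 else 0) + (if G.dist z' y ≤ Lb then d ^ 2 else 0)) := by
          refine Finset.sum_le_sum fun y _ => ?_
          have h0 : (bz G r Lb z - bz G r Lb z') y ^ 2 ≤ d ^ 2 := by
            rw [Pi.sub_apply, ← sq_abs]
            exact pow_le_pow_left₀ (abs_nonneg _) (hd y) 2
          have h00 := sq_nonneg d
          by_cases h : G.dist z y ≤ Lb
          · rw [if_pos h]
            split_ifs <;> linarith
          · by_cases h' : G.dist z' y ≤ Lb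
            · rw [if_neg h, if_pos h']
              linarith
            · rw [if_neg h, if_neg h', Pi.sub_apply]
              unfold bz
              rw [if_neg h, if_neg h']
              norm_num
      _ = d ^ 2 * ((Finset.univ.filter fun y => G.dist z y ≤ Lb).card : ℝ) +
          d ^ 2 * ((Finset.univ.filter fun y => G.dist z' y ≤ Lb).card : ℝ) := by
          rw [Finset.sum_add_distrib, ← Finset.sum_filter, ← Finset.sum_filter, Finset.sum_const,
            Finset.sum_const, nsmul_eq_mul, nsmul_eq_mul]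
          ring
      _ ≤ d ^ 2 * 1024 ^ K + d ^ 2 * 1024 ^ K :=
          add_le_add (mul_le_mul_of_nonneg_left (hcard z) (sq_nonneg d))
            (mul_le_mul_of_nonneg_left (hcard z') (sq_nonneg d))
      _ = 2 * d ^ 2 * (1024 : ℝ) ^ K := by ring
  have hcs : (pr x (bz G r Lb z - bz G r Lb z')) ^ 2 ≤
      e2 x * ∑ y, (bz G r Lb z - bz G r Lb z') y ^ 2 := by
    unfold pr e2
    exact Finset.sum_mul_sq_le_sq_mul_sq _ _ _
  have he := e2_nonneg x
  have h3 : (pr x (bz G r Lb z - bz G r Lb z')) ^ 2 ≤ (2 * d * (32 ^ K * √(e2 x))) ^ 2 := by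
    rw [mul_pow, mul_pow, mul_pow, Real.sq_sqrt he]
    have h4 : ((32 : ℝ) ^ K) ^ 2 = 1024 ^ K := by
      rw [← pow_mul, mul_comm, pow_mul]
      norm_num
    rw [h4]
    refine (hcs.trans (mul_le_mul_of_nonneg_left hsum he)).trans ?_
    have h5 : 0 ≤ d ^ 2 * (1024 : ℝ) ^ K * e2 x := by positivity
    nlinarith
  exact abs_le_of_sq_le_sq h3 (by positivity)

end Pool.Agent.Helper58.NE
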