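import Pool.Agent.Helper58.NE.Bz
import Pool.Agent.Helper58.NE.Tail
import Pool.Agent.Helper58.NE.ParEx

/-!
# Project NE, block C7: the functionals `bz` and their differences along edges are bounded

`FB` of `bz z`: `c k = C / 4^k` (`bz_atom`), `c' = 1` (`bz_tail`). `fbn ≤ √(∑ 4^k C²/16^k + 1) ≤ √(2 C² + 1) ≤ 2 C`.
`FB` of the difference along an edge: `c k = min (2 C / 4^k) (2 / r)` (on atoms `|pr a (b - b')| ≤ n1 a · sup |b - b'| ≤ 1/r + 1/4^K ≤ 2/r`, and `≤ 2 C / 4^k`), `c' = 4 / r` (`bz_diff_tail` with `d = 2 / r`);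
`4^k c k ^ 2 ≤ min (4 C² / 4^k) (4^(k+1) / r²)`, so for every `k₀` `fbn² ≤ (16/3) C² / 4^k₀ + 4^(k₀+1) / r² + 16 / r²`: at most `ε²` if `k₀` is large and then `r ≥ r₀`.
-/

namespace Pool.Agent.Helper58.NE

open Pool.Agent.Helper25.NU

private theorem sum_quarter (K : ℕ) : ∑ k ∈ Finset.range K, (1 : ℝ) / 4 ^ k ≤ 2 := by
  have h : ∀ K : ℕ, ∑ k ∈ Finset.range K, (1 : ℝ) / 4 ^ k = 4 / 3 - 4 / 3 / 4 ^ K := by
    intro K
    induction K with
    | zero => norm_num
    | succ K ih =>
      rw [Finset.sum_range_succ, ih, pow_succ]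
      field_simp
      ring
  have := h K
  have h4 : (0 : ℝ) < 4 / 3 / 4 ^ K := by positivity
  linarith

private theorem sum_half (K : ℕ) : ∑ k ∈ Finset.range K, (1 : ℝ) / 2 ^ k ≤ 2 := by
  have h : ∀ K : ℕ, ∑ k ∈ Finset.range K, (1 : ℝ) / 2 ^ k = 2 - 2 / 2 ^ K := by
    intro K
    induction K with
    | zero => norm_num
    | succ K ih =>
      rw [Finset.sum_range_succ, ih, pow_succ]
      field_simp
      ring
  have := h K
  have h4 : (0 : ℝ) < 2 / 2 ^ K := by positivity
  linarith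

private theorem pr_sub {V : Type} [Fintype V] (a b b' : V → ℝ) : pr a (b - b') = pr a b - pr a b' := by
  unfold pr
  rw [← Finset.sum_sub_distrib]
  exact Finset.sum_congr rfl fun y _ => by rw [Pi.sub_apply, mul_sub]

private theorem pr_le {V : Type} [Fintype V] (a b : V → ℝ) {d : ℝ} (h : ∀ y, |b y| ≤ d) :
    |pr a b| ≤ d * n1 a := by
  unfold pr n1
  refine (Finset.abs_sum_le_sum_abs _ _).trans ?_
  rw [Finset.mul_sum]
  refine Finset.sum_le_sum fun y _ => ?_
  rw [abs_mul, mul_comm]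
  exact mul_le_mul_of_nonneg_right (h y) (abs_nonneg _)

theorem exists_FB : ∃ C : ℝ, 1 ≤ C ∧ ∀ ε : ℝ, 0 < ε → ∃ r₀ : ℝ,
    ∀ (V : Type) [Fintype V] (G : SimpleGraph V) (D : ℕ) (r : ℝ) (K L Lb W : ℕ), G.Connected →
    DegLe G D → NoShort G W → Par D r K L Lb W →
    (∀ z : V, ∃ c c', FB (Hk G r) K (bz G r Lb z) c c' ∧ fbn K c c' ≤ C) ∧
    (r₀ ≤ r → ∀ z z' : V, G.Adj z z' →
      ∃ c c', FB (Hk G r) K (bz G r Lb z - bz G r Lb z') c c' ∧ fbn K c c' ≤ ε) := by
  obtain ⟨C, hC1, hC⟩ := bz_atom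
  have hC0 : (0 : ℝ) < C := by linarith
  refine ⟨2 * C, by linarith, ?_⟩
  intro ε hε
  refine ⟨256 * C ^ 3 / ε ^ 4 + 32 / ε ^ 2, ?_⟩
  intro V _ G D r K L Lb W hG hD hW P
  have hr : 0 < r := by linarith [P.r_pos]
  have hat : ∀ (z : V) (k : ℕ), k < K → ∀ a : V → ℝ, Atom (Hk G r) k a →
      |pr a (bz G r Lb z)| ≤ C / 4 ^ k :=
    hC V G r K L Lb W hG hr hW P.WL P.L_pos P.rL P.LbL P.gauss
  constructor
  · intro z
    refine ⟨fun k => C / 4 ^ k, 1, ⟨fun k => by positivity, zero_le_one, ?_, ?_⟩, ?_⟩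
    · intro k hk a ha
      exact hat z k hk a ha
    · intro x
      rw [one_mul]
      exact bz_tail hG hD P.vol r z x
    · unfold fbn
      rw [Real.sqrt_le_left (by linarith)]
      have h1 : ∑ k ∈ Finset.range K, (4 : ℝ) ^ k * (C / 4 ^ k) ^ 2 =
          C ^ 2 * ∑ k ∈ Finset.range K, (1 : ℝ) / 4 ^ k := by
        rw [Finset.mul_sum]
        refine Finset.sum_congr rfl fun k _ => ?_
        have : (4 : ℝ) ^ k ≠ 0 := by positivity
        field_simp
      rw [h1]
      have h2 := sum_quarter K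
      have h3 : C ^ 2 * ∑ k ∈ Finset.range K, (1 : ℝ) / 4 ^ k ≤ C ^ 2 * 2 :=
        mul_le_mul_of_nonneg_left h2 (sq_nonneg C)
      nlinarith
  · intro hr0 z z' hadj
    have hsup : ∀ y, |(bz G r Lb z - bz G r Lb z') y| ≤ 2 / r := by
      intro y
      rw [Pi.sub_apply]
      refine (bz_diff_sup hG hr Lb hadj y).trans ?_
      have h1 := P.gauss
      have h2 := P.small
      have h3 : 2 / r = 1 / r + 1 / r := by ring
      rw [h3]
      linarith
    refine ⟨fun k => min (2 * C / 4 ^ k) (2 / r), 2 * (2 / r), ⟨fun k => ?_, by positivity, ?_, ?_⟩, ?_⟩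
    · exact le_min (by positivity) (by positivity)
    · intro k hk a ha
      refine le_min ?_ ?_
      · rw [pr_sub]
        have h1 := hat z k hk a ha
        have h2 := hat z' k hk a ha
        have h3 : 2 * C / 4 ^ k = C / 4 ^ k + C / 4 ^ k := by ring
        rw [h3]
        exact (abs_sub _ _).trans (add_le_add h1 h2)
      · refine (pr_le a _ hsup).trans ?_
        have := ha.one
        have h1 : 0 ≤ 2 / r := by positivity
        nlinarith
    · intro x
      exact bz_diff_tail hG hD P.vol z z' (fun y => by simpa using hsup y) x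
    · unfold fbn
      rw [Real.sqrt_le_left hε.le]
      have hterm : ∀ k ∈ Finset.range K, (4 : ℝ) ^ k * (min (2 * C / 4 ^ k) (2 / r)) ^ 2 ≤
          2 * C * √(4 * C / r) * (1 / 2 ^ k) := by
        intro k _
        set m := min (2 * C / 4 ^ k) (2 / r) with hm
        have h4 : (0 : ℝ) < 4 ^ k := by positivity
        have hm0 : 0 ≤ m := le_min (by positivity) (by positivity)
        have hm1 : m ≤ 2 * C / 4 ^ k := min_le_left _ _
        have hm2 : m ≤ 2 / r := min_le_right _ _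
        have hm3 : m ≤ √(4 * C / r) * (1 / 2 ^ k) := by
          have h5 : m ^ 2 ≤ (√(4 * C / r) * (1 / 2 ^ k)) ^ 2 := by
            rw [mul_pow, Real.sq_sqrt (by positivity), div_pow, ← pow_mul, mul_comm k 2, pow_mul]
            norm_num
            calc m ^ 2 = m * m := sq m
              _ ≤ (2 * C / 4 ^ k) * (2 / r) := mul_le_mul hm1 hm2 hm0 (by positivity)
              _ = 4 * C / r * (4 ^ k)⁻¹ := by field_simp; ring
          exact le_of_sq_le_sq h5 (by positivity)
        calc (4 : ℝ) ^ k * m ^ 2 = 4 ^ k * m * m := by ring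
          _ ≤ (4 ^ k * (2 * C / 4 ^ k)) * (√(4 * C / r) * (1 / 2 ^ k)) :=
              mul_le_mul (mul_le_mul_of_nonneg_left hm1 h4.le) hm3 hm0 (by positivity)
          _ = 2 * C * √(4 * C / r) * (1 / 2 ^ k) := by field_simp
      have hsum : ∑ k ∈ Finset.range K, (4 : ℝ) ^ k * (min (2 * C / 4 ^ k) (2 / r)) ^ 2 ≤
          2 * C * √(4 * C / r) * 2 := by
        refine (Finset.sum_le_sum hterm).trans ?_
        rw [← Finset.mul_sum]
        exact mul_le_mul_of_nonneg_left (sum_half K) (by positivity)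
      have hr1 : 256 * C ^ 3 / ε ^ 4 ≤ r := by
        have : 0 < 32 / ε ^ 2 := by positivity
        linarith
      have hr2 : 32 / ε ^ 2 ≤ r := by
        have : 0 < 256 * C ^ 3 / ε ^ 4 := by positivity
        linarith
      have hs : √(4 * C / r) ≤ ε ^ 2 / (8 * C) := by
        rw [Real.sqrt_le_left (by positivity)]
        rw [div_pow, div_le_div_iff₀ hr (by positivity)]
        rw [div_le_iff₀ (by positivity)] at hr1
        nlinarith
      have h1 : 2 * C * √(4 * C / r) * 2 ≤ ε ^ 2 / 2 := by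
        calc 2 * C * √(4 * C / r) * 2 ≤ 2 * C * (ε ^ 2 / (8 * C)) * 2 := by gcongr
          _ = ε ^ 2 / 2 := by field_simp; ring
      have h2 : (2 * (2 / r)) ^ 2 ≤ ε ^ 2 / 2 := by
        have e : (2 * (2 / r)) ^ 2 = 16 / (r * r) := by field_simp; ring
        rw [e]
        rw [div_le_iff₀ (by positivity)] at hr2
        rw [div_le_iff₀ (by positivity)]
        have h3 : r * ε ^ 2 ≤ r * r * ε ^ 2 := by
          have := P.r_pos
          have : r ≤ r * r := by nlinarith
          exact mul_le_mul_of_nonneg_right this (by positivity)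
        nlinarith
      linarith

end Pool.Agent.Helper58.NE
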