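import Pool.Agent.Helper58.NE.Defs

/-!
# Project NE, block A1: the gauge of the atoms

PROOF of `exists_gauge`. Let `S = convexHull ℝ {a | Atom H k a}` and `p = gaugeSeminorm` of `S`. The set of atoms contains `0`, is invariant under
`a ↦ -a`, and contains all small multiples of every `Pi.single u 1` (`qf H (c • Pi.single u 1) = c² H u u ≤ 2 c²`), so `S` is
convex, balanced (`|c| ≤ 1`: `c • a` is an atom if `a` is one: `qf` scales by `c²`; care with a negative `qf`: `4096^k * c² * qf ≤ 2 c² ≤ 2` if
`qf ≥ 0`, and `≤ 0` otherwise) and absorbent (the span of the `Pi.single u 1`; in a finite dimensional space: every `x` is a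
combination of finitely many atoms `± c • single u 1`).
`up`: if `t = 0` then `x = 0`; if `t > 0` then `t⁻¹ • x` is an atom, so `gauge S x ≤ t` (`gauge_le_of_mem`).
`hull`: if `p x < t` (so `t > 0`) then `x ∈ t • S` (`exists_lt_of_gauge_lt` and convexity, `0 ∈ S`), so `t⁻¹ • x ∈ S`; apply the maximum principle
`ConvexOn.exists_ge_of_mem_convexHull` to `a ↦ Ψ (t • a)` (convex: `ConvexOn.comp_linearMap`).
-/

namespace Pool.Agent.Helper58.NE

open Pool.Agent.Helper25.NU

variable {U : Type} [Fintype U]

private theorem qf_smul38 (H : U → U → ℝ) (c : ℝ) (a : U → ℝ) : qf H (c • a) = c ^ 2 * qf H a := by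
  unfold qf
  simp only [Pi.smul_apply, smul_eq_mul, Finset.mul_sum]
  refine Finset.sum_congr rfl fun u _ => Finset.sum_congr rfl fun v _ => ?_
  ring

private theorem sc_smul_le38 (c : ℝ) (a : U → ℝ) : sc (c • a) ≤ sc a := by
  classical
  unfold sc
  refine Finset.card_le_card ?_
  intro u hu
  simp only [Finset.mem_filter, Finset.mem_univ, true_and, Pi.smul_apply, smul_eq_mul] at hu ⊢
  exact fun h => hu (by rw [h, mul_zero])

private theorem atom_smul38 {H : U → U → ℝ} {k : ℕ} {a : U → ℝ} (h : Atom H k a) {c : ℝ}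
    (hc : |c| ≤ 1) : Atom H k (c • a) where
  supp := (sc_smul_le38 c a).trans h.supp
  one := by
    rw [n1_smul]
    have h0 := n1_nonneg a
    have h1 := h.one
    nlinarith [abs_nonneg c]
  quad := by
    rw [qf_smul38]
    have h1 := h.quad
    have h2 : c ^ 2 ≤ 1 := by
      rw [← sq_abs]
      nlinarith [abs_nonneg c]
    have h3 : 0 ≤ c ^ 2 := sq_nonneg c
    have h4 : (4096 : ℝ) ^ k * (c ^ 2 * qf H a) = c ^ 2 * (4096 ^ k * qf H a) := by ring
    rw [h4]
    nlinarith

private theorem atom_single38 [DecidableEq U] {H : U → U → ℝ} (hH : ∀ u, H u u ≤ 2) (k : ℕ) (u : U)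
    {c : ℝ} (hc : |c| ≤ ((64 : ℝ) ^ k)⁻¹) : Atom H k (Pi.single u c) where
  supp := by
    unfold sc
    calc _ ≤ ({u} : Finset U).card := by
            refine Finset.card_le_card ?_
            intro v hv
            simp only [Finset.mem_filter, Finset.mem_univ, true_and] at hv
            rw [Finset.mem_singleton]
            by_contra h
            exact hv (Pi.single_eq_of_ne h _)
      _ = 1 := Finset.card_singleton u
      _ ≤ 4096 ^ k := Nat.one_le_pow _ _ (by norm_num)
  one := by
    have h1 : n1 (Pi.single u c : U → ℝ) = |c| := by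
      unfold n1
      rw [Finset.sum_eq_single u]
      · rw [Pi.single_eq_same]
      · intro v _ hv
        rw [Pi.single_eq_of_ne hv, abs_zero]
      · intro h
        exact absurd (Finset.mem_univ u) h
    rw [h1]
    refine hc.trans ?_
    exact inv_le_one_of_one_le₀ (one_le_pow₀ (by norm_num))
  quad := by
    have h1 : qf H (Pi.single u c : U → ℝ) = H u u * (c * c) := by
      unfold qf
      rw [Finset.sum_eq_single u]
      · rw [Finset.sum_eq_single u]
        · rw [Pi.single_eq_same]
        · intro v _ hv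
          rw [Pi.single_eq_of_ne hv, mul_zero, mul_zero]
        · intro h
          exact absurd (Finset.mem_univ u) h
      · intro v _ hv
        refine Finset.sum_eq_zero fun w _ => ?_
        rw [Pi.single_eq_of_ne hv, zero_mul, mul_zero]
      · intro h
        exact absurd (Finset.mem_univ u) h
    rw [h1]
    have h2 : c * c ≤ ((64 : ℝ) ^ k)⁻¹ * ((64 : ℝ) ^ k)⁻¹ := by
      rw [← abs_mul_abs_self c]
      exact mul_le_mul hc hc (abs_nonneg c) ((abs_nonneg c).trans hc)
    have h3 : (4096 : ℝ) ^ k * (((64 : ℝ) ^ k)⁻¹ * ((64 : ℝ) ^ k)⁻¹) = 1 := by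
      have : (4096 : ℝ) ^ k = 64 ^ k * 64 ^ k := by
        rw [← mul_pow]
        norm_num
      rw [this]
      have h64 : (64 : ℝ) ^ k ≠ 0 := by positivity
      field_simp
    have h4 : (4096 : ℝ) ^ k * (c * c) ≤ 1 := by
      rw [← h3]
      exact mul_le_mul_of_nonneg_left h2 (by positivity)
    have h5 : 0 ≤ (4096 : ℝ) ^ k * (c * c) := mul_nonneg (by positivity) (mul_self_nonneg c)
    have h6 : (4096 : ℝ) ^ k * (H u u * (c * c)) = H u u * (4096 ^ k * (c * c)) := by ring
    rw [h6]
    calc H u u * (4096 ^ k * (c * c)) ≤ 2 * (4096 ^ k * (c * c)) :=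
          mul_le_mul_of_nonneg_right (hH u) h5
      _ ≤ 2 := by linarith

private theorem atom_zero38 (H : U → U → ℝ) (k : ℕ) : Atom H k (0 : U → ℝ) where
  supp := by
    classical
    unfold sc
    simp
  one := by
    unfold n1
    simp
  quad := by
    unfold qf
    simp

private theorem ball_sub38 (H : U → U → ℝ) (hH : ∀ u, H u u ≤ 2) (k : ℕ) :
    convexHull ℝ {a : U → ℝ | Atom H k a} ∈ nhds (0 : U → ℝ) := by
  classical
  rw [Metric.mem_nhds_iff]
  refine ⟨((64 : ℝ) ^ k)⁻¹ / ((Fintype.card U : ℝ) + 1), by positivity, ?_⟩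
  intro x hx
  rw [Metric.mem_ball, dist_zero_right] at hx
  rcases isEmpty_or_nonempty U with hU | hU
  · have : x = 0 := Subsingleton.elim _ _
    rw [this]
    exact subset_convexHull ℝ _ (atom_zero38 H k)
  · have hN : (0 : ℝ) < Fintype.card U := by exact_mod_cast Fintype.card_pos
    have hxe : x = ∑ u : U, ((Fintype.card U : ℝ)⁻¹) • (Pi.single u (Fintype.card U * x u) : U → ℝ) := by
      funext v
      rw [Finset.sum_apply, Finset.sum_eq_single v]
      · rw [Pi.smul_apply, Pi.single_eq_same, smul_eq_mul]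
        field_simp
      · intro u _ hu
        rw [Pi.smul_apply, Pi.single_eq_of_ne hu.symm, smul_zero]
      · intro h
        exact absurd (Finset.mem_univ v) h
    rw [hxe]
    refine (convex_convexHull ℝ _).sum_mem (fun u _ => by positivity) ?_ ?_
    · rw [Finset.sum_const, Finset.card_univ, nsmul_eq_mul]
      field_simp
    · intro u _
      refine subset_convexHull ℝ _ ?_
      refine atom_single38 hH k u ?_
      rw [abs_mul, abs_of_pos hN]
      have h1 : |x u| ≤ ‖x‖ := by
        have := norm_le_pi_norm x u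
        rwa [Real.norm_eq_abs] at this
      have h2 : |x u| * ((Fintype.card U : ℝ) + 1) ≤ ((64 : ℝ) ^ k)⁻¹ := by
        have h3 := h1.trans hx.le
        rwa [le_div_iff₀ (by positivity)] at h3
      nlinarith [abs_nonneg (x u)]

private theorem bal38 (H : U → U → ℝ) (k : ℕ) :
    Balanced ℝ (convexHull ℝ {a : U → ℝ | Atom H k a}) := by
  refine Balanced.convexHull ?_
  intro c hc
  rintro _ ⟨a, ha, rfl⟩
  exact atom_smul38 ha (by rwa [Real.norm_eq_abs] at hc)

theorem exists_gauge (H : U → U → ℝ) (hH : ∀ u, H u u ≤ 2) (k : ℕ) :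
    ∃ p : Seminorm ℝ (U → ℝ), IsGauge H k p := by
  have habs : Absorbent ℝ (convexHull ℝ {a : U → ℝ | Atom H k a}) :=
    absorbent_nhds_zero (ball_sub38 H hH k)
  refine ⟨gaugeSeminorm (bal38 H k) (convex_convexHull ℝ _) habs, ?_, ?_⟩
  · intro x t ht hs h1 hq
    change gauge _ x ≤ t
    rcases ht.eq_or_lt with rfl | ht'
    · have hx : x = 0 := by
        have h2 : n1 x = 0 := le_antisymm h1 (n1_nonneg x)
        unfold n1 at h2
        rw [Finset.sum_eq_zero_iff_of_nonneg (fun _ _ => abs_nonneg _)] at h2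
        funext u
        exact abs_eq_zero.mp (h2 u (Finset.mem_univ u))
      rw [hx, gauge_zero]
    · refine gauge_le_of_mem ht ?_
      refine ⟨t⁻¹ • x, subset_convexHull ℝ _ ?_, ?_⟩
      · refine ⟨(sc_smul_le38 _ x).trans hs, ?_, ?_⟩
        · rw [n1_smul, abs_of_pos (inv_pos.mpr ht'), inv_mul_le_iff₀ ht', mul_one]
          exact h1
        · rw [qf_smul38]
          have h3 : (4096 : ℝ) ^ k * (t⁻¹ ^ 2 * qf H x) = (4096 ^ k * qf H x) / t ^ 2 := by
            field_simp
          rw [h3, div_le_iff₀ (by positivity)]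
          exact hq
      · change t • (t⁻¹ • x) = x
        rw [smul_smul, mul_inv_cancel₀ ht'.ne', one_smul]
  · intro Ψ hΨ x t hxt
    change gauge _ x < t at hxt
    obtain ⟨b, hb, hbt, y, hy, hyx⟩ := exists_lt_of_gauge_lt habs hxt
    have ht : 0 < t := hb.trans hbt
    have hz : (b / t) • y ∈ convexHull ℝ {a : U → ℝ | Atom H k a} := by
      refine bal38 H k (b / t) ?_ ⟨y, hy, rfl⟩
      rw [Real.norm_eq_abs, abs_of_pos (div_pos hb ht), div_le_one ht]
      exact hbt.le
    have hx : x = t • ((b / t) • y) := by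
      rw [smul_smul, mul_div_cancel₀ _ ht.ne']
      exact hyx.symm
    have hc : ConvexOn ℝ Set.univ (fun a : U → ℝ => Ψ (t • a)) := by
      have := hΨ.comp_linearMap (LinearMap.lsmul ℝ (U → ℝ) t)
      rw [Set.preimage_univ] at this
      exact this
    obtain ⟨a, ha, h⟩ := hc.exists_ge_of_mem_convexHull (Set.subset_univ _) hz
    exact ⟨a, ha, by rw [hx]; exact h⟩

end Pool.Agent.Helper58.NE
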