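import Pool.Agent.Helper58.NE.Defs

/-!
# Project NE, block C2: the forest spanned by a small set in a graph of large girth

PROOF of `exists_forest`. For `u, v ∈ S` with `G.dist u v ≤ L` choose a walk `w u v` of length `G.dist u v` (`G.Connected`: `Connected.exists_walk_length_eq_dist`). Let `E` be the finite set of the edges of these
walks: at most `m² L ≤ W` edges, and `F = SimpleGraph.fromEdgeSet E`. `F ≤ G`. If `F` had a cycle, it would map to a cycle of `G` of the same length (`Walk.mapLe`, `IsCycle.mapLe`), and its edges are distinct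
(`IsTrail.edges_nodup`) elements of `E`, so its length is at most `W`, contradicting `NoShort G W`. The walks `w u v` live in `F` (`Walk.transfer`), so `F.dist u v ≤ G.dist u v`, and `≥` holds by `F ≤ G`.
-/

namespace Pool.Agent.Helper58.NE

theorem dist_le_of_le {V : Type} {F G : SimpleGraph V} (h : F ≤ G) {u v : V}
    (hr : F.Reachable u v) : G.dist u v ≤ F.dist u v := by
  obtain ⟨p, hp⟩ := hr.exists_walk_length_eq_dist
  rw [← hp, ← SimpleGraph.Walk.length_map (SimpleGraph.Hom.ofLE h) p]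
  exact SimpleGraph.dist_le _

theorem exists_forest {V : Type} [Fintype V] (G : SimpleGraph V) (hG : G.Connected) {W L m : ℕ}
    (hW : NoShort G W) (S : Finset V) (hS : S.card ≤ m) (hm : m ^ 2 * L ≤ W) :
    ∃ F : SimpleGraph V, F ≤ G ∧ F.IsAcyclic ∧
      ∀ u ∈ S, ∀ v ∈ S, G.dist u v ≤ L → F.Reachable u v ∧ F.dist u v = G.dist u v := by
  classical
  have hw : ∀ u v, ∃ p : G.Walk u v, p.length = G.dist u v := fun u v =>
    hG.exists_walk_length_eq_dist u v
  choose w hw using hw
  obtain ⟨E, hE⟩ : ∃ E : Finset (Sym2 V), E = ((S ×ˢ S).filter fun q => G.dist q.1 q.2 ≤ L).biUnion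
      fun q => (w q.1 q.2).edges.toFinset := ⟨_, rfl⟩
  have hEmem : ∀ e, e ∈ E ↔ ∃ u ∈ S, ∃ v ∈ S, G.dist u v ≤ L ∧ e ∈ (w u v).edges := by
    intro e
    rw [hE]
    simp only [Finset.mem_biUnion, Finset.mem_filter, Finset.mem_product, List.mem_toFinset, Prod.exists]
    constructor
    · rintro ⟨u, v, ⟨⟨hu, hv⟩, hL⟩, he⟩
      exact ⟨u, hu, v, hv, hL, he⟩
    · rintro ⟨u, hu, v, hv, hL, he⟩
      exact ⟨u, v, ⟨⟨hu, hv⟩, hL⟩, he⟩
  have hEG : ∀ e ∈ E, e ∈ G.edgeSet := by
    intro e he
    obtain ⟨u, -, v, -, -, he⟩ := (hEmem e).1 he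
    exact (w u v).edges_subset_edgeSet he
  have hcard : E.card ≤ W := by
    refine le_trans ?_ hm
    rw [hE]
    refine Finset.card_biUnion_le.trans ?_
    have h1 : ∀ q ∈ (S ×ˢ S).filter (fun q => G.dist q.1 q.2 ≤ L), (w q.1 q.2).edges.toFinset.card ≤ L := by
      intro q hq
      refine (List.toFinset_card_le _).trans ?_
      rw [SimpleGraph.Walk.length_edges, hw]
      exact (Finset.mem_filter.1 hq).2
    refine (Finset.sum_le_card_nsmul _ _ L h1).trans ?_
    rw [smul_eq_mul]
    refine Nat.mul_le_mul_right L ?_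
    refine (Finset.card_filter_le _ _).trans ?_
    rw [Finset.card_product, sq]
    exact Nat.mul_le_mul hS hS
  have hFedge : ∀ e, e ∈ (SimpleGraph.fromEdgeSet (E : Set (Sym2 V))).edgeSet ↔ e ∈ E := by
    intro e
    rw [SimpleGraph.edgeSet_fromEdgeSet]
    constructor
    · exact fun h => h.1
    · intro h
      exact ⟨h, G.not_isDiag_of_mem_edgeSet (hEG e h)⟩
  have hFG : SimpleGraph.fromEdgeSet (E : Set (Sym2 V)) ≤ G := by
    rw [← SimpleGraph.edgeSet_subset_edgeSet]
    intro e he
    exact hEG e ((hFedge e).1 he)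
  refine ⟨SimpleGraph.fromEdgeSet (E : Set (Sym2 V)), hFG, ?_, fun u hu v hv hL => ?_⟩
  · intro v c hc
    have h1 := hW v (c.mapLe hFG) (hc.mapLe hFG)
    have h2 : (c.mapLe hFG).length = c.length := SimpleGraph.Walk.length_map _ _
    rw [h2, ← SimpleGraph.Walk.length_edges, ← List.toFinset_card_of_nodup hc.isTrail.edges_nodup] at h1
    have h3 : c.edges.toFinset ⊆ E := by
      intro e he
      exact (hFedge e).1 (c.edges_subset_edgeSet (List.mem_toFinset.1 he))
    have h4 := Finset.card_le_card h3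
    omega
  · have ht : ∀ e ∈ (w u v).edges, e ∈ (SimpleGraph.fromEdgeSet (E : Set (Sym2 V))).edgeSet := fun e he =>
      (hFedge e).2 ((hEmem e).2 ⟨u, hu, v, hv, hL, he⟩)
    have hr : (SimpleGraph.fromEdgeSet (E : Set (Sym2 V))).Reachable u v := ⟨(w u v).transfer _ ht⟩
    refine ⟨hr, le_antisymm ?_ (dist_le_of_le hFG hr)⟩
    have h1 := SimpleGraph.dist_le ((w u v).transfer _ ht)
    rwa [SimpleGraph.Walk.length_transfer, hw] at h1

end Pool.Agent.Helper58.NE
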