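import Pool.Agent.Helper58.NE.Level

/-!
# Project NE, block A4: reduction to atomic labels

PROOF of `hull_reduce`. Induction on the tree, generalizing `z`, `m` and `η`. `leaf`: take `leaf`. `node x l r`: if `x = 0` let `x' = 0`. Otherwise choose
`t > p x`, `t ≥ 0`, with `t² ≤ p x ^ 2 + η / 2` and apply `IsGauge.hull` to the convex function
`y ↦ (l.E (fun s => Ψ (z + y + s.sum)) + r.E (fun s => Ψ (z - y + s.sum))) / 2` (convexity: `Tree.E` is linear and monotone: `E_add`, `E_mul`, `E_mono`): an atom `a`, `x' = t • a`, with a value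
at least that of `x`. `al H k (t • a) = t² al H k a ≤ t²`. If `x' = 0` (possible) it is fine as well.
Apply the induction hypothesis to `l` with `z + x'` and to `r` with `z - x'`, with `η / 2`; the bound for `nz`: for `x = 0` the label does not count and
`x' = 0` does not count either; for `x ≠ 0` the paths of `l`, `r` have `nz ≤ m - 1` (real numbers), and `x'` counts at most one. `al H k 0 = 0`, `p 0 = 0`, `sc 0 = 0`, `sc (t • a) ≤ sc a`,
`sc (-v) = sc v`, `al H k (-v) = al H k v`.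
(`nz s'` is real valued, so `m : ℝ`.)

PROOF of `level_est`. `hull_reduce` with `Ψ = p' ^ 2` (convex: `p'` is a seminorm, `t ↦ t²`), `z = 0`, and `level_atomic` for `T'`:
`E_T p'² ≤ E_T' p'² ≤ 3 q^s E_T' ∑ al ≤ 3 q^s (E_T ∑ p² + η)` for all `η > 0`; let `η → 0`.
-/

namespace Pool.Agent.Helper58.NE

open Pool.Agent.Helper25.NU

variable {U : Type} [Fintype U]

private theorem al_zero41 (H : U → U → ℝ) (k : ℕ) : al H k (0 : U → ℝ) = 0 := by
  have h1 : n1 (0 : U → ℝ) = 0 := by simp [n1]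
  have h2 : qf H (0 : U → ℝ) = 0 := by simp [qf]
  unfold al
  rw [h1, h2]
  simp

private theorem al_neg41 (H : U → U → ℝ) (k : ℕ) (x : U → ℝ) : al H k (-x) = al H k x := by
  have h1 : n1 (-x) = n1 x := by simp [n1]
  unfold al
  rw [h1, qf_neg]

private theorem al_smul_le41 {H : U → U → ℝ} {k : ℕ} {a : U → ℝ} (ha : Atom H k a) (t : ℝ)
    (ht : 0 ≤ t) : al H k (t • a) ≤ t ^ 2 := by
  unfold al
  refine max_le ?_ ?_
  · rw [n1_smul, abs_of_nonneg ht, mul_pow]
    have h1 : n1 a ^ 2 ≤ 1 := pow_le_one₀ (n1_nonneg a) ha.one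
    exact mul_le_of_le_one_right (sq_nonneg t) h1
  · rw [qf_smul]
    have h1 := ha.quad
    have h2 := mul_le_mul_of_nonneg_left h1 (sq_nonneg t)
    linarith

private theorem sc_zero41 : sc (0 : U → ℝ) = 0 := by
  classical
  unfold sc
  simp

private theorem sc_smul_le41 (t : ℝ) (x : U → ℝ) : sc (t • x) ≤ sc x := by
  classical
  unfold sc
  refine Finset.card_le_card fun u hu => ?_
  rw [Finset.mem_filter] at hu ⊢
  refine ⟨hu.1, fun h => hu.2 ?_⟩
  rw [Pi.smul_apply, h, smul_zero]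

private theorem sc_neg41 (x : U → ℝ) : sc (-x) = sc x := by
  classical
  unfold sc
  simp

private theorem convex_E41 {Ψ : (U → ℝ) → ℝ} (hΨ : ConvexOn ℝ Set.univ Ψ) (T : Tr (U → ℝ))
    (z : U → ℝ) (c : ℝ) :
    ConvexOn ℝ Set.univ (fun y : U → ℝ => T.E (fun s => Ψ (z + c • y + s.sum))) := by
  refine ⟨convex_univ, fun x _ y _ a b ha hb hab => ?_⟩
  simp only [smul_eq_mul]
  rw [← Tree.E_mul, ← Tree.E_mul, ← Tree.E_add]
  refine Tree.E_mono (Tree.All_of_forall T fun s => ?_)
  have h := hΨ.2 (Set.mem_univ (z + c • x + s.sum)) (Set.mem_univ (z + c • y + s.sum)) ha hb hab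
  simp only [smul_eq_mul] at h
  refine le_trans (le_of_eq ?_) h
  congr 1
  ext u
  simp only [Pi.add_apply, Pi.smul_apply, smul_eq_mul]
  have hb' : b = 1 - a := by linarith
  rw [hb']
  ring

private theorem nz_cons41 (x : U → ℝ) (s : List (U → ℝ)) [Decidable (x = 0)] :
    nz (x :: s) = (if x = 0 then (0 : ℝ) else 1) + nz s := by
  unfold nz
  rw [List.map_cons, List.sum_cons]
  congr 1
  split_ifs <;> rfl

private theorem step41 {H : U → U → ℝ} {k : ℕ} {p : Seminorm ℝ (U → ℝ)} (hp : IsGauge H k p)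
    {F : (U → ℝ) → ℝ} (hF : ConvexOn ℝ Set.univ F) (x : U → ℝ) (η : ℝ) (hη : 0 < η) :
    ∃ x' : U → ℝ, sc x' ≤ 4096 ^ k ∧ (x = 0 → x' = 0) ∧ al H k x' ≤ p x ^ 2 + η ∧
      F x ≤ F x' := by
  by_cases hx : x = 0
  · refine ⟨0, by rw [sc_zero41]; exact Nat.zero_le _, fun _ => rfl, ?_, by rw [hx]⟩
    rw [al_zero41]
    positivity
  · have h0 : 0 ≤ p x := apply_nonneg p x
    have h1 : p x < √(p x ^ 2 + η) := by
      apply Real.lt_sqrt_of_sq_lt
      linarith
    obtain ⟨a, ha, hle⟩ := hp.hull F hF x _ h1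
    refine ⟨√(p x ^ 2 + η) • a, (sc_smul_le41 _ _).trans ha.supp, fun h => absurd h hx, ?_, hle⟩
    refine (al_smul_le41 ha _ (Real.sqrt_nonneg _)).trans ?_
    rw [Real.sq_sqrt (by positivity)]

theorem hull_reduce {H : U → U → ℝ} {k : ℕ} {p : Seminorm ℝ (U → ℝ)} (hp : IsGauge H k p)
    {Ψ : (U → ℝ) → ℝ} (hΨ : ConvexOn ℝ Set.univ Ψ) (T : Tr (U → ℝ)) (z : U → ℝ) (m η : ℝ)
    (hη : 0 < η) (hT : T.All (fun s' => nz s' ≤ m)) :
    ∃ T' : Tr (U → ℝ), T'.All (fun s' => (∀ v ∈ s', sc v ≤ 4096 ^ k) ∧ nz s' ≤ m) ∧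
      T.E (fun s' => Ψ (z + s'.sum)) ≤ T'.E (fun s' => Ψ (z + s'.sum)) ∧
      T'.E (fun s' => (s'.map (al H k)).sum) ≤ T.E (fun s' => (s'.map fun v => p v ^ 2).sum) + η := by
  classical
  induction T generalizing z m η with
  | leaf =>
    refine ⟨.leaf, ⟨by simp, hT⟩, le_refl _, ?_⟩
    simp only [Tree.E, List.map_nil, List.sum_nil]
    linarith
  | node x l r ihl ihr =>
    have hF : ConvexOn ℝ Set.univ (fun y : U → ℝ =>
        (l.E (fun s => Ψ (z + (1 : ℝ) • y + s.sum)) +
          r.E (fun s => Ψ (z + (-1 : ℝ) • y + s.sum))) / 2) := by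
      have h1 := ((convex_E41 hΨ l z 1).add (convex_E41 hΨ r z (-1))).smul
        (show (0 : ℝ) ≤ 1 / 2 by norm_num)
      refine h1.congr fun y _ => ?_
      simp only [Pi.add_apply, smul_eq_mul]
      ring
    obtain ⟨x', hs, h0, hal, hle⟩ := step41 hp hF x (η / 2) (by positivity)
    set c : ℝ := if x = 0 then (0 : ℝ) else 1 with hc
    have hc' : (if x' = 0 then (0 : ℝ) else 1) ≤ c := by
      by_cases hx : x = 0
      · rw [if_pos (h0 hx), hc, if_pos hx]
      · rw [hc, if_neg hx]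
        split_ifs
        · norm_num
        · norm_num
    have hTl : l.All (fun s' => nz s' ≤ m - c) := by
      refine Tree.All_mono hT.1 fun s hs' => ?_
      change nz (x :: s) ≤ m at hs'
      rw [nz_cons41] at hs'
      rw [hc]
      linarith
    have hTr : r.All (fun s' => nz s' ≤ m - c) := by
      refine Tree.All_mono hT.2 fun s hs' => ?_
      change nz (-x :: s) ≤ m at hs'
      rw [nz_cons41] at hs'
      simp only [neg_eq_zero] at hs'
      rw [hc]
      linarith
    obtain ⟨l', hl1, hl2, hl3⟩ := ihl (z + x') (m - c) (η / 2) (by positivity) hTl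
    obtain ⟨r', hr1, hr2, hr3⟩ := ihr (z - x') (m - c) (η / 2) (by positivity) hTr
    refine ⟨.node x' l' r', ⟨?_, ?_⟩, ?_, ?_⟩
    · refine Tree.All_mono hl1 fun s hs' => ⟨?_, ?_⟩
      · intro v hv
        rcases List.mem_cons.1 hv with rfl | hv
        · exact hs
        · exact hs'.1 v hv
      · rw [nz_cons41]
        linarith [hs'.2]
    · refine Tree.All_mono hr1 fun s hs' => ⟨?_, ?_⟩
      · intro v hv
        rcases List.mem_cons.1 hv with rfl | hv
        · rw [sc_neg41]; exact hs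
        · exact hs'.1 v hv
      · rw [nz_cons41]
        simp only [neg_eq_zero]
        linarith [hs'.2]
    · simp only [Tree.E, List.sum_cons]
      simp only [one_smul, neg_smul] at hle
      simp only [← add_assoc, sub_eq_add_neg] at hl2 hr2 ⊢
      linarith
    · simp only [Tree.E, List.map_cons, List.sum_cons]
      rw [Tree.E_add, Tree.E_add, Tree.E_add, Tree.E_add, Tree.E_const, Tree.E_const,
        Tree.E_const, Tree.E_const, al_neg41, map_neg_eq_map]
      linarith

theorem level_est {H : U → U → ℝ} {K k s : ℕ} (hP : Pos H K) (hk : k + s ≤ K)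
    {p p' : Seminorm ℝ (U → ℝ)} (hp : IsGauge H k p) (hp' : IsGauge H (k + s) p')
    (T : Tr (U → ℝ)) (hT : T.All (fun s' => nz s' ≤ 4096 ^ s)) :
    T.E (fun s' => p' s'.sum ^ 2) ≤
      3 * 4096 ^ s * T.E (fun s' => (s'.map fun v => p v ^ 2).sum) := by
  have hΨ : ConvexOn ℝ Set.univ (fun y : U → ℝ => p' y ^ 2) :=
    p'.convexOn.pow (fun y _ => apply_nonneg p' y) 2
  have key : ∀ η : ℝ, 0 < η → T.E (fun s' => p' s'.sum ^ 2) ≤
      3 * 4096 ^ s * (T.E (fun s' => (s'.map fun v => p v ^ 2).sum) + η) := by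
    intro η hη
    obtain ⟨T', h1, h2, h3⟩ := hull_reduce hp hΨ T 0 (4096 ^ s) η hη hT
    simp only [zero_add] at h2
    have h4 := level_atomic hP hk hp' T' h1
    refine h2.trans (h4.trans ?_)
    exact mul_le_mul_of_nonneg_left h3 (by positivity)
  have hc : (0 : ℝ) < 3 * 4096 ^ s := by positivity
  refine le_of_forall_pos_le_add fun ε hε => ?_
  have h := key (ε / (3 * 4096 ^ s)) (by positivity)
  rw [mul_add, mul_div_cancel₀ _ hc.ne'] at h
  exact h

end Pool.Agent.Helper58.NE
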