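import Pool.Agent.Helper58.NE.Defs

/-!
# Project NE, block A6: the `ℓ₂` infimal convolution of finitely many seminorms

PROOF. `N x = ⨅ (y : {y : ι → V // ∑ i, y i = x}), √(∑ i, P i (y i) ^ 2)` (the set of `y` is non-empty as `ι` is; the values are bounded below by `0`). Homogeneity: scale `y` (for `c ≠ 0`; `c = 0` gives `N 0 = 0` with
`y = 0`). Triangle inequality: Minkowski in `ℓ₂`: `√(∑ (P i (y i + y' i))²) ≤ √(∑ (P i (y i) + P i (y' i))²) ≤ √(∑ P i (y i)²) + √(∑ P i (y' i)²)` (for example `Real.Lp_add_le` with `p = 2`, or Cauchy-Schwarz).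
`Seminorm.of`. The two properties: `ciInf_le`, `exists_lt_of_ciInf_lt`.
-/

namespace Pool.Agent.Helper58.NE

open Pool.Agent.Helper25.NU

variable {ι : Type} [Fintype ι] {V : Type} [AddCommGroup V] [Module ℝ V]

private noncomputable def q24 (P : ι → Seminorm ℝ V) (y : ι → V) : ℝ := √(∑ i, P i (y i) ^ 2)

private theorem q24_nonneg (P : ι → Seminorm ℝ V) (y : ι → V) : 0 ≤ q24 P y := Real.sqrt_nonneg _

private theorem q24_sq (P : ι → Seminorm ℝ V) (y : ι → V) : q24 P y ^ 2 = ∑ i, P i (y i) ^ 2 :=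
  Real.sq_sqrt (Finset.sum_nonneg fun _ _ => sq_nonneg _)

private theorem q24_add (P : ι → Seminorm ℝ V) (y z : ι → V) : q24 P (y + z) ≤ q24 P y + q24 P z := by
  have h0 : 0 ≤ q24 P y + q24 P z := add_nonneg (q24_nonneg P y) (q24_nonneg P z)
  refine le_of_sq_le_sq ?_ h0
  rw [q24_sq]
  have h1 : ∀ i, P i ((y + z) i) ^ 2 ≤ P i (y i) ^ 2 + 2 * (P i (y i) * P i (z i)) + P i (z i) ^ 2 := by
    intro i
    have h2 : P i ((y + z) i) ≤ P i (y i) + P i (z i) := map_add_le_add (P i) (y i) (z i)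
    have h3 : 0 ≤ P i ((y + z) i) := apply_nonneg (P i) _
    nlinarith
  have h2 : ∑ i, P i (y i) * P i (z i) ≤ q24 P y * q24 P z := by
    refine le_of_sq_le_sq ?_ (mul_nonneg (q24_nonneg P y) (q24_nonneg P z))
    rw [mul_pow, q24_sq, q24_sq]
    exact Finset.sum_mul_sq_le_sq_mul_sq _ _ _
  calc ∑ i, P i ((y + z) i) ^ 2
      ≤ ∑ i, (P i (y i) ^ 2 + 2 * (P i (y i) * P i (z i)) + P i (z i) ^ 2) := Finset.sum_le_sum fun i _ => h1 i
    _ = ∑ i, P i (y i) ^ 2 + 2 * (∑ i, P i (y i) * P i (z i)) + ∑ i, P i (z i) ^ 2 := by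
        rw [Finset.sum_add_distrib, Finset.sum_add_distrib, Finset.mul_sum]
    _ ≤ (q24 P y + q24 P z) ^ 2 := by
        rw [← q24_sq, ← q24_sq]
        nlinarith

private theorem q24_smul (P : ι → Seminorm ℝ V) (c : ℝ) (y : ι → V) : q24 P (c • y) = |c| * q24 P y := by
  have h1 : ∑ i, P i ((c • y) i) ^ 2 = |c| ^ 2 * ∑ i, P i (y i) ^ 2 := by
    rw [Finset.mul_sum]
    refine Finset.sum_congr rfl fun i _ => ?_
    rw [Pi.smul_apply, map_smul_eq_mul, Real.norm_eq_abs, mul_pow]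
  unfold q24
  rw [h1, Real.sqrt_mul (by positivity), Real.sqrt_sq (abs_nonneg c)]

private noncomputable def N24 (P : ι → Seminorm ℝ V) (x : V) : ℝ := ⨅ y : {y : ι → V // ∑ i, y i = x}, q24 P y

private theorem N24_bdd (P : ι → Seminorm ℝ V) (x : V) :
    BddBelow (Set.range fun y : {y : ι → V // ∑ i, y i = x} => q24 P y) :=
  ⟨0, by rintro _ ⟨y, rfl⟩; exact q24_nonneg P _⟩

private theorem N24_le (P : ι → Seminorm ℝ V) (y : ι → V) : N24 P (∑ i, y i) ≤ q24 P y :=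
  ciInf_le (N24_bdd P _) (⟨y, rfl⟩ : {z : ι → V // ∑ i, z i = ∑ i, y i})

private theorem N24_ex [Nonempty ι] (P : ι → Seminorm ℝ V) (x : V) (ε : ℝ) (hε : 0 < ε) :
    ∃ y : ι → V, ∑ i, y i = x ∧ q24 P y < N24 P x + ε := by
  classical
  obtain ⟨i0⟩ := (inferInstance : Nonempty ι)
  haveI : Nonempty {y : ι → V // ∑ i, y i = x} := ⟨⟨Pi.single i0 x, by simp⟩⟩
  obtain ⟨y, hy⟩ := exists_lt_of_ciInf_lt (show N24 P x < N24 P x + ε by linarith)
  exact ⟨y, y.2, hy⟩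

private theorem N24_nonneg (P : ι → Seminorm ℝ V) (x : V) : 0 ≤ N24 P x :=
  Real.iInf_nonneg fun y => q24_nonneg P y

private theorem N24_add [Nonempty ι] (P : ι → Seminorm ℝ V) (x z : V) : N24 P (x + z) ≤ N24 P x + N24 P z := by
  refine le_of_forall_pos_le_add fun ε hε => ?_
  obtain ⟨y, rfl, hy⟩ := N24_ex P x (ε / 2) (by positivity)
  obtain ⟨w, rfl, hw⟩ := N24_ex P z (ε / 2) (by positivity)
  have h1 := N24_le P (y + w)
  have h2 : ∑ i, (y + w) i = ∑ i, y i + ∑ i, w i := by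
    simp only [Pi.add_apply]
    rw [Finset.sum_add_distrib]
  rw [h2] at h1
  have h3 := q24_add P y w
  linarith

private theorem N24_smul [Nonempty ι] (P : ι → Seminorm ℝ V) (c : ℝ) (x : V) : N24 P (c • x) ≤ ‖c‖ * N24 P x := by
  refine le_of_forall_pos_le_add fun ε hε => ?_
  obtain ⟨y, rfl, hy⟩ := N24_ex P x (ε / (|c| + 1)) (by positivity)
  have h1 := N24_le P (c • y)
  have h2 : ∑ i, (c • y) i = c • ∑ i, y i := by
    simp only [Pi.smul_apply]
    rw [Finset.smul_sum]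
  rw [h2, q24_smul] at h1
  rw [Real.norm_eq_abs]
  have h3 : |c| * q24 P y ≤ |c| * (N24 P (∑ i, y i) + ε / (|c| + 1)) :=
    mul_le_mul_of_nonneg_left hy.le (abs_nonneg c)
  have h4 : |c| * (ε / (|c| + 1)) ≤ ε := by
    rw [mul_div_assoc', div_le_iff₀ (by positivity)]
    nlinarith [abs_nonneg c]
  linarith

private theorem N24_zero [Nonempty ι] (P : ι → Seminorm ℝ V) : N24 P 0 = 0 := by
  have h1 := N24_smul P 0 0
  rw [smul_zero, norm_zero, zero_mul] at h1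
  exact le_antisymm h1 (N24_nonneg P 0)

theorem exists_infconv [Nonempty ι] (P : ι → Seminorm ℝ V) :
    ∃ N : Seminorm ℝ V, (∀ y : ι → V, N (∑ i, y i) ^ 2 ≤ ∑ i, P i (y i) ^ 2) ∧
      ∀ (x : V) (η : ℝ), 0 < η → ∃ y : ι → V, ∑ i, y i = x ∧ ∑ i, P i (y i) ^ 2 ≤ N x ^ 2 + η := by
  refine ⟨Seminorm.ofSMulLE (N24 P) (N24_zero P) (N24_add P) (N24_smul P), ?_, ?_⟩
  · intro y
    change N24 P (∑ i, y i) ^ 2 ≤ _
    rw [← q24_sq]
    exact pow_le_pow_left₀ (N24_nonneg P _) (N24_le P y) 2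
  · intro x η hη
    change ∃ y : ι → V, ∑ i, y i = x ∧ ∑ i, P i (y i) ^ 2 ≤ N24 P x ^ 2 + η
    have hN := N24_nonneg P x
    have hε : 0 < min 1 (η / (2 * N24 P x + 1)) := lt_min one_pos (by positivity)
    obtain ⟨y, hy, hq⟩ := N24_ex P x _ hε
    refine ⟨y, hy, ?_⟩
    rw [← q24_sq]
    set ε := min 1 (η / (2 * N24 P x + 1)) with hεdef
    have h1 : ε ≤ 1 := min_le_left _ _
    have h2 : ε * (2 * N24 P x + 1) ≤ η := by
      rw [← le_div_iff₀ (by positivity)]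
      exact min_le_right _ _
    have h3 : q24 P y ^ 2 ≤ (N24 P x + ε) ^ 2 := pow_le_pow_left₀ (q24_nonneg P y) hq.le 2
    nlinarith

end Pool.Agent.Helper58.NE
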