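import Pool.Agent.Helper58.NE.Defs

/-!
# Project NE, block C3: the function `kap`

`∫₀^∞ (1+a)^{-2} da = 1` (antiderivative `-1/(1+a)`, `integral_Ioi_of_hasDerivAt_of_tendsto`), domination by `((1+a)^2)⁻¹` for `n ≥ 0`; `kap n ≤ ∫ e^{-a n} da = 1/n`.
-/

namespace Pool.Agent.Helper58.NE

open MeasureTheory

private theorem deriv24 (a : ℝ) (ha : 0 ≤ a) :
    HasDerivAt (fun a : ℝ => -(1 + a)⁻¹) (((1 + a) ^ 2)⁻¹) a := by
  have h0 : (1 + a) ≠ 0 := by positivity
  have h1 : HasDerivAt (fun a : ℝ => 1 + a) 1 a := (hasDerivAt_id a).const_add 1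
  have h2 : HasDerivAt (fun a : ℝ => -(1 + a)⁻¹) (-(-1 / (1 + a) ^ 2)) a := (h1.inv h0).neg
  have h3 : -(-1 / (1 + a) ^ 2) = ((1 + a) ^ 2)⁻¹ := by
    rw [neg_div, neg_neg, one_div]
  rwa [h3] at h2

private theorem tendsto24 : Filter.Tendsto (fun a : ℝ => -(1 + a)⁻¹) Filter.atTop (nhds 0) := by
  have h1 : Filter.Tendsto (fun a : ℝ => (1 + a)⁻¹) Filter.atTop (nhds 0) :=
    tendsto_inv_atTop_zero.comp (Filter.tendsto_atTop_add_const_left _ 1 Filter.tendsto_id)
  have h2 := h1.neg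
  rwa [neg_zero] at h2

private theorem cont24 : ContinuousOn (fun a : ℝ => ((1 + a) ^ 2)⁻¹) (Set.Ioi 0) := by
  refine ContinuousOn.inv₀ (by fun_prop) ?_
  intro a ha
  have h0 : (0 : ℝ) < a := ha
  positivity

theorem integrable_w : IntegrableOn (fun a : ℝ => ((1 + a) ^ 2)⁻¹) (Set.Ioi 0) := by
  refine integrableOn_Ioi_deriv_of_nonneg' (g := fun a : ℝ => -(1 + a)⁻¹) (l := 0) ?_ ?_ tendsto24
  · intro a ha
    exact deriv24 a ha
  · intro a _
    positivity

theorem integral_w : ∫ a in Set.Ioi (0 : ℝ), ((1 + a) ^ 2)⁻¹ = 1 := by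
  have h := integral_Ioi_of_hasDerivAt_of_tendsto' (f := fun a : ℝ => -(1 + a)⁻¹) (m := 0)
    (fun a ha => deriv24 a ha) integrable_w tendsto24
  rw [h]
  norm_num

theorem integrable_kap {n : ℝ} (hn : 0 ≤ n) :
    IntegrableOn (fun a : ℝ => Real.exp (-(a * n)) * ((1 + a) ^ 2)⁻¹) (Set.Ioi 0) := by
  refine Integrable.mono' integrable_w ?_ ?_
  · refine ContinuousOn.aestronglyMeasurable ?_ measurableSet_Ioi
    exact ContinuousOn.mul (by fun_prop) cont24
  · filter_upwards [ae_restrict_mem measurableSet_Ioi] with a ha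
    have h0 : (0 : ℝ) < a := ha
    have h1 : Real.exp (-(a * n)) ≤ 1 := by
      rw [Real.exp_le_one_iff]
      have := mul_nonneg h0.le hn
      linarith
    have h2 : 0 ≤ ((1 + a) ^ 2)⁻¹ := by positivity
    rw [Real.norm_eq_abs, abs_of_nonneg (by positivity)]
    exact mul_le_of_le_one_left h2 h1

theorem kap_zero : kap 0 = 1 := by
  have h : ∀ a : ℝ, Real.exp (-(a * 0)) * ((1 + a) ^ 2)⁻¹ = ((1 + a) ^ 2)⁻¹ := by
    intro a
    rw [mul_zero, neg_zero, Real.exp_zero, one_mul]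
  unfold kap
  simp only [h]
  exact integral_w

theorem kap_nonneg (n : ℝ) : 0 ≤ kap n := by
  unfold kap
  refine setIntegral_nonneg measurableSet_Ioi fun a _ => ?_
  positivity

theorem kap_anti {m n : ℝ} (hm : 0 ≤ m) (h : m ≤ n) : kap n ≤ kap m := by
  unfold kap
  refine setIntegral_mono_on (integrable_kap (hm.trans h)) (integrable_kap hm) measurableSet_Ioi ?_
  intro a ha
  have h0 : (0 : ℝ) < a := ha
  have h2 : 0 ≤ ((1 + a) ^ 2)⁻¹ := by positivity
  refine mul_le_mul_of_nonneg_right ?_ h2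
  refine Real.exp_le_exp.mpr ?_
  have := mul_le_mul_of_nonneg_left h h0.le
  linarith

theorem kap_le_inv {n : ℝ} (hn : 0 < n) : kap n ≤ 1 / n := by
  have h1 : IntegrableOn (fun a : ℝ => Real.exp (-n * a)) (Set.Ioi 0) :=
    integrableOn_exp_mul_Ioi (by linarith) 0
  have h2 : ∫ a in Set.Ioi (0 : ℝ), Real.exp (-n * a) = 1 / n := by
    rw [integral_exp_mul_Ioi (by linarith) 0]
    rw [mul_zero, Real.exp_zero]
    field_simp
  rw [← h2]
  unfold kap
  refine setIntegral_mono_on (integrable_kap hn.le) h1 measurableSet_Ioi ?_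
  intro a ha
  have h0 : (0 : ℝ) < a := ha
  have h3 : ((1 + a) ^ 2)⁻¹ ≤ 1 := by
    refine inv_le_one_of_one_le₀ ?_
    nlinarith
  have h4 : -(a * n) = -n * a := by ring
  rw [h4]
  exact mul_le_of_le_one_right (Real.exp_pos _).le h3

end Pool.Agent.Helper58.NE
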