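import Pool.Agent.Helper58.NE.KernelA
import Pool.Agent.Helper58.NE.GeoForest

/-!
# Project NE, block C4b: the kernel of a graph of large girth is positive on small supports

`qf_Hk_ge`: the difference `Hk G r u v - 1[u = v] - HF F r u v` is zero if `G.dist u v ≤ L` (`u`, `v` in the support of `x`), and for `G.dist u v > L` both `kap (G.dist / r)` and `HF` lie in `[0, kap (L/r)]`
(`kap_anti`, `dist_le_of_le`), `kap (L / r) ≤ r / L ≤ 1 / 4096^K` (`kap_le_inv`). So `|∑∑ (..) x u x v| ≤ (1 / 4096^K) n1 x ^ 2`.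
`pos_Hk`: `exists_forest` with `S` = support of `x`, `m = 4096 ^ K + 1`; `qf (HF F r) x ≥ 0` by `qf_HF` and `forest_psd`.
`Hk_diag`: `kap_zero`.
-/

namespace Pool.Agent.Helper58.NE

open Pool.Agent.Helper25.NU MeasureTheory

variable {V : Type} [Fintype V]

private theorem term94 {G F : SimpleGraph V} {r : ℝ} (hr : 0 < r) {K L : ℕ} (hL0 : 0 < L)
    (hL : r / L ≤ 1 / 4096 ^ K) (hFG : F ≤ G) (x : V → ℝ)
    (h : ∀ u, x u ≠ 0 → ∀ v, x v ≠ 0 → G.dist u v ≤ L → F.Reachable u v ∧ F.dist u v = G.dist u v)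
    (u v : V) : HF F r u v * (x u * x v) ≤
      kap (G.dist u v / r) * (x u * x v) + 1 / 4096 ^ K * (|x u| * |x v|) := by
  have hK : (0 : ℝ) ≤ 1 / 4096 ^ K := by positivity
  have hxx : 0 ≤ |x u| * |x v| := mul_nonneg (abs_nonneg _) (abs_nonneg _)
  by_cases hu : x u = 0
  · rw [hu]; simp
  by_cases hv : x v = 0
  · rw [hv]; simp
  by_cases hd : G.dist u v ≤ L
  · obtain ⟨h1, h2⟩ := h u hu v hv hd
    have e : HF F r u v = kap (G.dist u v / r) := by
      unfold HF
      rw [if_pos h1, h2]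
    rw [e]
    have := mul_nonneg hK hxx
    linarith
  · have hd' : (L : ℝ) ≤ G.dist u v := by exact_mod_cast (not_le.1 hd).le
    have hLr : (0 : ℝ) < L := by exact_mod_cast hL0
    have hLr' : (0 : ℝ) < L / r := div_pos hLr hr
    have k1 : kap (L / r) ≤ 1 / 4096 ^ K := by
      refine (kap_le_inv hLr').trans ?_
      rwa [one_div_div]
    have k2 : kap (G.dist u v / r) ≤ 1 / 4096 ^ K := by
      refine (kap_anti hLr'.le ?_).trans k1
      exact div_le_div_of_nonneg_right hd' hr.le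
    have k3 : 0 ≤ kap (G.dist u v / r) := kap_nonneg _
    have k4 : 0 ≤ HF F r u v ∧ HF F r u v ≤ 1 / 4096 ^ K := by
      unfold HF
      by_cases hR : F.Reachable u v
      · rw [if_pos hR]
        refine ⟨kap_nonneg _, (kap_anti hLr'.le ?_).trans k1⟩
        refine div_le_div_of_nonneg_right (hd'.trans ?_) hr.le
        exact_mod_cast dist_le_of_le hFG hR
      · rw [if_neg hR]
        exact ⟨le_rfl, hK⟩
    have h5 : |HF F r u v - kap (G.dist u v / r)| ≤ 1 / 4096 ^ K := by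
      rw [abs_le]
      constructor <;> linarith [k4.1, k4.2]
    have h6 : (HF F r u v - kap (G.dist u v / r)) * (x u * x v) ≤
        1 / 4096 ^ K * (|x u| * |x v|) := by
      refine (le_abs_self _).trans ?_
      rw [abs_mul, abs_mul]
      exact mul_le_mul_of_nonneg_right h5 hxx
    linarith

theorem qf_Hk_ge {G F : SimpleGraph V} {r : ℝ} (hr : 0 < r) {K L : ℕ} (hL0 : 0 < L)
    (hL : r / L ≤ 1 / 4096 ^ K) (hFG : F ≤ G) (x : V → ℝ)
    (h : ∀ u, x u ≠ 0 → ∀ v, x v ≠ 0 → G.dist u v ≤ L → F.Reachable u v ∧ F.dist u v = G.dist u v) :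
    qf (HF F r) x + e2 x ≤ qf (Hk G r) x + n1 x ^ 2 / 4096 ^ K := by
  classical
  have h1 : qf (HF F r) x ≤ (∑ u, ∑ v, kap (G.dist u v / r) * (x u * x v)) +
      ∑ u, ∑ v, 1 / 4096 ^ K * (|x u| * |x v|) := by
    unfold qf
    rw [← Finset.sum_add_distrib]
    refine Finset.sum_le_sum fun u _ => ?_
    rw [← Finset.sum_add_distrib]
    exact Finset.sum_le_sum fun v _ => term94 hr hL0 hL hFG x h u v
  have h2 : ∑ u, ∑ v, 1 / 4096 ^ K * (|x u| * |x v|) = n1 x ^ 2 / 4096 ^ K := by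
    unfold n1
    rw [sq, Finset.sum_mul_sum, Finset.sum_div]
    refine Finset.sum_congr rfl fun u _ => ?_
    rw [Finset.sum_div]
    refine Finset.sum_congr rfl fun v _ => ?_
    ring
  have h3 : qf (Hk G r) x = (∑ u, ∑ v, kap (G.dist u v / r) * (x u * x v)) + e2 x := by
    unfold qf e2
    rw [← Finset.sum_add_distrib]
    refine Finset.sum_congr rfl fun u _ => ?_
    have h4 : x u ^ 2 = ∑ v, if u = v then x u * x v else 0 := by
      rw [Finset.sum_ite_eq]
      simp [sq]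
    rw [h4, ← Finset.sum_add_distrib]
    refine Finset.sum_congr rfl fun v _ => ?_
    unfold Hk
    by_cases huv : u = v
    · rw [if_pos huv, if_pos huv]
      ring
    · rw [if_neg huv, if_neg huv]
      ring
  rw [h3, ← h2]
  linarith

theorem pos_Hk (G : SimpleGraph V) (hG : G.Connected) {r : ℝ} (hr : 0 < r) {K L W : ℕ}
    (hW : NoShort G W) (hWL : (4096 ^ K + 1) ^ 2 * L ≤ W) (hL0 : 0 < L)
    (hL : r / L ≤ 1 / 4096 ^ K) : Pos (Hk G r) K := by
  classical
  intro x hx
  obtain ⟨F, hFG, hFa, hF⟩ := exists_forest G hG hW (Finset.univ.filter fun u => x u ≠ 0)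
    (m := 4096 ^ K + 1) (by
      refine le_trans (le_of_eq ?_) (hx.trans (Nat.le_succ _))
      unfold sc
      congr) hWL
  have h1 := qf_Hk_ge hr hL0 hL hFG x (fun u hu v hv hd =>
    hF u (Finset.mem_filter.2 ⟨Finset.mem_univ _, hu⟩) v
      (Finset.mem_filter.2 ⟨Finset.mem_univ _, hv⟩) hd)
  have h2 : 0 ≤ qf (HF F r) x := by
    rw [qf_HF F hr x]
    refine setIntegral_nonneg measurableSet_Ioi fun a ha => ?_
    have ha' : (0 : ℝ) < a := ha
    refine mul_nonneg ?_ (by positivity)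
    refine forest_psd F hFa (Real.exp_pos _).le ?_ x
    rw [Real.exp_le_one_iff]
    have := div_pos ha' hr
    linarith
  linarith

theorem Hk_diag (G : SimpleGraph V) (r : ℝ) (u : V) : Hk G r u u ≤ 2 := by
  unfold Hk
  rw [if_pos rfl, SimpleGraph.dist_self, Nat.cast_zero, zero_div, kap_zero]
  norm_num

end Pool.Agent.Helper58.NE
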