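import Pool.Agent.Helper58.NE.Forest
import Pool.Agent.Helper58.NE.Kappa

/-!
# Project NE, block C4a: the kernel of a forest as an integral

`HF F r u v = kap (F.dist u v / r)` if `F.Reachable u v`, else `0`.
`qf_HF`: `kap (d / r) = ∫ exp (-(a / r)) ^ d (1+a)^{-2} da` (`exp (-(a/r)) ^ d = exp (-(a * (d / r)))`), exchange the finite sums and the integral (`integral_finsetSum`, `integral_const_mul`); integrability by `integrable_kap`.
-/

namespace Pool.Agent.Helper58.NE

open Pool.Agent.Helper25.NU MeasureTheory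

open Classical in
/-- The kernel of a forest. -/
noncomputable def HF {V : Type} (F : SimpleGraph V) (r : ℝ) (u v : V) : ℝ :=
  if F.Reachable u v then kap (F.dist u v / r) else 0

variable {V : Type} [Fintype V]

open Classical in
private theorem eq56 (F : SimpleGraph V) {r : ℝ} (x : V → ℝ) (a : ℝ) :
    qf (fk F (Real.exp (-(a / r)))) x * ((1 + a) ^ 2)⁻¹ =
      ∑ u, ∑ v, (if F.Reachable u v then x u * x v else 0) *
        (Real.exp (-(a * (F.dist u v / r))) * ((1 + a) ^ 2)⁻¹) := by
  unfold qf
  rw [Finset.sum_mul]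
  apply Finset.sum_congr rfl
  intro u _
  rw [Finset.sum_mul]
  apply Finset.sum_congr rfl
  intro v _
  unfold fk
  by_cases h : F.Reachable u v
  · rw [if_pos h, if_pos h, ← Real.exp_nat_mul]
    have e : (F.dist u v : ℝ) * -(a / r) = -(a * (F.dist u v / r)) := by ring
    rw [e]
    ring
  · rw [if_neg h, if_neg h]
    ring

open Classical in
private theorem int_term56 (F : SimpleGraph V) {r : ℝ} (hr : 0 < r) (x : V → ℝ) (u v : V) :
    Integrable (fun a : ℝ => (if F.Reachable u v then x u * x v else 0) *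
        (Real.exp (-(a * (F.dist u v / r))) * ((1 + a) ^ 2)⁻¹)) (volume.restrict (Set.Ioi 0)) := by
  apply Integrable.const_mul
  exact integrable_kap (div_nonneg (Nat.cast_nonneg _) hr.le)

theorem integrable_HF (F : SimpleGraph V) {r : ℝ} (hr : 0 < r) (x : V → ℝ) :
    IntegrableOn (fun a : ℝ => qf (fk F (Real.exp (-(a / r)))) x * ((1 + a) ^ 2)⁻¹) (Set.Ioi 0) := by
  classical
  have h1 : (fun a : ℝ => qf (fk F (Real.exp (-(a / r)))) x * ((1 + a) ^ 2)⁻¹) =
      fun a : ℝ => ∑ u, ∑ v, (if F.Reachable u v then x u * x v else 0) *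
        (Real.exp (-(a * (F.dist u v / r))) * ((1 + a) ^ 2)⁻¹) := by
    funext a
    exact eq56 F x a
  rw [h1]
  exact integrable_finsetSum _ fun u _ => integrable_finsetSum _ fun v _ => int_term56 F hr x u v

theorem qf_HF (F : SimpleGraph V) {r : ℝ} (hr : 0 < r) (x : V → ℝ) :
    qf (HF F r) x =
      ∫ a in Set.Ioi (0 : ℝ), qf (fk F (Real.exp (-(a / r)))) x * ((1 + a) ^ 2)⁻¹ := by
  classical
  have h1 : (fun a : ℝ => qf (fk F (Real.exp (-(a / r)))) x * ((1 + a) ^ 2)⁻¹) =
      fun a : ℝ => ∑ u, ∑ v, (if F.Reachable u v then x u * x v else 0) *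
        (Real.exp (-(a * (F.dist u v / r))) * ((1 + a) ^ 2)⁻¹) := by
    funext a
    exact eq56 F x a
  rw [h1, integral_finsetSum _
    (fun u _ => integrable_finsetSum _ fun v _ => int_term56 F hr x u v)]
  unfold qf
  apply Finset.sum_congr rfl
  intro u _
  rw [integral_finsetSum _ (fun v _ => int_term56 F hr x u v)]
  apply Finset.sum_congr rfl
  intro v _
  rw [integral_const_mul]
  show HF F r u v * (x u * x v) = (if F.Reachable u v then x u * x v else 0) *
    kap (F.dist u v / r)
  unfold HF
  by_cases h : F.Reachable u v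
  · rw [if_pos h, if_pos h]
    ring
  · rw [if_neg h, if_neg h]
    ring

end Pool.Agent.Helper58.NE
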