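import Pool.Agent.Helper58.NE.Orth

/-!
# Project NE, block A3: the level estimate for atomic labels

PROOF of `level_atomic`. Write `q = 4096`, `M = s'.sum`. On each path: `sc M ≤ q^k nz ≤ q^(k+s)` (`sc_sum_le`), so by `Pos` (`k + s ≤ K`; `e2 ≥ 0`)
`qf H M ≥ - n1 M ^ 2 / q^K`. Let `t² = n1 M ^ 2 + q^(k+s) (qf H M + n1 M ^ 2 / q^K) / 2` (both summands are non-negative), `t = √(t²)`. Then `n1 M ≤ t` and
`q^(k+s) qf H M ≤ 2 t²`, so `p M ≤ t` (`IsGauge.up`), and `p M ^ 2 ≤ t²`. As `q^(k+s) / q^K ≤ 1`: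
`p M ^ 2 ≤ (3/2) n1 M ^ 2 + q^(k+s) qf H M / 2`. By `n1_sum_sq_le` and `nz ≤ q^s`: `n1 M ^ 2 ≤ q^s ∑ n1 v ^ 2 ≤ q^s ∑ al v` (`n1 v ^ 2 ≤ al H k v`,
`al ≥ 0`), and by `E_qf` (with `z = 0`) `E qf H M = E ∑ qf H v ≤ E ∑ 2 al v / q^k` (`q^k qf H v / 2 ≤ al v`).
So `E p M ^ 2 ≤ (3/2) q^s E ∑ al + q^s E ∑ al ≤ 3 q^s E ∑ al`.
-/

namespace Pool.Agent.Helper58.NE

open Pool.Agent.Helper25.NU

variable {U : Type} [Fintype U]

theorem al_nonneg (H : U → U → ℝ) (k : ℕ) (x : U → ℝ) : 0 ≤ al H k x :=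
  le_trans (sq_nonneg _) (le_max_left _ _)

/-- The deterministic part of the level estimate. -/
private theorem level_path {H : U → U → ℝ} {K k s : ℕ} (hP : Pos H K) (hk : k + s ≤ K)
    {p : Seminorm ℝ (U → ℝ)} (hp : IsGauge H (k + s) p) (l : List (U → ℝ))
    (h1 : ∀ v ∈ l, sc v ≤ 4096 ^ k) (h2 : nz l ≤ 4096 ^ s) :
    p l.sum ^ 2 ≤ 3 / 2 * 4096 ^ s * (l.map (al H k)).sum + 4096 ^ (k + s) / 2 * qf H l.sum := by
  have hsc : (sc l.sum : ℝ) ≤ 4096 ^ (k + s) := by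
    have h3 := sc_sum_le h1
    push_cast at h3
    refine h3.trans ?_
    rw [pow_add]
    exact mul_le_mul_of_nonneg_left h2 (by positivity)
  have hsc' : sc l.sum ≤ 4096 ^ (k + s) := by exact_mod_cast hsc
  have hpos := hP l.sum (hsc'.trans (Nat.pow_le_pow_right (by norm_num) hk))
  have he := e2_nonneg l.sum
  have hq : (0 : ℝ) < 4096 ^ (k + s) := by positivity
  have hqK : (0 : ℝ) < 4096 ^ K := by positivity
  have hle : (4096 : ℝ) ^ (k + s) ≤ 4096 ^ K := pow_le_pow_right₀ (by norm_num) hk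
  set n := n1 l.sum with hn
  set Q := qf H l.sum with hQ
  set q := (4096 : ℝ) ^ (k + s) with hqdef
  set N := (4096 : ℝ) ^ K with hN
  have hn0 : 0 ≤ n := n1_nonneg _
  have hA : 0 ≤ Q + n ^ 2 / N := he.trans hpos
  have ht2 : 0 ≤ n ^ 2 + q * (Q + n ^ 2 / N) / 2 := by positivity
  have hB : q * (Q + n ^ 2 / N) = q * Q + q / N * n ^ 2 := by ring
  have hC : q / N * n ^ 2 ≤ 1 * n ^ 2 :=
    mul_le_mul_of_nonneg_right ((div_le_one hqK).mpr hle) (sq_nonneg n)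
  have hC0 : 0 ≤ q / N * n ^ 2 := by positivity
  have hup := hp.up l.sum (√(n ^ 2 + q * (Q + n ^ 2 / N) / 2)) (Real.sqrt_nonneg _) hsc'
    (by
      apply Real.le_sqrt_of_sq_le
      have : 0 ≤ q * (Q + n ^ 2 / N) := by positivity
      linarith)
    (by
      rw [Real.sq_sqrt ht2, ← hqdef]
      have := sq_nonneg n
      linarith)
  have hp2 : p l.sum ^ 2 ≤ n ^ 2 + q * (Q + n ^ 2 / N) / 2 := by
    have h3 := pow_le_pow_left₀ (apply_nonneg p l.sum) hup 2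
    rwa [Real.sq_sqrt ht2] at h3
  have hn2 : n ^ 2 ≤ 4096 ^ s * (l.map (al H k)).sum := by
    refine (n1_sum_sq_le l).trans ?_
    have h3 : (l.map fun v => n1 v ^ 2).sum ≤ (l.map (al H k)).sum :=
      List.sum_le_sum fun v _ => le_max_left _ _
    have h4 : 0 ≤ (l.map fun v => n1 v ^ 2).sum :=
      List.sum_nonneg (by
        intro x hx
        obtain ⟨v, _, rfl⟩ := List.mem_map.mp hx
        exact sq_nonneg _)
    exact (mul_le_mul_of_nonneg_right h2 h4).trans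
      (mul_le_mul_of_nonneg_left h3 (by positivity))
  linarith

theorem level_atomic {H : U → U → ℝ} {K k s : ℕ} (hP : Pos H K) (hk : k + s ≤ K)
    {p : Seminorm ℝ (U → ℝ)} (hp : IsGauge H (k + s) p) (T : Tr (U → ℝ))
    (hT : T.All (fun s' => (∀ v ∈ s', sc v ≤ 4096 ^ k) ∧ nz s' ≤ 4096 ^ s)) :
    T.E (fun s' => p s'.sum ^ 2) ≤ 3 * 4096 ^ s * T.E (fun s' => (s'.map (al H k)).sum) := by
  have h1 : T.E (fun s' => p s'.sum ^ 2) ≤
      T.E (fun l => 3 / 2 * 4096 ^ s * (l.map (al H k)).sum +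
        4096 ^ (k + s) / 2 * qf H l.sum) :=
    Tree.E_mono (Tree.All_mono hT fun l hl => level_path hP hk hp l hl.1 hl.2)
  rw [Tree.E_add, Tree.E_mul, Tree.E_mul] at h1
  have h2 : T.E (fun l => qf H l.sum) ≤ T.E (fun l => 2 / 4096 ^ k * (l.map (al H k)).sum) := by
    have h3 := E_qf H T 0
    have h4 : qf H 0 = 0 := by simp [qf]
    simp only [zero_add, h4] at h3
    rw [h3]
    refine Tree.E_mono (Tree.All_of_forall T fun l => ?_)
    rw [← List.sum_map_mul_left]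
    refine List.sum_le_sum fun v _ => ?_
    have h5 : 4096 ^ k * qf H v / 2 ≤ al H k v := le_max_right _ _
    have h6 : (0 : ℝ) < 4096 ^ k := by positivity
    rw [div_mul_eq_mul_div, le_div_iff₀ h6]
    linarith
  rw [Tree.E_mul] at h2
  have h7 : 0 ≤ T.E (fun s' => (s'.map (al H k)).sum) :=
    Tree.E_nonneg (Tree.All_of_forall T fun l => List.sum_nonneg (by
      intro x hx
      obtain ⟨v, _, rfl⟩ := List.mem_map.mp hx
      exact al_nonneg H k v))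
  have h8 := mul_le_mul_of_nonneg_left h2 (show (0 : ℝ) ≤ 4096 ^ (k + s) / 2 by positivity)
  have h9 : (4096 : ℝ) ^ (k + s) / 2 * (2 / 4096 ^ k * T.E (fun s' => (s'.map (al H k)).sum)) =
      4096 ^ s * T.E (fun s' => (s'.map (al H k)).sum) := by
    rw [pow_add]
    field_simp
  rw [h9] at h8
  have h10 : 0 ≤ (4096 : ℝ) ^ s * T.E (fun s' => (s'.map (al H k)).sum) := by positivity
  linarith

end Pool.Agent.Helper58.NE
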