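import Pool.Agent.Helper58.NE.XSpace
import Pool.Agent.Helper58.NE.Func
import Pool.Agent.Helper58.NE.Expander

/-!
# Project NE, block E1: the space and the graphs

PROOF. `C` of `exists_FB`, `C₀` of `exists_X`, `D = 133120`. For `i : ℕ` choose the parameters `r i ≥ i`, `K i`, `L i`, `Lb i`, `W i` (`exists_par D i`), and the graph `G i` on `Fin (n i)` of `exists_expander (W i) (max i (2 (D + 1) ^ Lb i))`. `U i = Fin (n i)`, `H i = Hk (G i) (r i)`:
`Pos` by `pos_Hk`, diagonal by `Hk_diag`. `exists_X` gives `X`. Constant `C₀ C`. Given `ε`, `n₀`: let `r₀` be that of `exists_FB` for `ε / C₀`, `i ≥ max n₀ r₀`, `f = v` for `L = Fin (n i)`, `b z = bz (G i) (r i) (Lb i) z`.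
Far: if `(G i).dist u w > Lb` then `φ (v u - v w) = bz u u - bz w u = 1 - 0 = 1` for the functional `φ` of `u`, `‖φ‖ ≤ 2`, so `‖v u - v w‖ ≥ 1/2`. So the pairs with `‖..‖ < 1/2` are at distance `≤ Lb`: at most `n (D+1)^Lb ≤ n² / 2` (`ball_card`).
-/

namespace Pool.Agent.Helper58.NE

theorem main_space :
    ∃ (X : Type) (_ : NormedAddCommGroup X) (_ : NormedSpace ℝ X) (_ : CompleteSpace X),
      UniformConvexSpace X ∧ ∃ C : ℝ, 0 < C ∧ ∀ ε : ℝ, 0 < ε → ∀ n₀ : ℕ,
        ∃ (n : ℕ) (G : SimpleGraph (Fin n)) (f : Fin n → X), n₀ ≤ n ∧ 0 < n ∧ G.Connected ∧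
          DegLe G 133120 ∧ Poinc 266240 G ∧ Fam C ε G f := by
  classical
  obtain ⟨C, hC1, hC⟩ := exists_FB
  obtain ⟨C₀, hC₀, hX⟩ := exists_X
  choose r K L Lb W hr P using fun i : ℕ => exists_par 133120 (i : ℝ)
  choose n G hn0 hn hG hD hW hP using
    fun i : ℕ => exists_expander (W i) (max i (2 * (133120 + 1) ^ Lb i))
  have hr0 : ∀ i, 0 < r i := fun i => lt_of_lt_of_le one_pos (P i).r_pos
  obtain ⟨X, i1, i2, i3, hUC, hv⟩ := hX (fun i => Fin (n i)) (fun i => Hk (G i) (r i)) K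
    (fun i => pos_Hk (G i) (hG i) (hr0 i) (hW i) (P i).WL (P i).L_pos (P i).rL)
    (fun i u => Hk_diag (G i) (r i) u)
  refine ⟨X, i1, i2, i3, hUC, C₀ * C, by positivity, ?_⟩
  intro ε hε n₀
  have hC₀0 : 0 < C₀ := by linarith
  obtain ⟨r₀, hr₀⟩ := hC (ε / C₀) (by positivity)
  obtain ⟨m, hm⟩ := exists_nat_ge r₀
  obtain ⟨i, hi⟩ : ∃ i : ℕ, i = max n₀ m := ⟨_, rfl⟩
  have hir : r₀ ≤ r i := by
    refine hm.trans (le_trans ?_ (hr i))
    rw [hi]
    exact_mod_cast le_max_right n₀ m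
  have hFB := hr₀ (Fin (n i)) (G i) 133120 (r i) (K i) (L i) (Lb i) (W i) (hG i) (hD i) (hW i) (P i)
  obtain ⟨v, hv1, hv2, hv3⟩ := hv i (Fin (n i)) (fun z => bz (G i) (r i) (Lb i) z) C hFB.1
  refine ⟨n i, G i, v, ?_, hn i, hG i, hD i, hP i, ⟨hv1, ?_, ?_⟩⟩
  · refine le_trans ?_ ((le_max_left i _).trans (hn0 i))
    rw [hi]; exact le_max_left _ _
  · intro u w huw
    obtain ⟨c, c', hc, hle⟩ := hFB.2 hir u w huw
    refine (hv2 u w c c' hc).trans ?_
    calc C₀ * fbn (K i) c c' ≤ C₀ * (ε / C₀) := mul_le_mul_of_nonneg_left hle hC₀0.le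
      _ = ε := by field_simp
  · have hnear : ∀ u w : Fin (n i), ‖v u - v w‖ < 1 / 2 → (G i).dist u w ≤ Lb i := by
      intro u w huw
      by_contra hd
      obtain ⟨φ, hφ, hφv⟩ := hv3 u
      have h1 : φ (v u - v w) = 1 := by
        rw [map_sub, hφv, hφv]
        have e1 : bz (G i) (r i) (Lb i) u u = 1 := by
          unfold bz
          rw [SimpleGraph.dist_self]
          simp
        have e2 : bz (G i) (r i) (Lb i) w u = 0 := by
          unfold bz
          rw [if_neg]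
          rw [SimpleGraph.dist_comm]
          exact hd
        rw [e1, e2, sub_zero]
      have h2 := φ.le_opNorm (v u - v w)
      rw [h1] at h2
      have h3 : ‖φ‖ * ‖v u - v w‖ ≤ 2 * ‖v u - v w‖ :=
        mul_le_mul_of_nonneg_right hφ (norm_nonneg _)
      have h4 : ‖(1 : ℝ)‖ = 1 := norm_one
      linarith
    have hcard : (Finset.univ.filter fun p : Fin (n i) × Fin (n i) => ‖v p.1 - v p.2‖ < 1 / 2).card ≤
        (Finset.univ.sigma (fun u : Fin (n i) =>
          Finset.univ.filter fun w => (G i).dist u w ≤ Lb i)).card := by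
      refine Finset.card_le_card_of_injOn (fun p => ⟨p.1, p.2⟩) ?_ ?_
      · rintro ⟨a, b⟩ hab
        have hab' := (Finset.mem_filter.1 (Finset.mem_coe.1 hab)).2
        refine Finset.mem_coe.2 (Finset.mem_sigma.2 ⟨Finset.mem_univ _, ?_⟩)
        exact Finset.mem_filter.2 ⟨Finset.mem_univ _, hnear a b hab'⟩
      · rintro ⟨a, b⟩ _ ⟨c, d⟩ _ h
        simp only [Sigma.mk.injEq, heq_eq_eq] at h
        obtain ⟨rfl, rfl⟩ := h
        rfl
    rw [Finset.card_sigma] at hcard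
    have hball : ∀ u : Fin (n i), (Finset.univ.filter fun w => (G i).dist u w ≤ Lb i).card ≤
        (133120 + 1) ^ Lb i := fun u => ball_card (hG i) (hD i) u (Lb i)
    have hsum : ∑ u : Fin (n i), (Finset.univ.filter fun w => (G i).dist u w ≤ Lb i).card ≤
        n i * (133120 + 1) ^ Lb i := by
      refine (Finset.sum_le_card_nsmul _ _ _ fun u _ => hball u).trans ?_
      simp
    have hN : 2 * (133120 + 1) ^ Lb i ≤ n i := (le_max_right _ _).trans (hn0 i)
    calc _ ≤ 2 * (n i * (133120 + 1) ^ Lb i) := Nat.mul_le_mul_left 2 (hcard.trans hsum)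
      _ = n i * (2 * (133120 + 1) ^ Lb i) := by ring
      _ ≤ n i * n i := Nat.mul_le_mul_left _ hN
      _ = n i ^ 2 := (sq _).symm

end Pool.Agent.Helper58.NE
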