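import Pool.Agent.Helper58.NE.Sys
import Pool.Agent.Helper58.NE.GaugeE2

/-!
# Project NE, block A9a: properties of the norm

`sys_def`: `√(e2 x) ≤ ∑ k √(e2 (y k)) + √(e2 (y none)) ≤ ∑ k √3 64^(-k) 2^k P k (y k) + 32^(-K) P none (y none) ≤ (4 (K + 1)) √(∑ P²)` (`gauge_e2`), so `N x = 0` gives `e2 x ≤ C η` for all `η > 0`, so `e2 x = 0`, `x = 0`.
`sys_single`: for `K = 0` take `y none = single`, `P none = √(e2) = 1`; for `K > 0` take `y (some 0) = single`: it is an atom of level `0` (`sc = 1`, `n1 = 1`, `qf = H u u ≤ 2`), so `g 0 ≤ 1` by `IsGauge.up`.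
`sys_fb`: for `x = ∑ y`: `|pr x b| ≤ ∑ k |pr (y k) b| + |pr (y none) b| ≤ ∑ k c k g k (y k) + c' 32^K √(e2 (y none))` (`IsGauge.hull` with `Ψ x = |pr x b|` gives `|pr x b| ≤ t |pr a b| ≤ t c k` for all `t > g k x`)
`= ∑ k (2^k c k) P k (y k) + c' P none (y none) ≤ fbn K c c' √(∑ P²)` (Cauchy-Schwarz), and `∑ P² ≤ N x ^ 2 + η`, `η → 0`.
-/

namespace Pool.Agent.Helper58.NE

open Pool.Agent.Helper25.NU

variable {U : Type} [Fintype U] [DecidableEq U]

private theorem pr_comb75 (a c : ℝ) (x y b : U → ℝ) : pr (a • x + c • y) b = a * pr x b + c * pr y b := by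
  unfold pr
  rw [Finset.mul_sum, Finset.mul_sum, ← Finset.sum_add_distrib]
  refine Finset.sum_congr rfl fun u _ => ?_
  simp only [Pi.add_apply, Pi.smul_apply, smul_eq_mul]
  ring

private theorem pr_smul75 (a : ℝ) (x b : U → ℝ) : pr (a • x) b = a * pr x b := by
  have h := pr_comb75 a 0 x 0 b
  simpa using h

private theorem abs_pr_sum75 {ι : Type} (s : Finset ι) (y : ι → U → ℝ) (b : U → ℝ) :
    |pr (∑ i ∈ s, y i) b| ≤ ∑ i ∈ s, |pr (y i) b| := by
  refine Finset.le_sum_of_subadditive (fun v => |pr v b|) ?_ ?_ s y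
  · simp [pr]
  · intro v w
    have h := pr_comb75 1 1 v w b
    rw [one_smul, one_smul, one_mul, one_mul] at h
    show |pr (v + w) b| ≤ |pr v b| + |pr w b|
    rw [h]
    exact abs_add_le _ _

private theorem convex75 (b : U → ℝ) : ConvexOn ℝ Set.univ fun v : U → ℝ => |pr v b| := by
  refine ⟨convex_univ, fun x _ y _ a c ha hc _ => ?_⟩
  show |pr (a • x + c • y) b| ≤ a * |pr x b| + c * |pr y b|
  rw [pr_comb75]
  refine (abs_add_le _ _).trans ?_
  rw [abs_mul, abs_mul, abs_of_nonneg ha, abs_of_nonneg hc]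

theorem sys_def {H : U → U → ℝ} {K : ℕ} (hP : Pos H K) {g P N} (hS : IsSys H K g P N) {z : U → ℝ}
    (hz : N z = 0) : z = 0 := by
  obtain ⟨p, hp⟩ := exists_e2_seminorm (U := U)
  have key : ∀ ε : ℝ, 0 < ε → p z ≤ 0 + ε := by
    intro ε hε
    set L : ℝ := (K : ℝ) + 1 with hL
    have hL0 : 0 < L := by positivity
    obtain ⟨y, hy1, hy2⟩ := hS.ge z (ε ^ 2 / (3 * L ^ 2)) (by positivity)
    rw [hz] at hy2
    have hPi : ∀ i, P i (y i) ^ 2 ≤ ε ^ 2 / (3 * L ^ 2) := by
      intro i
      have h := Finset.single_le_sum (f := fun i => P i (y i) ^ 2) (fun j _ => sq_nonneg _)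
        (Finset.mem_univ i)
      have h2 : P i (y i) ^ 2 ≤ ∑ i, P i (y i) ^ 2 := h
      linarith
    have hei : ∀ i, e2 (y i) ≤ 3 * P i (y i) ^ 2 := by
      intro i
      cases i with
      | none =>
        rw [hS.none, mul_pow, Real.sq_sqrt (e2_nonneg _)]
        have h1 : (1 : ℝ) ≤ (32 ^ K) ^ 2 := one_le_pow₀ (one_le_pow₀ (by norm_num))
        have h2 := e2_nonneg (y none)
        nlinarith
      | some k =>
        have h1 := gauge_e2 hP k.2.le (hS.gauge k) (y (some k))
        rw [hS.some, mul_pow]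
        refine h1.trans ?_
        have h2 : (3 : ℝ) / 4096 ^ (k : ℕ) ≤ 3 * ((2 ^ (k : ℕ))⁻¹) ^ 2 := by
          rw [div_eq_mul_inv, ← inv_pow, ← inv_pow, ← pow_mul, mul_comm (k : ℕ) 2, pow_mul]
          refine mul_le_mul_of_nonneg_left ?_ (by norm_num)
          exact pow_le_pow_left₀ (by norm_num) (by norm_num) _
        have h3 : 0 ≤ g k (y (some k)) ^ 2 := sq_nonneg _
        calc 3 / 4096 ^ (k : ℕ) * g k (y (some k)) ^ 2
            ≤ 3 * ((2 ^ (k : ℕ))⁻¹) ^ 2 * g k (y (some k)) ^ 2 := mul_le_mul_of_nonneg_right h2 h3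
          _ = 3 * (((2 ^ (k : ℕ))⁻¹) ^ 2 * g k (y (some k)) ^ 2) := by ring
    have hpi : ∀ i, p (y i) ≤ ε / L := by
      intro i
      rw [hp]
      refine Real.sqrt_le_iff.2 ⟨by positivity, ?_⟩
      refine (hei i).trans ?_
      have h1 := hPi i
      have h2 : 3 * (ε ^ 2 / (3 * L ^ 2)) = (ε / L) ^ 2 := by
        field_simp
      linarith
    have h4 : p z ≤ ∑ i, p (y i) := by
      rw [← hy1]
      exact Finset.le_sum_of_subadditive p (map_zero p).le (map_add_le_add p) _ y
    refine h4.trans ((Finset.sum_le_sum fun i _ => hpi i).trans (le_of_eq ?_))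
    rw [Finset.sum_const, Finset.card_univ, Fintype.card_option, Fintype.card_fin, nsmul_eq_mul]
    push_cast
    rw [zero_add, ← hL]
    field_simp
  have h5 : p z ≤ 0 := le_of_forall_pos_le_add key
  rw [hp] at h5
  have h6 : e2 z = 0 := (Real.sqrt_eq_zero (e2_nonneg z)).1 (le_antisymm h5 (Real.sqrt_nonneg _))
  unfold e2 at h6
  rw [Finset.sum_eq_zero_iff_of_nonneg fun _ _ => sq_nonneg _] at h6
  funext u
  exact pow_eq_zero_iff (two_ne_zero) |>.1 (h6 u (Finset.mem_univ u))

theorem sys_single {H : U → U → ℝ} {K : ℕ} (hH : ∀ u, H u u ≤ 2) {g P N} (hS : IsSys H K g P N)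
    (u : U) : N (Pi.single u 1) ≤ 1 := by
  have key : ∀ i : Option (Fin K), P i (Pi.single u 1) ≤ 1 → N (Pi.single u 1) ≤ 1 := by
    intro i hi
    have h1 := hS.le fun j => if j = i then (Pi.single u 1 : U → ℝ) else 0
    rw [Finset.sum_ite_eq' Finset.univ i, if_pos (Finset.mem_univ i)] at h1
    have h2 : ∑ j, P j (if j = i then (Pi.single u 1 : U → ℝ) else 0) ^ 2 = P i (Pi.single u 1) ^ 2 := by
      rw [Finset.sum_eq_single i]
      · rw [if_pos rfl]
      · intro j _ hj
        rw [if_neg hj, map_zero]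
        norm_num
      · intro h
        exact absurd (Finset.mem_univ i) h
    rw [h2] at h1
    have h3 : 0 ≤ P i (Pi.single u 1) := apply_nonneg _ _
    have h4 : 0 ≤ N (Pi.single u 1) := apply_nonneg _ _
    nlinarith
  by_cases hK : K = 0
  · subst hK
    refine key none ?_
    rw [hS.none]
    have h1 : e2 (Pi.single u 1 : U → ℝ) = 1 := by
      unfold e2
      rw [Finset.sum_eq_single u]
      · simp
      · intro v _ hv
        simp [hv]
      · intro h
        exact absurd (Finset.mem_univ u) h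
    rw [h1]
    simp
  · refine key (some ⟨0, by omega⟩) ?_
    rw [hS.some]
    have h1 : (hS.gauge 0).up = (hS.gauge 0).up := rfl
    have h2 : g 0 (Pi.single u 1) ≤ 1 := by
      refine (hS.gauge 0).up (Pi.single u 1) 1 zero_le_one ?_ ?_ ?_
      · unfold sc
        rw [pow_zero]
        refine Finset.card_le_one.2 ?_
        intro v hv w hw
        have hv' : v = u := by
          by_contra h
          exact (Finset.mem_filter.1 hv).2 (by simp [h])
        have hw' : w = u := by
          by_contra h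
          exact (Finset.mem_filter.1 hw).2 (by simp [h])
        rw [hv', hw']
      · unfold n1
        rw [Finset.sum_eq_single u]
        · simp
        · intro v _ hv
          simp [hv]
        · intro h
          exact absurd (Finset.mem_univ u) h
      · rw [pow_zero, one_mul]
        unfold qf
        rw [Finset.sum_eq_single u]
        · rw [Finset.sum_eq_single u]
          · simp only [Pi.single_eq_same, mul_one]
            have := hH u
            linarith
          · intro v _ hv
            simp [hv]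
          · intro h
            exact absurd (Finset.mem_univ u) h
        · intro v _ hv
          refine Finset.sum_eq_zero fun w _ => ?_
          simp [hv]
        · intro h
          exact absurd (Finset.mem_univ u) h
    have h3 : ((2 : ℝ) ^ ((⟨0, by omega⟩ : Fin K) : ℕ))⁻¹ = 1 := by simp
    rw [h3, one_mul]
    exact h2

theorem sys_fb {H : U → U → ℝ} {K : ℕ} {g P N} (hS : IsSys H K g P N) {b : U → ℝ} {c : ℕ → ℝ}
    {c' : ℝ} (hb : FB H K b c c') (x : U → ℝ) : |pr x b| ≤ fbn K c c' * N x := by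
  set F : ℝ := fbn K c c' with hF
  have hF0 : 0 ≤ F := Real.sqrt_nonneg _
  have hN0 : 0 ≤ N x := apply_nonneg _ _
  let w : Option (Fin K) → ℝ := fun i => Option.elim i c' fun k => 2 ^ (k : ℕ) * c k
  have hw : ∑ i, w i ^ 2 = F ^ 2 := by
    rw [Fintype.sum_option, hF, fbn, Real.sq_sqrt, Finset.sum_range, add_comm]
    · congr 1
      refine Finset.sum_congr rfl fun k _ => ?_
      show (2 ^ (k : ℕ) * c k) ^ 2 = 4 ^ (k : ℕ) * c k ^ 2
      rw [mul_pow, ← pow_mul, mul_comm (k : ℕ) 2, pow_mul]
      norm_num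
    · refine add_nonneg (Finset.sum_nonneg fun k _ => by positivity) (sq_nonneg _)
  have hyi : ∀ (i : Option (Fin K)) (y : U → ℝ), |pr y b| ≤ w i * P i y := by
    intro i y
    cases i with
    | none =>
      show |pr y b| ≤ c' * P none y
      rw [hS.none]
      exact hb.tail y
    | some k =>
      have h1 : |pr y b| ≤ c k * g k y := by
        have h0 : ∀ ε : ℝ, 0 < ε → |pr y b| ≤ c k * g k y + ε := by
          intro ε hε
          have hc0 := hb.c_nonneg k
          have hgy : 0 ≤ g k y := apply_nonneg _ _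
          set t : ℝ := g k y + ε / (c k + 1) with ht
          have hd : 0 < ε / (c k + 1) := by positivity
          obtain ⟨a, ha, hle⟩ := (hS.gauge k).hull _ (convex75 b) y t (by linarith)
          have h2 : |pr (t • a) b| = t * |pr a b| := by
            rw [pr_smul75, abs_mul, abs_of_nonneg (by linarith)]
          have h3 := hb.atom k k.2 a ha
          have h4 : |pr y b| ≤ t * c k := by
            refine hle.trans ?_
            show |pr (t • a) b| ≤ t * c k
            rw [h2]
            exact mul_le_mul_of_nonneg_left h3 (by linarith)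
          have h5 : ε / (c k + 1) * c k ≤ ε := by
            rw [div_mul_eq_mul_div, div_le_iff₀ (by linarith)]
            nlinarith
          have h6 : t * c k = c k * g k y + ε / (c k + 1) * c k := by
            rw [ht]; ring
          linarith
        exact le_of_forall_pos_le_add h0
      show |pr y b| ≤ 2 ^ (k : ℕ) * c k * P (some k) y
      rw [hS.some]
      have h7 : (2 : ℝ) ^ (k : ℕ) * c k * ((2 ^ (k : ℕ))⁻¹ * g k y) = c k * g k y := by
        field_simp
      rw [h7]
      exact h1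
  have hsq : |pr x b| ^ 2 ≤ (F * N x) ^ 2 := by
    refine le_of_forall_pos_le_add fun ε hε => ?_
    obtain ⟨y, hy1, hy2⟩ := hS.ge x (ε / (F ^ 2 + 1)) (by positivity)
    have h1 : |pr x b| ≤ ∑ i, w i * P i (y i) := by
      rw [← hy1]
      exact (abs_pr_sum75 _ y b).trans (Finset.sum_le_sum fun i _ => hyi i (y i))
    have h2 : (∑ i, w i * P i (y i)) ^ 2 ≤ (∑ i, w i ^ 2) * ∑ i, P i (y i) ^ 2 :=
      Finset.sum_mul_sq_le_sq_mul_sq _ _ _
    have h3 : |pr x b| ^ 2 ≤ F ^ 2 * (N x ^ 2 + ε / (F ^ 2 + 1)) := by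
      refine (pow_le_pow_left₀ (abs_nonneg _) h1 2).trans (h2.trans ?_)
      rw [hw]
      exact mul_le_mul_of_nonneg_left hy2 (sq_nonneg _)
    have h4 : F ^ 2 * (ε / (F ^ 2 + 1)) ≤ ε := by
      rw [mul_div_assoc', div_le_iff₀ (by positivity)]
      nlinarith [sq_nonneg F]
    nlinarith
  exact (sq_le_sq₀ (abs_nonneg _) (by positivity)).1 hsq

end Pool.Agent.Helper58.NE
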