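import Pool.Agent.Helper58.NE.Gauge
import Pool.Agent.Helper58.NE.BI
import Pool.Agent.Helper58.NE.NormA

/-!
# Project NE, block A9: the norm (assembly)
-/

namespace Pool.Agent.Helper58.NE

open Pool.Agent.Helper25.NU

variable {U : Type} [Fintype U] [DecidableEq U]

theorem exists_norm (H : U → U → ℝ) (K : ℕ) (hP : Pos H K) (hH : ∀ u, H u u ≤ 2) :
    ∃ N : Seminorm ℝ (U → ℝ), (∀ z, N z = 0 → z = 0) ∧
      (∀ i : ℕ, BI N N (1 / ((i : ℝ) + 1)) (4096 ^ (3 * (i + 1)))) ∧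
      (∀ u, N (Pi.single u 1) ≤ 1) ∧
      ∀ (b : U → ℝ) (c : ℕ → ℝ) (c' : ℝ), FB H K b c c' → ∀ x, |pr x b| ≤ fbn K c c' * N x := by
  obtain ⟨g, P, N, hS⟩ := exists_sys H K (fun k => exists_gauge H hH k)
  exact ⟨N, fun z hz => sys_def hP hS hz, fun i => bi_N hP hS i, fun u => sys_single hH hS u,
    fun b c c' hb x => sys_fb hS hb x⟩

end Pool.Agent.Helper58.NE
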