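import Pool.Agent.Helper58.NE.Defs

/-!
# Project NE, block A2: quadratic forms along martingales, and small facts

* `qf_par`: parallelogram law `qf H (z + x) + qf H (z - x) = 2 qf H z + 2 qf H x` (no symmetry of `H` is needed: the cross
  terms cancel).
* `E_qf`: induction on the tree, generalizing `z`: for `node x l r` the expectation is the mean of those of `l` (with `z + x`) and
  `r` (with `z - x`); path sums: `(x :: s).sum = x + s.sum`; use `qf_par`, `qf H (-x) = qf H x`.
* `E_e2`: the special case `H = 1[u = v]`, `qf = e2`.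
-/

namespace Pool.Agent.Helper58.NE

open Pool.Agent.Helper25.NU

variable {U : Type} [Fintype U]

theorem qf_smul (H : U → U → ℝ) (c : ℝ) (x : U → ℝ) : qf H (c • x) = c ^ 2 * qf H x := by
  unfold qf
  rw [Finset.mul_sum]
  refine Finset.sum_congr rfl fun u _ => ?_
  rw [Finset.mul_sum]
  refine Finset.sum_congr rfl fun v _ => ?_
  simp only [Pi.smul_apply, smul_eq_mul]
  ring

theorem qf_neg (H : U → U → ℝ) (x : U → ℝ) : qf H (-x) = qf H x := by
  unfold qf
  refine Finset.sum_congr rfl fun u _ => Finset.sum_congr rfl fun v _ => ?_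
  simp only [Pi.neg_apply]
  ring

theorem qf_par (H : U → U → ℝ) (z x : U → ℝ) :
    qf H (z + x) + qf H (z - x) = 2 * qf H z + 2 * qf H x := by
  unfold qf
  rw [Finset.mul_sum, Finset.mul_sum, ← Finset.sum_add_distrib, ← Finset.sum_add_distrib]
  refine Finset.sum_congr rfl fun u _ => ?_
  rw [Finset.mul_sum, Finset.mul_sum, ← Finset.sum_add_distrib, ← Finset.sum_add_distrib]
  refine Finset.sum_congr rfl fun v _ => ?_
  simp only [Pi.add_apply, Pi.sub_apply]
  ring

open Classical in
theorem e2_eq_qf (x : U → ℝ) : e2 x = qf (fun u v => if u = v then 1 else 0) x := by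
  unfold e2 qf
  refine Finset.sum_congr rfl fun u _ => ?_
  have h : ∀ v : U, (if u = v then (1 : ℝ) else 0) * (x u * x v) =
      if u = v then x u * x v else 0 := by
    intro v
    split_ifs <;> simp
  simp only [h, Finset.sum_ite_eq, Finset.mem_univ, if_true]
  ring

theorem e2_nonneg (x : U → ℝ) : 0 ≤ e2 x := Finset.sum_nonneg fun _ _ => sq_nonneg _

theorem e2_smul (c : ℝ) (x : U → ℝ) : e2 (c • x) = c ^ 2 * e2 x := by
  unfold e2
  rw [Finset.mul_sum]
  refine Finset.sum_congr rfl fun u _ => ?_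
  simp only [Pi.smul_apply, smul_eq_mul]
  ring

private theorem sqrt_e2_add99 (x y : U → ℝ) : √(e2 (x + y)) ≤ √(e2 x) + √(e2 y) := by
  have h1 : (∑ u, x u * y u) ≤ √(e2 x) * √(e2 y) := by
    have h2 : (∑ u, x u * y u) ^ 2 ≤ e2 x * e2 y := Finset.sum_mul_sq_le_sq_mul_sq _ _ _
    rw [← Real.sqrt_mul (e2_nonneg x)]
    exact Real.le_sqrt_of_sq_le h2
  have h3 : e2 (x + y) = e2 x + 2 * (∑ u, x u * y u) + e2 y := by
    unfold e2
    rw [Finset.mul_sum, ← Finset.sum_add_distrib, ← Finset.sum_add_distrib]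
    refine Finset.sum_congr rfl fun u _ => ?_
    simp only [Pi.add_apply]
    ring
  refine Real.sqrt_le_iff.2 ⟨add_nonneg (Real.sqrt_nonneg _) (Real.sqrt_nonneg _), ?_⟩
  have h4 := Real.sq_sqrt (e2_nonneg x)
  have h5 := Real.sq_sqrt (e2_nonneg y)
  nlinarith

/-- The Euclidean norm as a seminorm. -/
theorem exists_e2_seminorm : ∃ p : Seminorm ℝ (U → ℝ), ∀ x, p x = √(e2 x) := by
  refine ⟨Seminorm.of (fun x => √(e2 x)) sqrt_e2_add99 (fun c x => ?_), fun x => rfl⟩
  rw [e2_smul, Real.sqrt_mul (sq_nonneg c), Real.sqrt_sq_eq_abs, Real.norm_eq_abs]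

theorem e2_le_n1 (x : U → ℝ) : e2 x ≤ n1 x ^ 2 := by
  unfold e2
  have h1 : ∀ u, x u ^ 2 ≤ n1 x * |x u| := by
    intro u
    have h2 : |x u| ≤ n1 x :=
      Finset.single_le_sum (f := fun p => |x p|) (fun _ _ => abs_nonneg _) (Finset.mem_univ u)
    have h3 := mul_le_mul_of_nonneg_right h2 (abs_nonneg (x u))
    rwa [← sq, sq_abs] at h3
  refine (Finset.sum_le_sum fun u _ => h1 u).trans ?_
  rw [← Finset.mul_sum, sq]
  exact le_refl _

private theorem sc_add99 (x y : U → ℝ) : sc (x + y) ≤ sc x + sc y := by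
  classical
  unfold sc
  refine le_trans (Finset.card_le_card ?_) (Finset.card_union_le _ _)
  intro u hu
  simp only [Finset.mem_filter, Finset.mem_univ, true_and, Finset.mem_union] at hu ⊢
  by_contra h
  push Not at h
  apply hu
  simp [h.1, h.2]

private theorem sc_zero99 : sc (0 : U → ℝ) = 0 := by
  classical
  unfold sc
  simp

/-- Supports of sums along a path. -/
theorem sc_sum_le {s : List (U → ℝ)} {B : ℕ} (h : ∀ v ∈ s, sc v ≤ B) :
    (sc s.sum : ℝ) ≤ B * nz s := by
  classical
  induction s with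
  | nil => simp [nz, sc_zero99]
  | cons v s ih =>
    have h1 := ih fun w hw => h w (List.mem_cons_of_mem _ hw)
    have h2 : (sc (v + s.sum) : ℝ) ≤ sc v + sc s.sum := by exact_mod_cast sc_add99 v s.sum
    have h3 : (sc v : ℝ) ≤ B * (if v = 0 then (0 : ℝ) else 1) := by
      split_ifs with h0
      · rw [h0, sc_zero99]; simp
      · rw [mul_one]; exact_mod_cast h v List.mem_cons_self
    have h4 : nz (v :: s) = (if v = 0 then (0 : ℝ) else 1) + nz s := by
      simp [nz]
    rw [List.sum_cons, h4, mul_add]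
    linarith

private theorem nz_nonneg99 (s : List (U → ℝ)) : 0 ≤ nz s := by
  unfold nz
  refine List.sum_nonneg ?_
  intro r hr
  obtain ⟨v, -, rfl⟩ := List.mem_map.1 hr
  split_ifs <;> norm_num

private theorem cs99 {a b c N S : ℝ} (hN : 0 ≤ N) (hS : 0 ≤ S)
    (hc0 : 0 ≤ c) (hc : c ≤ a + b) (h : b ^ 2 ≤ N * S) : c ^ 2 ≤ (1 + N) * (a ^ 2 + S) := by
  have h1 : c ^ 2 ≤ (a + b) ^ 2 := pow_le_pow_left₀ hc0 hc 2
  have h2 : 2 * a * b ≤ S + N * a ^ 2 := by
    refine le_of_sq_le_sq ?_ (by positivity)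
    nlinarith [sq_nonneg (S - N * a ^ 2), mul_le_mul_of_nonneg_left h (sq_nonneg a)]
  nlinarith

/-- Cauchy-Schwarz for the `ℓ₁`-norm of a sum along a path. -/
theorem n1_sum_sq_le (s : List (U → ℝ)) :
    n1 s.sum ^ 2 ≤ nz s * (s.map fun v => n1 v ^ 2).sum := by
  classical
  induction s with
  | nil => simp [nz, n1]
  | cons v s ih =>
    have hS : 0 ≤ (s.map fun v => n1 v ^ 2).sum := by
      refine List.sum_nonneg ?_
      intro r hr
      obtain ⟨v, -, rfl⟩ := List.mem_map.1 hr
      positivity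
    have h4 : nz (v :: s) = (if v = 0 then (0 : ℝ) else 1) + nz s := by
      simp [nz]
    rw [List.sum_cons, h4, List.map_cons, List.sum_cons]
    split_ifs with h0
    · subst h0
      have h5 : n1 (0 : U → ℝ) = 0 := by simp [n1]
      rw [zero_add, zero_add, h5]
      simpa using ih
    · exact cs99 (nz_nonneg99 s) hS (n1_nonneg _)
        (n1_add v s.sum) ih

theorem E_qf (H : U → U → ℝ) (T : Tr (U → ℝ)) (z : U → ℝ) :
    T.E (fun s => qf H (z + s.sum)) = qf H z + T.E (fun s => (s.map (qf H)).sum) := by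
  induction T generalizing z with
  | leaf => simp [Pool.Agent.Helper25.NU.Tree.E]
  | node x l r hl hr =>
    have h1 := hl (z + x)
    have h2 := hr (z - x)
    have h3 : l.E (fun s => qf H (z + (x :: s).sum)) = l.E (fun s => qf H (z + x + s.sum)) := by
      congr 1
      funext s
      rw [List.sum_cons, add_assoc]
    have h4 : r.E (fun s => qf H (z + (-x :: s).sum)) = r.E (fun s => qf H (z - x + s.sum)) := by
      congr 1
      funext s
      rw [List.sum_cons, ← add_assoc, sub_eq_add_neg]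
    have h5 : l.E (fun s => ((x :: s).map (qf H)).sum) =
        qf H x + l.E (fun s => (s.map (qf H)).sum) := by
      have := Pool.Agent.Helper25.NU.Tree.E_add l (fun _ => qf H x) (fun s => (s.map (qf H)).sum)
      rw [Pool.Agent.Helper25.NU.Tree.E_const] at this
      simpa using this
    have h6 : r.E (fun s => ((-x :: s).map (qf H)).sum) =
        qf H x + r.E (fun s => (s.map (qf H)).sum) := by
      have := Pool.Agent.Helper25.NU.Tree.E_add r (fun _ => qf H x) (fun s => (s.map (qf H)).sum)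
      rw [Pool.Agent.Helper25.NU.Tree.E_const] at this
      simpa [qf_neg] using this
    have h7 := qf_par H z x
    unfold Pool.Agent.Helper25.NU.Tree.E
    rw [h3, h4, h5, h6, h1, h2]
    linarith

theorem E_e2 (T : Tr (U → ℝ)) :
    T.E (fun s => e2 s.sum) = T.E (fun s => (s.map e2).sum) := by
  classical
  have h := E_qf (fun u v => if u = v then 1 else 0) T 0
  have h0 : qf (fun u v : U => if u = v then (1 : ℝ) else 0) 0 = 0 := by
    rw [← e2_eq_qf]; simp [e2]
  rw [h0, zero_add] at h
  have h1 : (qf fun u v : U => if u = v then (1 : ℝ) else 0) = e2 := by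
    funext x; exact (e2_eq_qf x).symm
  rw [h1] at h
  simpa using h

end Pool.Agent.Helper58.NE
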