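import Pool.Agent.Helper58.NE.RDefs

/-!
# Project NE, block D1: most multigraphs with `64 n` edges expand

PROOF of `count_cross_one`. For a set `A` with `n ≤ 8 |A|`, `2 |A| ≤ n` the number `g` of the pairs `(x, y)` with exactly one of `x, y` in `A` is `2 |A| (n - |A|) ≥ |A| n ≥ n²/8`. So
`∑_e 2^{-|crs e A|} = (g/2 + (n² - g))^{64 n} = (n² - g/2)^{64 n} ≤ (n²)^{64 n} (15/16)^{64 n}` (product formula `Finset.prod_univ_sum` / `Fintype.piFinset`: `2^{-|crs|} = ∏_t (if crossing then 1/2 else 1)`).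
If `|crs e A| < 4 n` then `2^{-|crs|} ≥ 2^{-4n}`. So the number of such `e` is at most `2^{4n} (15/16)^{64 n} N`, and `(15/16)^64 ≤ 1/61` (norm_num), so at most `(16/61)^n N`; `N = (n²)^{64n}` is the number of all `e`.
`count_cross`: union over the `2^n` sets: `(32/61)^n ≤ 1/4` for `n ≥ 3` (indeed `(32/61)^3 < 0.145`).
-/

namespace Pool.Agent.Helper58.NE

open Classical in
/-- The weight of a pair. -/
private noncomputable def wt56 {n : ℕ} (A : Finset (Fin n)) (p : Fin n × Fin n) : ℝ :=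
  if ¬ (p.1 ∈ A ↔ p.2 ∈ A) then 1 / 2 else 1

private theorem wt_prod56 {n m : ℕ} (A : Finset (Fin n)) (e : Fin m → Fin n × Fin n) :
    ∏ t, wt56 A (e t) = (1 / 2 : ℝ) ^ (crs e A).card := by
  classical
  unfold wt56 crs
  rw [Finset.prod_ite, Finset.prod_const, Finset.prod_const_one, mul_one]

private theorem wt_sum56 {n : ℕ} (A : Finset (Fin n)) :
    ∑ p, wt56 A p = (n : ℝ) ^ 2 - A.card * (n - A.card) := by
  classical
  have hc : ((Aᶜ).card : ℝ) = n - A.card := by
    rw [Finset.card_compl, Fintype.card_fin, Nat.cast_sub]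
    have := Finset.card_le_univ A
    rwa [Fintype.card_fin] at this
  have hA : ∀ c d : ℝ, ∑ y : Fin n, (if y ∈ A then c else d) = A.card * c + (n - A.card) * d := by
    intro c d
    rw [Finset.sum_ite, Finset.sum_const, Finset.sum_const, nsmul_eq_mul, nsmul_eq_mul, ← hc]
    congr 3
    · congr 1
      ext y
      simp
    · congr 1
      ext y
      simp
  rw [Fintype.sum_prod_type]
  have h1 : ∀ x : Fin n, ∑ y : Fin n, wt56 A (x, y) =
      if x ∈ A then (A.card : ℝ) * 1 + (n - A.card) * (1 / 2)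
        else (A.card : ℝ) * (1 / 2) + (n - A.card) * 1 := by
    intro x
    by_cases hx : x ∈ A
    · rw [if_pos hx, ← hA]
      apply Finset.sum_congr rfl
      intro y _
      unfold wt56
      by_cases hy : y ∈ A <;> simp [hx, hy]
    · rw [if_neg hx, ← hA]
      apply Finset.sum_congr rfl
      intro y _
      unfold wt56
      by_cases hy : y ∈ A <;> simp [hx, hy]
  rw [Finset.sum_congr rfl fun x _ => h1 x, hA]
  ring

open Classical in
theorem count_cross_one {n : ℕ} (A : Finset (Fin n)) (h1 : n ≤ 8 * A.card) (h2 : 2 * A.card ≤ n) :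
    ((Finset.univ.filter fun e : Fin (64 * n) → Fin n × Fin n => (crs e A).card < 4 * n).card : ℝ) ≤
      (16 / 61) ^ n * Fintype.card (Fin (64 * n) → Fin n × Fin n) := by
  have hS : ∑ p, wt56 A p ≤ 15 / 16 * ((n : ℝ) * n) := by
    rw [wt_sum56]
    have e1 : (n : ℝ) ≤ 8 * A.card := by exact_mod_cast h1
    have e2 : 2 * (A.card : ℝ) ≤ n := by exact_mod_cast h2
    have e3 : (0 : ℝ) ≤ n := Nat.cast_nonneg n
    nlinarith
  have hS0 : 0 ≤ ∑ p, wt56 A p := by
    apply Finset.sum_nonneg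
    intro p _
    unfold wt56
    split_ifs <;> norm_num
  have hW : ∑ e : Fin (64 * n) → Fin n × Fin n, (1 / 2 : ℝ) ^ (crs e A).card =
      (∑ p, wt56 A p) ^ (64 * n) := by
    rw [Fintype.sum_pow]
    apply Finset.sum_congr rfl
    intro e _
    rw [wt_prod56]
  have hcard : (Fintype.card (Fin (64 * n) → Fin n × Fin n) : ℝ) = ((n : ℝ) * n) ^ (64 * n) := by
    rw [Fintype.card_fun, Fintype.card_prod, Fintype.card_fin, Fintype.card_fin]
    push_cast
    ring
  set B := Finset.univ.filter fun e : Fin (64 * n) → Fin n × Fin n => (crs e A).card < 4 * n with hB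
  have hlow : (B.card : ℝ) * (1 / 2) ^ (4 * n) ≤ (∑ p, wt56 A p) ^ (64 * n) := by
    rw [← hW]
    calc (B.card : ℝ) * (1 / 2) ^ (4 * n) = ∑ e ∈ B, (1 / 2 : ℝ) ^ (4 * n) := by
          rw [Finset.sum_const, nsmul_eq_mul]
      _ ≤ ∑ e ∈ B, (1 / 2 : ℝ) ^ (crs e A).card := by
          apply Finset.sum_le_sum
          intro e he
          rw [hB, Finset.mem_filter] at he
          exact pow_le_pow_of_le_one (by norm_num) (by norm_num) he.2.le
      _ ≤ ∑ e : Fin (64 * n) → Fin n × Fin n, (1 / 2 : ℝ) ^ (crs e A).card :=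
          Finset.sum_le_univ_sum_of_nonneg fun e => by positivity
  have hup : (∑ p, wt56 A p) ^ (64 * n) ≤ (15 / 16 * ((n : ℝ) * n)) ^ (64 * n) :=
    pow_le_pow_left₀ hS0 hS _
  have h3 : (B.card : ℝ) * (1 / 2) ^ (4 * n) ≤
      (15 / 16) ^ (64 * n) * ((n : ℝ) * n) ^ (64 * n) := by
    rw [← mul_pow]
    exact hlow.trans hup
  have h4 : (B.card : ℝ) = (B.card : ℝ) * (1 / 2) ^ (4 * n) * 2 ^ (4 * n) := by
    rw [mul_assoc, ← mul_pow]
    norm_num
  rw [hcard, h4]
  have h5 : ((15 : ℝ) / 16) ^ (64 * n) * 2 ^ (4 * n) ≤ (16 / 61) ^ n := by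
    rw [pow_mul, pow_mul, ← mul_pow]
    apply pow_le_pow_left₀ (by positivity)
    norm_num
  calc (B.card : ℝ) * (1 / 2) ^ (4 * n) * 2 ^ (4 * n)
      ≤ (15 / 16) ^ (64 * n) * ((n : ℝ) * n) ^ (64 * n) * 2 ^ (4 * n) :=
        mul_le_mul_of_nonneg_right h3 (by positivity)
    _ = (15 / 16) ^ (64 * n) * 2 ^ (4 * n) * ((n : ℝ) * n) ^ (64 * n) := by ring
    _ ≤ (16 / 61) ^ n * ((n : ℝ) * n) ^ (64 * n) :=
        mul_le_mul_of_nonneg_right h5 (by positivity)

open Classical in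
theorem count_cross {n : ℕ} (hn : 3 ≤ n) :
    4 * (Finset.univ.filter fun e : Fin (64 * n) → Fin n × Fin n =>
      ∃ A : Finset (Fin n), n ≤ 8 * A.card ∧ 2 * A.card ≤ n ∧ (crs e A).card < 4 * n).card ≤
      Fintype.card (Fin (64 * n) → Fin n × Fin n) := by
  set F : Finset (Finset (Fin n)) := Finset.univ.filter fun A => n ≤ 8 * A.card ∧ 2 * A.card ≤ n with hF
  set N : ℝ := (Fintype.card (Fin (64 * n) → Fin n × Fin n) : ℝ) with hN
  have hN0 : 0 ≤ N := Nat.cast_nonneg _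
  have hsub : (Finset.univ.filter fun e : Fin (64 * n) → Fin n × Fin n =>
      ∃ A : Finset (Fin n), n ≤ 8 * A.card ∧ 2 * A.card ≤ n ∧ (crs e A).card < 4 * n) ⊆
      F.biUnion fun A => Finset.univ.filter fun e : Fin (64 * n) → Fin n × Fin n => (crs e A).card < 4 * n := by
    intro e he
    rw [Finset.mem_filter] at he
    obtain ⟨-, A, h1, h2, h3⟩ := he
    rw [Finset.mem_biUnion]
    exact ⟨A, by rw [hF, Finset.mem_filter]; exact ⟨Finset.mem_univ _, h1, h2⟩,
      by rw [Finset.mem_filter]; exact ⟨Finset.mem_univ _, h3⟩⟩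
  have h1 := (Finset.card_le_card hsub).trans Finset.card_biUnion_le
  have h2 : ((Finset.univ.filter fun e : Fin (64 * n) → Fin n × Fin n =>
      ∃ A : Finset (Fin n), n ≤ 8 * A.card ∧ 2 * A.card ≤ n ∧ (crs e A).card < 4 * n).card : ℝ) ≤
      ∑ A ∈ F, (16 / 61 : ℝ) ^ n * N := by
    refine le_trans (Nat.cast_le.2 h1) ?_
    rw [Nat.cast_sum]
    apply Finset.sum_le_sum
    intro A hA
    rw [hF, Finset.mem_filter] at hA
    exact count_cross_one A hA.2.1 hA.2.2
  have h3 : (F.card : ℝ) ≤ 2 ^ n := by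
    have h4 : F.card ≤ Fintype.card (Finset (Fin n)) := Finset.card_le_univ _
    rw [Fintype.card_finset, Fintype.card_fin] at h4
    exact_mod_cast h4
  have h5 : ∑ A ∈ F, (16 / 61 : ℝ) ^ n * N ≤ (32 / 61 : ℝ) ^ n * N := by
    rw [Finset.sum_const, nsmul_eq_mul, ← mul_assoc]
    apply mul_le_mul_of_nonneg_right _ hN0
    calc (F.card : ℝ) * (16 / 61) ^ n ≤ 2 ^ n * (16 / 61) ^ n :=
          mul_le_mul_of_nonneg_right h3 (by positivity)
      _ = (32 / 61) ^ n := by rw [← mul_pow]; norm_num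
  have h6 : (32 / 61 : ℝ) ^ n ≤ 1 / 4 := by
    calc (32 / 61 : ℝ) ^ n ≤ (32 / 61) ^ 3 := pow_le_pow_of_le_one (by norm_num) (by norm_num) hn
      _ ≤ 1 / 4 := by norm_num
  have h7 : (32 / 61 : ℝ) ^ n * N ≤ 1 / 4 * N := mul_le_mul_of_nonneg_right h6 hN0
  have h8 : 4 * ((Finset.univ.filter fun e : Fin (64 * n) → Fin n × Fin n =>
      ∃ A : Finset (Fin n), n ≤ 8 * A.card ∧ 2 * A.card ≤ n ∧ (crs e A).card < 4 * n).card : ℝ) ≤ N := by
    linarith
  rw [hN] at h8
  exact_mod_cast h8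

end Pool.Agent.Helper58.NE
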