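import Pool.Agent.Helper58.NE.RDefs

/-!
# Project NE, block D2: most multigraphs with `64 n` edges have few short cycles

PROOF of `count_cyc_one`. For fixed injective `v`, `j` the number of `e` with `IsCyc e v j` is at most `2^{l+2} (n²)^{64n - (l+2)}` (the edges `j i` are different; `e` ranges over a product set; `Fintype.card_piFinset`). There are at most
`n^{l+2} (64 n)^{l+2}` pairs `(v, j)`. So `∑_e #{(v, j) : IsCyc e v j} ≤ (2 · 64 · n · n)^{l+2} (n²)^{64 n - (l+2)} = 128^{l+2} N`, `N = (n²)^{64 n}` (`l + 2 ≤ 64 n` if there is an injective `j`; otherwise the count is zero).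
`count_cyc`: for an `e` outside of an exceptional set of at most `N / 4` there are at most `n / 4` cycles of length `≤ W` (Markov's inequality; `n` large in terms of `W`), so there is a set `R` of at most
`n / 4` edges which meets all of them (`j 0` for each).
-/

namespace Pool.Agent.Helper58.NE

open Classical in
private theorem aux36 (n l : ℕ) (v : Fin (l + 2) → Fin n) (j : Fin (l + 2) → Fin (64 * n)) :
    (Finset.univ.filter fun e : Fin (64 * n) → Fin n × Fin n => IsCyc e v j).card * (n * n) ^ (l + 2) ≤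
      2 ^ (l + 2) * (n * n) ^ (64 * n) := by
  by_cases hj : Function.Injective j
  swap
  · have h0 : (Finset.univ.filter fun e : Fin (64 * n) → Fin n × Fin n => IsCyc e v j) = ∅ := by
      rw [Finset.filter_eq_empty_iff]
      intro e _ he
      exact hj he.injj
    rw [h0, Finset.card_empty, zero_mul]
    exact Nat.zero_le _
  set A : Fin (64 * n) → Finset (Fin n × Fin n) := fun t =>
    Finset.univ.filter fun p => ∀ i, j i = t → p = (v i, v (i + 1)) ∨ p = (v (i + 1), v i) with hA
  have hsub : (Finset.univ.filter fun e : Fin (64 * n) → Fin n × Fin n => IsCyc e v j) ⊆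
      Fintype.piFinset A := by
    intro e he
    rw [Fintype.mem_piFinset]
    intro t
    rw [hA, Finset.mem_filter]
    refine ⟨Finset.mem_univ _, fun i hi => ?_⟩
    rw [← hi]
    exact (Finset.mem_filter.1 he).2.edge i
  set I : Finset (Fin (64 * n)) := Finset.univ.image j with hI
  have hIc : I.card = l + 2 := by
    rw [hI, Finset.card_image_of_injective _ hj, Finset.card_univ, Fintype.card_fin]
  have hle : I.card + Iᶜ.card = 64 * n := by
    rw [Finset.card_add_card_compl, Fintype.card_fin]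
  have h1 : ∏ t ∈ I, (A t).card ≤ 2 ^ (l + 2) := by
    rw [← hIc]
    refine Finset.prod_le_pow_card _ _ _ fun t ht => ?_
    obtain ⟨i, -, hi⟩ := Finset.mem_image.1 ht
    refine le_trans (Finset.card_le_card (t := {(v i, v (i + 1)), (v (i + 1), v i)}) ?_) Finset.card_le_two
    intro p hp
    rw [Finset.mem_insert, Finset.mem_singleton]
    exact (Finset.mem_filter.1 hp).2 i hi
  have h2 : ∏ t ∈ Iᶜ, (A t).card ≤ (n * n) ^ Iᶜ.card := by
    refine Finset.prod_le_pow_card _ _ _ fun t _ => ?_
    refine (Finset.card_le_univ _).trans ?_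
    rw [Fintype.card_prod, Fintype.card_fin]
  calc (Finset.univ.filter fun e : Fin (64 * n) → Fin n × Fin n => IsCyc e v j).card * (n * n) ^ (l + 2)
      ≤ (∏ t, (A t).card) * (n * n) ^ (l + 2) := by
        refine Nat.mul_le_mul_right _ ?_
        rw [← Fintype.card_piFinset]
        exact Finset.card_le_card hsub
    _ = ((∏ t ∈ I, (A t).card) * ∏ t ∈ Iᶜ, (A t).card) * (n * n) ^ (l + 2) := by
        rw [Finset.prod_mul_prod_compl]
    _ ≤ (2 ^ (l + 2) * (n * n) ^ Iᶜ.card) * (n * n) ^ (l + 2) :=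
        Nat.mul_le_mul_right _ (Nat.mul_le_mul h1 h2)
    _ = 2 ^ (l + 2) * (n * n) ^ (64 * n) := by
        rw [mul_assoc, ← pow_add]
        congr 2
        omega

open Classical in
theorem count_cyc_one (n l : ℕ) :
    ∑ e : Fin (64 * n) → Fin n × Fin n,
      (Finset.univ.filter fun p : (Fin (l + 2) → Fin n) × (Fin (l + 2) → Fin (64 * n)) =>
        IsCyc e p.1 p.2).card ≤
      128 ^ (l + 2) * Fintype.card (Fin (64 * n) → Fin n × Fin n) := by
  have hswap : ∑ e : Fin (64 * n) → Fin n × Fin n,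
      (Finset.univ.filter fun p : (Fin (l + 2) → Fin n) × (Fin (l + 2) → Fin (64 * n)) =>
        IsCyc e p.1 p.2).card =
      ∑ p : (Fin (l + 2) → Fin n) × (Fin (l + 2) → Fin (64 * n)),
        (Finset.univ.filter fun e : Fin (64 * n) → Fin n × Fin n => IsCyc e p.1 p.2).card := by
    simp_rw [Finset.card_filter]
    exact Finset.sum_comm
  rw [hswap]
  rcases Nat.eq_zero_or_pos n with hn | hn
  · subst hn
    have h0 : ∀ p : (Fin (l + 2) → Fin 0) × (Fin (l + 2) → Fin (64 * 0)),
        (Finset.univ.filter fun e : Fin (64 * 0) → Fin 0 × Fin 0 => IsCyc e p.1 p.2).card = 0 :=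
      fun p => (p.1 0).elim0
    rw [Finset.sum_eq_zero fun p _ => h0 p]
    exact Nat.zero_le _
  have hN : Fintype.card (Fin (64 * n) → Fin n × Fin n) = (n * n) ^ (64 * n) := by
    rw [Fintype.card_fun, Fintype.card_prod, Fintype.card_fin, Fintype.card_fin]
  have hpos : 0 < (n * n) ^ (l + 2) := pow_pos (Nat.mul_pos hn hn) _
  refine Nat.le_of_mul_le_mul_right ?_ hpos
  rw [Finset.sum_mul, hN]
  calc ∑ p : (Fin (l + 2) → Fin n) × (Fin (l + 2) → Fin (64 * n)),
        (Finset.univ.filter fun e : Fin (64 * n) → Fin n × Fin n => IsCyc e p.1 p.2).card *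
          (n * n) ^ (l + 2)
      ≤ ∑ _p : (Fin (l + 2) → Fin n) × (Fin (l + 2) → Fin (64 * n)),
          2 ^ (l + 2) * (n * n) ^ (64 * n) := Finset.sum_le_sum fun p _ => aux36 n l p.1 p.2
    _ = (n ^ (l + 2) * (64 * n) ^ (l + 2)) * (2 ^ (l + 2) * (n * n) ^ (64 * n)) := by
        rw [Finset.sum_const, Finset.card_univ, Fintype.card_prod, Fintype.card_fun, Fintype.card_fun,
          Fintype.card_fin, Fintype.card_fin, Fintype.card_fin, smul_eq_mul]
    _ = 128 ^ (l + 2) * (n * n) ^ (64 * n) * (n * n) ^ (l + 2) := by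
        have h3 : (128 : ℕ) ^ (l + 2) = 64 ^ (l + 2) * 2 ^ (l + 2) := by
          rw [← mul_pow]
          norm_num
        rw [h3, mul_pow 64 n, mul_pow n n (l + 2)]
        ring
    _ ≤ 128 ^ (l + 2) * (n * n) ^ (64 * n) * (n * n) ^ (l + 2) := le_refl _

open Classical in
theorem count_cyc (W : ℕ) : ∃ n₀ : ℕ, ∀ n ≥ n₀,
    4 * (Finset.univ.filter fun e : Fin (64 * n) → Fin n × Fin n =>
      ¬ ∃ R : Finset (Fin (64 * n)), 4 * R.card ≤ n ∧ ∀ (l : ℕ), l + 2 ≤ W →
        ∀ (v : Fin (l + 2) → Fin n) (j : Fin (l + 2) → Fin (64 * n)), IsCyc e v j →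
          ∃ i, j i ∈ R).card ≤
      Fintype.card (Fin (64 * n) → Fin n × Fin n) := by
  refine ⟨16 * (∑ l ∈ Finset.range W, 128 ^ (l + 2)) + 1, fun n hn => ?_⟩
  set c : (Fin (64 * n) → Fin n × Fin n) → ℕ := fun e => ∑ l ∈ Finset.range W,
    (Finset.univ.filter fun p : (Fin (l + 2) → Fin n) × (Fin (l + 2) → Fin (64 * n)) =>
        IsCyc e p.1 p.2).card with hc
  set N : ℕ := Fintype.card (Fin (64 * n) → Fin n × Fin n) with hN
  set C : ℕ := ∑ l ∈ Finset.range W, 128 ^ (l + 2) with hC
  have hsum : ∑ e, c e ≤ C * N := by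
    rw [hc, Finset.sum_comm, hC, Finset.sum_mul]
    exact Finset.sum_le_sum fun l _ => count_cyc_one n l
  have hmk : (Finset.univ.filter fun e => n < 4 * c e).card * n ≤ 4 * ∑ e, c e := by
    calc (Finset.univ.filter fun e => n < 4 * c e).card * n
        = ∑ e ∈ Finset.univ.filter (fun e => n < 4 * c e), n := by
          rw [Finset.sum_const, smul_eq_mul]
      _ ≤ ∑ e ∈ Finset.univ.filter (fun e => n < 4 * c e), 4 * c e :=
          Finset.sum_le_sum fun e he => (Finset.mem_filter.1 he).2.le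
      _ ≤ ∑ e, 4 * c e := Finset.sum_le_sum_of_subset (Finset.filter_subset _ _)
      _ = 4 * ∑ e, c e := (Finset.mul_sum _ _ _).symm
  have hle : (Finset.univ.filter fun e : Fin (64 * n) → Fin n × Fin n =>
      ¬ ∃ R : Finset (Fin (64 * n)), 4 * R.card ≤ n ∧ ∀ (l : ℕ), l + 2 ≤ W →
        ∀ (v : Fin (l + 2) → Fin n) (j : Fin (l + 2) → Fin (64 * n)), IsCyc e v j →
          ∃ i, j i ∈ R).card ≤ (Finset.univ.filter fun e => n < 4 * c e).card := by
    refine Finset.card_le_card ?_
    intro e he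
    rw [Finset.mem_filter] at he ⊢
    refine ⟨Finset.mem_univ _, ?_⟩
    by_contra hcon
    rw [not_lt] at hcon
    refine he.2 ⟨(Finset.range W).biUnion fun l =>
      (Finset.univ.filter fun p : (Fin (l + 2) → Fin n) × (Fin (l + 2) → Fin (64 * n)) =>
        IsCyc e p.1 p.2).image (fun p => p.2 0), ?_, ?_⟩
    · refine le_trans (Nat.mul_le_mul_left 4 ?_) hcon
      exact Finset.card_biUnion_le.trans (Finset.sum_le_sum fun l _ => Finset.card_image_le)
    · intro l hl v j hcyc
      refine ⟨0, ?_⟩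
      rw [Finset.mem_biUnion]
      exact ⟨l, Finset.mem_range.2 (by omega), Finset.mem_image.2
        ⟨(v, j), Finset.mem_filter.2 ⟨Finset.mem_univ _, hcyc⟩, rfl⟩⟩
  refine le_trans (Nat.mul_le_mul_left 4 hle) ?_
  by_contra hcon
  rw [not_le] at hcon
  have h1 : N * n < 4 * (Finset.univ.filter fun e => n < 4 * c e).card * n :=
    Nat.mul_lt_mul_of_pos_right hcon (by omega)
  have h2 : 4 * (Finset.univ.filter fun e => n < 4 * c e).card * n ≤ 16 * C * N := by
    calc 4 * (Finset.univ.filter fun e => n < 4 * c e).card * n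
        = 4 * ((Finset.univ.filter fun e => n < 4 * c e).card * n) := by ring
      _ ≤ 4 * (4 * (C * N)) := Nat.mul_le_mul_left 4 (hmk.trans (Nat.mul_le_mul_left 4 hsum))
      _ = 16 * C * N := by ring
  have h3 : 16 * C * N ≤ n * N := Nat.mul_le_mul_right N (by omega)
  have h4 : n * N = N * n := mul_comm _ _
  omega

end Pool.Agent.Helper58.NE
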