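import Pool.Agent.Helper58.NE.Defs

/-!
# Project NE, part D: random sparse graphs.  Definitions

A multigraph on `Fin n` with `m` edges is `e : Fin m → Fin n × Fin n`; the sample space is the finite set of all `e` (`m = 64 n`).
* `crs e A`: the set of the edges with exactly one end in `A`;
* `dg e y`: the degree of `y` (a loop counts twice);
* `IsCyc e v j`: `v`, `j` injective, the edge `j i` joins `v i` and `v (i + 1)` (cyclically, length `l + 2`);
* `cutp G A`: the set of the pairs `(u, v)` with `u ∈ A`, `v ∉ A`, `G.Adj u v`.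
-/

namespace Pool.Agent.Helper58.NE

variable {n m : ℕ}

/-- Edges with exactly one end in `A`. -/
def crs (e : Fin m → Fin n × Fin n) (A : Finset (Fin n)) : Finset (Fin m) :=
  Finset.univ.filter fun t => ¬ ((e t).1 ∈ A ↔ (e t).2 ∈ A)

/-- The degree. -/
def dg (e : Fin m → Fin n × Fin n) (y : Fin n) : ℕ :=
  ∑ t, ((if (e t).1 = y then 1 else 0) + (if (e t).2 = y then 1 else 0))

/-- Cycles of length `l + 2` of the multigraph. -/
structure IsCyc (e : Fin m → Fin n × Fin n) {l : ℕ} (v : Fin (l + 2) → Fin n)
    (j : Fin (l + 2) → Fin m) : Prop where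
  injv : Function.Injective v
  injj : Function.Injective j
  edge : ∀ i, e (j i) = (v i, v (i + 1)) ∨ e (j i) = (v (i + 1), v i)

open Classical in
/-- Ordered pairs of adjacent vertices, the first one in `A` and the second one not. -/
noncomputable def cutp {V : Type*} [Fintype V] (G : SimpleGraph V) (A : Finset V) : Finset (V × V) :=
  Finset.univ.filter fun p => p.1 ∈ A ∧ p.2 ∉ A ∧ G.Adj p.1 p.2

end Pool.Agent.Helper58.NE
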