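import Pool.Agent.Helper58.NE.RDefs

/-!
# Project NE, block D3: degrees of random multigraphs

PROOF of `sum_dg_sq`. `∑_y dg y ^ 2 = ∑_{t, t'} #{coincidences between the ends of e t and of e t'}`, where the number of coincidences is `∑_{a, b ∈ {1, 2}} 1[(e t).a = (e t').b]`. For `t = t'` it is at most `4`. For `t ≠ t'` and fixed `a`, `b` the
condition `(e t).a = (e t').b` holds for exactly `N / n` of the `N` maps `e`. So `∑_e ∑_y dg y ^ 2 ≤ 4 (64 n) N + 4 (64 n)² N / n = (256 + 16384) n N = 16640 n N`.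
`count_deg`: Markov's inequality.
-/

namespace Pool.Agent.Helper58.NE

private theorem sum_one2 {α : Type} [Fintype α] {m : ℕ} (t : Fin m) (f : α → ℝ) :
    (Fintype.card α : ℝ) * ∑ e : Fin m → α, f (e t) =
      (Fintype.card α : ℝ) ^ m * ∑ p, f p := by
  classical
  rcases isEmpty_or_nonempty α with hα | hα
  · have : IsEmpty (Fin m → α) := ⟨fun e => hα.elim (e t)⟩
    simp
  have hK : (Fintype.card α : ℝ) ≠ 0 := Nat.cast_ne_zero.mpr Fintype.card_ne_zero
  set K : ℝ := (Fintype.card α : ℝ) with hKd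
  set F : Fin m → α → ℝ := fun s p => (if s = t then f p else 1) / K with hF
  have h1 : ∑ e : Fin m → α, ∏ s, F s (e s) = ∏ s, ∑ p, F s p := by
    rw [Finset.prod_univ_sum]
    rfl
  have h2 : ∀ e : Fin m → α, ∏ s, F s (e s) = f (e t) / K ^ m := by
    intro e
    simp only [hF]
    rw [Finset.prod_div_distrib, Finset.prod_const, Finset.card_univ, Fintype.card_fin,
      Fintype.prod_eq_single t (fun s hs => by rw [if_neg hs]), if_pos rfl]
  have h3 : ∏ s, ∑ p, F s p = (∑ p, f p) / K := by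
    rw [Fintype.prod_eq_single t]
    · simp only [hF, if_true]
      rw [Finset.sum_div]
    · intro s hs
      simp only [hF, if_neg hs]
      rw [Finset.sum_const, Finset.card_univ, nsmul_eq_mul, ← hKd]
      field_simp
  rw [Finset.sum_congr rfl fun e _ => h2 e, h3, ← Finset.sum_div] at h1
  have hKm : K ^ m ≠ 0 := pow_ne_zero _ hK
  rw [div_eq_div_iff hKm hK] at h1
  linarith

private theorem sum_two2 {α : Type} [Fintype α] {m : ℕ} {t t' : Fin m} (ht : t ≠ t')
    (f g : α → ℝ) :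
    (Fintype.card α : ℝ) ^ 2 * ∑ e : Fin m → α, f (e t) * g (e t') =
      (Fintype.card α : ℝ) ^ m * ((∑ p, f p) * ∑ p, g p) := by
  classical
  rcases isEmpty_or_nonempty α with hα | hα
  · have : IsEmpty (Fin m → α) := ⟨fun e => hα.elim (e t)⟩
    simp
  have hK : (Fintype.card α : ℝ) ≠ 0 := Nat.cast_ne_zero.mpr Fintype.card_ne_zero
  set K : ℝ := (Fintype.card α : ℝ) with hKd
  set F : Fin m → α → ℝ := fun s p => (if s = t then f p else if s = t' then g p else 1) / K
    with hF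
  have h1 : ∑ e : Fin m → α, ∏ s, F s (e s) = ∏ s, ∑ p, F s p := by
    rw [Finset.prod_univ_sum]
    rfl
  have h2 : ∀ e : Fin m → α, ∏ s, F s (e s) = f (e t) * g (e t') / K ^ m := by
    intro e
    simp only [hF]
    rw [Finset.prod_div_distrib, Finset.prod_const, Finset.card_univ, Fintype.card_fin,
      Fintype.prod_eq_mul t t' ht (fun s hs => by rw [if_neg hs.1, if_neg hs.2]), if_pos rfl,
      if_neg ht.symm, if_pos rfl]
  have h3 : ∏ s, ∑ p, F s p = ((∑ p, f p) / K) * ((∑ p, g p) / K) := by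
    rw [Fintype.prod_eq_mul t t' ht]
    · simp only [hF, if_true, if_neg ht.symm]
      rw [Finset.sum_div, Finset.sum_div]
    · intro s hs
      simp only [hF, if_neg hs.1, if_neg hs.2]
      rw [Finset.sum_const, Finset.card_univ, nsmul_eq_mul, ← hKd]
      field_simp
  rw [Finset.sum_congr rfl fun e _ => h2 e, h3, ← Finset.sum_div] at h1
  have hKm : K ^ m ≠ 0 := pow_ne_zero _ hK
  rw [div_mul_div_comm, div_eq_div_iff hKm (mul_ne_zero hK hK)] at h1
  linarith

/-- The number of ends equal to `y`. -/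
private noncomputable def cf2 {n : ℕ} (y : Fin n) (p : Fin n × Fin n) : ℝ :=
  (if p.1 = y then 1 else 0) + (if p.2 = y then 1 else 0)

private theorem cf2_sum {n : ℕ} (y : Fin n) : ∑ p, cf2 y p = 2 * n := by
  unfold cf2
  rw [Fintype.sum_prod_type]
  simp only [Finset.sum_add_distrib, Finset.sum_ite_eq', Finset.mem_univ, if_true,
    Finset.sum_const, Finset.card_univ, Fintype.card_fin, nsmul_eq_mul]
  have h : (∑ x : Fin n, ∑ _x_1 : Fin n, if x = y then (1 : ℝ) else 0) = n := by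
    rw [Finset.sum_comm]
    simp
  rw [h]
  ring

private theorem cf2_sq {n : ℕ} (y : Fin n) : ∑ p, cf2 y p * cf2 y p ≤ 2 * n + 2 := by
  have h : ∀ p : Fin n × Fin n, cf2 y p * cf2 y p = cf2 y p +
      2 * ((if p.1 = y then 1 else 0) * (if p.2 = y then 1 else 0)) := by
    intro p
    unfold cf2
    split_ifs <;> norm_num
  rw [Finset.sum_congr rfl fun p _ => h p, Finset.sum_add_distrib, cf2_sum]
  apply add_le_add (le_refl _)
  rw [← Finset.mul_sum, Fintype.sum_prod_type]
  simp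

private theorem dg_cast2 {n m : ℕ} (e : Fin m → Fin n × Fin n) (y : Fin n) :
    ((dg e y ^ 2 : ℕ) : ℝ) = ∑ t, ∑ t', cf2 y (e t) * cf2 y (e t') := by
  unfold dg cf2
  push_cast
  rw [sq, Finset.sum_mul_sum]

private theorem sum_y2 {n : ℕ} (hn : 0 < n) (m : ℕ) (y : Fin n) :
    (n : ℝ) ^ 2 * ∑ e : Fin m → Fin n × Fin n, ((dg e y ^ 2 : ℕ) : ℝ) ≤
      (Fintype.card (Fin m → Fin n × Fin n) : ℝ) * (m * (2 * n + 2) + m ^ 2 * 4) := by
  classical
  have hn0 : (0 : ℝ) < n := by exact_mod_cast hn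
  have hcard : (Fintype.card (Fin n × Fin n) : ℝ) = (n : ℝ) ^ 2 := by
    rw [Fintype.card_prod, Fintype.card_fin]
    push_cast
    ring
  have hN : (Fintype.card (Fin m → Fin n × Fin n) : ℝ) = (Fintype.card (Fin n × Fin n) : ℝ) ^ m := by
    rw [Fintype.card_fun, Fintype.card_fin]
    push_cast
    ring
  set N : ℝ := (Fintype.card (Fin m → Fin n × Fin n) : ℝ) with hNd
  have hN0 : 0 ≤ N := Nat.cast_nonneg _
  have h0 : ∑ e : Fin m → Fin n × Fin n, ((dg e y ^ 2 : ℕ) : ℝ) =
      ∑ t, ∑ t', ∑ e : Fin m → Fin n × Fin n, cf2 y (e t) * cf2 y (e t') := by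
    rw [Finset.sum_congr rfl fun e _ => dg_cast2 e y, Finset.sum_comm]
    apply Finset.sum_congr rfl
    intro t _
    rw [Finset.sum_comm]
  have h1 : ∀ t : Fin m, ∀ t' : Fin m,
      (n : ℝ) ^ 2 * ∑ e : Fin m → Fin n × Fin n, cf2 y (e t) * cf2 y (e t') ≤
        (if t = t' then N * (2 * n + 2) else 0) + N * 4 := by
    intro t t'
    by_cases htt : t = t'
    · subst htt
      rw [if_pos rfl]
      have h2 := sum_one2 (α := Fin n × Fin n) t (fun p => cf2 y p * cf2 y p)
      rw [hcard, ← hcard, ← hN, hcard] at h2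
      rw [h2]
      have h3 := mul_le_mul_of_nonneg_left (cf2_sq y) hN0
      linarith
    · rw [if_neg htt, zero_add]
      have h2 := sum_two2 (α := Fin n × Fin n) htt (cf2 y) (cf2 y)
      rw [← hN, hcard, cf2_sum] at h2
      have h4 : (n : ℝ) ^ 2 * ((n : ℝ) ^ 2 *
          ∑ e : Fin m → Fin n × Fin n, cf2 y (e t) * cf2 y (e t')) = (n : ℝ) ^ 2 * (N * 4) := by
        rw [← mul_assoc, ← sq, h2]
        ring
      exact (mul_left_cancel₀ (by positivity) h4).le
  rw [h0, Finset.mul_sum]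
  have h5 : ∀ t : Fin m, (n : ℝ) ^ 2 *
      ∑ t', ∑ e : Fin m → Fin n × Fin n, cf2 y (e t) * cf2 y (e t') ≤
        N * (2 * n + 2) + m * (N * 4) := by
    intro t
    rw [Finset.mul_sum]
    refine (Finset.sum_le_sum fun t' _ => h1 t t').trans ?_
    rw [Finset.sum_add_distrib]
    simp
  refine (Finset.sum_le_sum fun t _ => h5 t).trans ?_
  rw [Finset.sum_const, Finset.card_univ, Fintype.card_fin, nsmul_eq_mul]
  apply le_of_eq
  ring

open Classical in
theorem sum_dg_sq (n : ℕ) :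
    ∑ e : Fin (64 * n) → Fin n × Fin n, ∑ y, dg e y ^ 2 ≤
      16640 * n * Fintype.card (Fin (64 * n) → Fin n × Fin n) := by
  rcases Nat.eq_zero_or_pos n with hn | hn
  · subst hn
    simp
  have hn0 : (0 : ℝ) < n := by exact_mod_cast hn
  have hn1 : (1 : ℝ) ≤ n := by exact_mod_cast hn
  have h1 : (n : ℝ) ^ 2 * ∑ y, ∑ e : Fin (64 * n) → Fin n × Fin n, ((dg e y ^ 2 : ℕ) : ℝ) ≤
      n * ((Fintype.card (Fin (64 * n) → Fin n × Fin n) : ℝ) *
        ((64 * n : ℕ) * (2 * n + 2) + (64 * n : ℕ) ^ 2 * 4)) := by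
    rw [Finset.mul_sum]
    refine (Finset.sum_le_sum fun y _ => sum_y2 hn (64 * n) y).trans ?_
    rw [Finset.sum_const, Finset.card_univ, Fintype.card_fin, nsmul_eq_mul]
  have h2 : (∑ e : Fin (64 * n) → Fin n × Fin n, ∑ y, ((dg e y ^ 2 : ℕ) : ℝ)) ≤
      16640 * n * (Fintype.card (Fin (64 * n) → Fin n × Fin n) : ℝ) := by
    rw [Finset.sum_comm]
    set S := ∑ y, ∑ e : Fin (64 * n) → Fin n × Fin n, ((dg e y ^ 2 : ℕ) : ℝ) with hS
    set N : ℝ := (Fintype.card (Fin (64 * n) → Fin n × Fin n) : ℝ) with hN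
    have hN0 : 0 ≤ N := Nat.cast_nonneg _
    have h3 : (n : ℝ) ^ 2 * S ≤ (n : ℝ) ^ 2 * (16640 * n * N) := by
      refine h1.trans ?_
      push_cast
      have h4 : 0 ≤ N * (n : ℝ) ^ 2 * (n - 1) := by
        apply mul_nonneg (by positivity)
        linarith
      nlinarith
    exact le_of_mul_le_mul_left h3 (by positivity)
  exact_mod_cast h2

open Classical in
theorem count_deg (n : ℕ) (hn : 0 < n) :
    4 * (Finset.univ.filter fun e : Fin (64 * n) → Fin n × Fin n =>
      66560 * n < ∑ y, dg e y ^ 2).card ≤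
      Fintype.card (Fin (64 * n) → Fin n × Fin n) := by
  set B := Finset.univ.filter fun e : Fin (64 * n) → Fin n × Fin n =>
      66560 * n < ∑ y, dg e y ^ 2 with hB
  have h1 : B.card * (66560 * n) ≤ ∑ e : Fin (64 * n) → Fin n × Fin n, ∑ y, dg e y ^ 2 := by
    calc B.card * (66560 * n) = ∑ e ∈ B, 66560 * n := by
          rw [Finset.sum_const, smul_eq_mul]
      _ ≤ ∑ e ∈ B, ∑ y, dg e y ^ 2 := by
          apply Finset.sum_le_sum
          intro e he
          rw [hB, Finset.mem_filter] at he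
          exact he.2.le
      _ ≤ ∑ e : Fin (64 * n) → Fin n × Fin n, ∑ y, dg e y ^ 2 :=
          Finset.sum_le_sum_of_subset (Finset.subset_univ _)
  have h2 := h1.trans (sum_dg_sq n)
  have h3 : 16640 * n * (4 * B.card) ≤
      16640 * n * Fintype.card (Fin (64 * n) → Fin n × Fin n) := by
    calc 16640 * n * (4 * B.card) = B.card * (66560 * n) := by ring
      _ ≤ _ := h2
  exact Nat.le_of_mul_le_mul_left h3 (by positivity)

end Pool.Agent.Helper58.NE
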