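import Pool.Agent.Helper58.NE.RCross
import Pool.Agent.Helper58.NE.RCyc
import Pool.Agent.Helper58.NE.RDeg

/-!
# Project NE, block D4: from a multigraph to a graph

`exists_multi`: the three exceptional sets have at most `N / 4` elements each (`N > 0`).

PROOF of `exists_graph`. Take `e` of `exists_multi` (for `max W 2` instead of `W`) with `R`. Let `Z` be the set of the edges `t` with an end of degree `> 133120`: `|Z| ≤ ∑_{dg y > 133120} dg y ≤ ∑ dg y ^ 2 / 133120 ≤ n / 2`. Keep the edges outside of `R ∪ Z`: `G.Adj u v` iff `u ≠ v` and some kept `t` has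
`e t = (u, v)` or `e t = (v, u)`. Two different kept edges do not join the same pair (a cycle of length `2`, `W ≥ 2`). So for `A` with `n ≤ 8 |A|`, `2 |A| ≤ n` the map which sends a kept edge in `crs e A` to the pair (end in `A`, end outside of `A`) is
injective, and `|cutp G A| ≥ |crs e A| - |R| - |Z| ≥ 4 n - n/4 - n/2 ≥ 3 n`.
Degrees: a neighbour of `v` comes from a kept edge at `v`; if `v` has neighbours its degree is `≤ 133120`.
Cycles: an `IsCycle` walk of `G` of length `≤ W` has length `l + 3`, distinct vertices `v i`, its edges are distinct (choose for each a kept index `j i`; different edges of `G` have different indices), so `IsCyc e v j`, and some `j i ∈ R`: contradiction.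
-/

namespace Pool.Agent.Helper58.NE

theorem exists_multi (W n₀ : ℕ) : ∃ (n : ℕ) (e : Fin (64 * n) → Fin n × Fin n), n₀ ≤ n ∧ 0 < n ∧
    (∀ A : Finset (Fin n), n ≤ 8 * A.card → 2 * A.card ≤ n → 4 * n ≤ (crs e A).card) ∧
    (∃ R : Finset (Fin (64 * n)), 4 * R.card ≤ n ∧ ∀ (l : ℕ), l + 2 ≤ W →
        ∀ (v : Fin (l + 2) → Fin n) (j : Fin (l + 2) → Fin (64 * n)), IsCyc e v j → ∃ i, j i ∈ R) ∧
    ∑ y, dg e y ^ 2 ≤ 66560 * n := by
  classical
  obtain ⟨n1, hcyc⟩ := count_cyc W
  obtain ⟨n, hn1, hn2, hn3⟩ : ∃ n, n1 ≤ n ∧ n₀ ≤ n ∧ 3 ≤ n :=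
    ⟨max n1 (max n₀ 3), le_max_left _ _, le_trans (le_max_left _ _) (le_max_right _ _),
      le_trans (le_max_right _ _) (le_max_right _ _)⟩
  have hn0 : 0 < n := by omega
  have h1 := count_cross hn3
  have h2 := hcyc n hn1
  have h3 := count_deg n hn0
  set S1 : Finset (Fin (64 * n) → Fin n × Fin n) := Finset.univ.filter
    fun e : Fin (64 * n) → Fin n × Fin n =>
      ∃ A : Finset (Fin n), n ≤ 8 * A.card ∧ 2 * A.card ≤ n ∧ (crs e A).card < 4 * n with hS1
  set S2 : Finset (Fin (64 * n) → Fin n × Fin n) := Finset.univ.filter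
    fun e : Fin (64 * n) → Fin n × Fin n =>
      ¬ ∃ R : Finset (Fin (64 * n)), 4 * R.card ≤ n ∧ ∀ (l : ℕ), l + 2 ≤ W →
        ∀ (v : Fin (l + 2) → Fin n) (j : Fin (l + 2) → Fin (64 * n)), IsCyc e v j →
          ∃ i, j i ∈ R with hS2
  set S3 : Finset (Fin (64 * n) → Fin n × Fin n) := Finset.univ.filter
    fun e : Fin (64 * n) → Fin n × Fin n => 66560 * n < ∑ y, dg e y ^ 2 with hS3
  have hN : 0 < Fintype.card (Fin (64 * n) → Fin n × Fin n) := by
    have : Nonempty (Fin n) := ⟨⟨0, hn0⟩⟩
    exact Fintype.card_pos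
  have h4 : (S1 ∪ S2 ∪ S3).card < Fintype.card (Fin (64 * n) → Fin n × Fin n) := by
    have h5 := Finset.card_union_le (S1 ∪ S2) S3
    have h6 := Finset.card_union_le S1 S2
    have h1' : 4 * S1.card ≤ Fintype.card (Fin (64 * n) → Fin n × Fin n) := by convert h1
    have h2' : 4 * S2.card ≤ Fintype.card (Fin (64 * n) → Fin n × Fin n) := by convert h2
    have h3' : 4 * S3.card ≤ Fintype.card (Fin (64 * n) → Fin n × Fin n) := by convert h3
    generalize Fintype.card (Fin (64 * n) → Fin n × Fin n) = N at *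
    generalize S1.card = s1 at *
    generalize S2.card = s2 at *
    generalize S3.card = s3 at *
    omega
  obtain ⟨e, he⟩ : ∃ e, e ∉ S1 ∪ S2 ∪ S3 := by
    by_contra hcon
    push Not at hcon
    have h5 : S1 ∪ S2 ∪ S3 = Finset.univ := Finset.eq_univ_iff_forall.2 hcon
    rw [h5, Finset.card_univ] at h4
    exact lt_irrefl _ h4
  rw [Finset.mem_union, Finset.mem_union, not_or, not_or] at he
  obtain ⟨⟨he1, he2⟩, he3⟩ := he
  refine ⟨n, e, hn2, hn0, ?_, ?_, ?_⟩
  · intro A hA1 hA2
    by_contra hlt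
    rw [not_le] at hlt
    exact he1 (Finset.mem_filter.2 ⟨Finset.mem_univ _, A, hA1, hA2, hlt⟩)
  · by_contra hR
    exact he2 (Finset.mem_filter.2 ⟨Finset.mem_univ _, hR⟩)
  · by_contra hlt
    rw [not_le] at hlt
    exact he3 (Finset.mem_filter.2 ⟨Finset.mem_univ _, hlt⟩)

/-- the graph of the edges `t ∈ K` of a multigraph -/
private def kg64 {n m : ℕ} (e : Fin m → Fin n × Fin n) (K : Finset (Fin m)) : SimpleGraph (Fin n) where
  Adj u v := u ≠ v ∧ ∃ t ∈ K, e t = (u, v) ∨ e t = (v, u)
  symm := ⟨fun u v h => ⟨h.1.symm, by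
    obtain ⟨-, t, ht, h1⟩ := h
    exact ⟨t, ht, h1.symm⟩⟩⟩
  loopless := ⟨fun u h => h.1 rfl⟩

private theorem deg64 {n m : ℕ} (e : Fin m → Fin n × Fin n) (K : Finset (Fin m)) (D : ℕ)
    (hK : ∀ t ∈ K, dg e (e t).1 ≤ D ∧ dg e (e t).2 ≤ D) : DegLe (kg64 e K) D := by
  classical
  intro v
  rcases Set.eq_empty_or_nonempty ((kg64 e K).neighborSet v) with h0 | ⟨u0, hu0⟩
  · rw [h0, Set.ncard_empty]
    exact Nat.zero_le _
  have hdg : dg e v ≤ D := by
    obtain ⟨-, t, ht, h1 | h1⟩ := hu0
    · have := (hK t ht).1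
      rwa [h1] at this
    · have := (hK t ht).2
      rwa [h1] at this
  refine le_trans ?_ hdg
  have hch : ∀ u ∈ (kg64 e K).neighborSet v, ∃ t, e t = (v, u) ∨ e t = (u, v) := by
    rintro u ⟨-, t, -, h1⟩
    exact ⟨t, h1⟩
  obtain ⟨t0, -⟩ := hch u0 hu0
  have : Nonempty (Fin m) := ⟨t0⟩
  choose! f hf using hch
  set T : Finset (Fin m) := Finset.univ.filter fun t => (e t).1 = v ∨ (e t).2 = v with hT
  have h1 : ((kg64 e K).neighborSet v).ncard ≤ (T : Set (Fin m)).ncard := by
    refine Set.ncard_le_ncard_of_injOn f ?_ ?_ T.finite_toSet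
    · intro u hu
      rw [hT]
      simp only [Finset.coe_filter, Finset.mem_univ, true_and, Set.mem_ofPred_eq]
      rcases hf u hu with h | h <;> rw [h] <;> simp
    · intro u hu u' hu' hff
      have h2 := hf u hu
      have h3 := hf u' hu'
      rw [hff] at h2
      have n1 : v ≠ u := hu.1
      rcases h2 with h2 | h2 <;> rcases h3 with h3 | h3 <;> rw [h2] at h3 <;>
        rw [Prod.mk.injEq] at h3
      · exact h3.2
      · exact absurd h3.2.symm n1
      · exact absurd h3.1.symm n1
      · exact h3.1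
  rw [Set.ncard_coe_finset] at h1
  refine le_trans h1 ?_
  rw [hT, Finset.card_filter]
  unfold dg
  refine Finset.sum_le_sum fun t _ => ?_
  by_cases h2 : (e t).1 = v
  · rw [if_pos (Or.inl h2), if_pos h2]
    exact Nat.le_add_right _ _
  · by_cases h3 : (e t).2 = v
    · rw [if_pos (Or.inr h3), if_neg h2, if_pos h3]
    · rw [if_neg (by rintro (h | h); exacts [h2 h, h3 h])]
      exact Nat.zero_le _

private theorem short64 {n m : ℕ} (e : Fin m → Fin n × Fin n) (K : Finset (Fin m)) (W : ℕ)
    (hK : ∀ (l : ℕ), l + 2 ≤ W → ∀ (v : Fin (l + 2) → Fin n) (j : Fin (l + 2) → Fin m), IsCyc e v j →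
      ∃ i, j i ∉ K) : NoShort (kg64 e K) W := by
  classical
  intro v0 c hc
  by_contra hlen
  rw [not_lt] at hlen
  have h3 := hc.three_le_length
  obtain ⟨l, hl⟩ : ∃ l, c.length = l + 2 := ⟨c.length - 2, by omega⟩
  have hl1 : 1 ≤ l := by omega
  set v : Fin (l + 2) → Fin n := fun i => c.getVert i with hv
  have hadj : ∀ i : Fin (l + 2), (kg64 e K).Adj (v i) (v (i + 1)) := by
    intro i
    have h1 := c.adj_getVert_succ (i := i) (by rw [hl]; exact i.2)
    have h2 : c.getVert (i + 1) = v (i + 1) := by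
      rw [hv]
      by_cases hi : (i : ℕ) + 1 < l + 2
      · have h4 : ((i + 1 : Fin (l + 2)) : ℕ) = (i : ℕ) + 1 := by
          rw [Fin.val_add, Fin.val_one, Nat.mod_eq_of_lt hi]
        simp only [h4]
      · have h5 : (i : ℕ) + 1 = l + 2 := by
          have := i.2
          omega
        have h4 : ((i + 1 : Fin (l + 2)) : ℕ) = 0 := by
          rw [Fin.val_add, Fin.val_one, h5, Nat.mod_self]
        simp only [h4]
        rw [h5, ← hl, c.getVert_length, c.getVert_zero]
    rw [← h2]
    exact h1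
  have hinj : Function.Injective v := by
    intro i i' h
    have h1 := hc.getVert_injOn' (x₁ := (i : ℕ)) (by
      have := i.2
      show (i : ℕ) ≤ c.length - 1
      omega) (x₂ := (i' : ℕ)) (by
      have := i'.2
      show (i' : ℕ) ≤ c.length - 1
      omega) h
    exact Fin.ext h1
  have hch : ∀ i, ∃ t ∈ K, e t = (v i, v (i + 1)) ∨ e t = (v (i + 1), v i) := fun i => (hadj i).2
  choose j hj1 hj2 using hch
  have hjj : Function.Injective j := by
    intro i i' h
    have h1 := hj2 i
    have h2 := hj2 i'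
    rw [h] at h1
    have key : v i = v (i' + 1) → v (i + 1) = v i' → i = i' := by
      intro e1 e2
      have k1 := hinj e1
      have k2 := hinj e2
      exfalso
      have k3 : i' + (1 + 1) = i' := by
        rw [← add_assoc, ← k1, k2]
      have k4 : (1 + 1 : Fin (l + 2)) = 0 := by
        have := add_right_injective i' (k3.trans (add_zero i').symm)
        exact this
      have k5 := congrArg Fin.val k4
      rw [Fin.val_add, Fin.val_one, Fin.val_zero, Nat.mod_eq_of_lt (by omega)] at k5
      omega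
    rcases h1 with h1 | h1 <;> rcases h2 with h2 | h2 <;> rw [h1] at h2 <;>
      rw [Prod.mk.injEq] at h2
    · exact hinj h2.1
    · exact key h2.1 h2.2
    · exact key h2.2 h2.1
    · exact hinj h2.2
  obtain ⟨i, hi⟩ := hK l (by omega) v j ⟨hinj, hjj, hj2⟩
  exact hi (hj1 i)

theorem exists_graph (W n₀ : ℕ) : ∃ (n : ℕ) (G : SimpleGraph (Fin n)), n₀ ≤ n ∧ 0 < n ∧
    DegLe G 133120 ∧ NoShort G W ∧
    ∀ A : Finset (Fin n), n ≤ 8 * A.card → 2 * A.card ≤ n → 3 * n ≤ (cutp G A).card := by
  classical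
  obtain ⟨n, e, hn0, hn, hcr, ⟨R, hR, hcyc⟩, hdg⟩ := exists_multi (max W 2) n₀
  set Z : Finset (Fin (64 * n)) :=
    Finset.univ.filter fun t => 133120 < dg e (e t).1 ∨ 133120 < dg e (e t).2 with hZ
  set Y : Finset (Fin n) := Finset.univ.filter fun y => 133120 < dg e y with hY
  have hZc : 2 * Z.card ≤ n := by
    have h1 : Z.card ≤ ∑ y ∈ Y, dg e y := by
      have h2 : ∑ y ∈ Y, dg e y =
          ∑ t, ∑ y ∈ Y, ((if (e t).1 = y then 1 else 0) + (if (e t).2 = y then 1 else 0)) := by
        unfold dg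
        rw [Finset.sum_comm]
      rw [h2, hZ, Finset.card_filter]
      refine Finset.sum_le_sum fun t _ => ?_
      split_ifs with h3
      · rcases h3 with h3 | h3
        · have h4 : (e t).1 ∈ Y := by
            rw [hY, Finset.mem_filter]
            exact ⟨Finset.mem_univ _, h3⟩
          refine le_trans ?_ (Finset.single_le_sum
            (f := fun y => (if (e t).1 = y then 1 else 0) + (if (e t).2 = y then 1 else 0))
            (fun _ _ => Nat.zero_le _) h4)
          simp
        · have h4 : (e t).2 ∈ Y := by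
            rw [hY, Finset.mem_filter]
            exact ⟨Finset.mem_univ _, h3⟩
          refine le_trans ?_ (Finset.single_le_sum
            (f := fun y => (if (e t).1 = y then 1 else 0) + (if (e t).2 = y then 1 else 0))
            (fun _ _ => Nat.zero_le _) h4)
          simp
      · exact Nat.zero_le _
    have h2 : 133120 * ∑ y ∈ Y, dg e y ≤ 66560 * n := by
      rw [Finset.mul_sum]
      refine le_trans (Finset.sum_le_sum (g := fun y => dg e y ^ 2) fun y hy => ?_) (le_trans
        (Finset.sum_le_sum_of_subset (Finset.subset_univ Y)) hdg)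
      rw [hY, Finset.mem_filter] at hy
      rw [sq]
      exact Nat.mul_le_mul_right _ hy.2.le
    omega
  set K : Finset (Fin (64 * n)) := Finset.univ \ (R ∪ Z) with hK
  have mK : ∀ t, t ∈ K ↔ t ∉ R ∧ t ∉ Z := by
    intro t
    rw [hK, Finset.mem_sdiff, Finset.mem_union, not_or]
    exact ⟨fun h => h.2, fun h => ⟨Finset.mem_univ _, h⟩⟩
  refine ⟨n, kg64 e K, hn0, hn, deg64 e K _ ?_, short64 e K W ?_, ?_⟩
  · intro t ht
    have h1 := ((mK t).1 ht).2
    rw [hZ, Finset.mem_filter, not_and, not_or, not_lt, not_lt] at h1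
    exact h1 (Finset.mem_univ _)
  · intro l hl v j hvj
    obtain ⟨i, hi⟩ := hcyc l (le_trans hl (le_max_left _ _)) v j hvj
    exact ⟨i, fun h => ((mK _).1 h).1 hi⟩
  · intro A hA1 hA2
    have h1 := hcr A hA1 hA2
    have hpar : ∀ t t' : Fin (64 * n), t ∈ K → t' ∈ K → ∀ u w : Fin n, u ≠ w →
        (e t = (u, w) ∨ e t = (w, u)) → (e t' = (u, w) ∨ e t' = (w, u)) → t = t' := by
      intro t t' ht ht' u w huw h2 h3
      by_contra hne
      have hc : IsCyc e (l := 0) ![u, w] ![t, t'] := by
        refine ⟨?_, ?_, ?_⟩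
        · intro i i' h
          fin_cases i <;> fin_cases i' <;> simp at h ⊢
          · exact huw h
          · exact huw h.symm
        · intro i i' h
          fin_cases i <;> fin_cases i' <;> simp at h ⊢
          · exact hne h
          · exact hne h.symm
        · intro i
          fin_cases i
          · exact h2
          · exact h3.symm
      obtain ⟨i, hi⟩ := hcyc 0 (le_max_right _ _) _ _ hc
      fin_cases i
      · exact ((mK _).1 ht).1 hi
      · exact ((mK _).1 ht').1 hi
    set f : Fin (64 * n) → Fin n × Fin n :=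
      fun t => if (e t).1 ∈ A then e t else ((e t).2, (e t).1) with hf
    have h2 : (crs e A \ (R ∪ Z)).card ≤ (cutp (kg64 e K) A).card := by
      have hprop : ∀ t ∈ crs e A \ (R ∪ Z), t ∈ K ∧ (f t).1 ∈ A ∧ (f t).2 ∉ A ∧
          (e t = ((f t).1, (f t).2) ∨ e t = ((f t).2, (f t).1)) := by
        intro t ht
        rw [Finset.mem_sdiff, Finset.mem_union, not_or] at ht
        obtain ⟨h3, h4⟩ := ht
        refine ⟨(mK t).2 h4, ?_⟩
        unfold crs at h3
        rw [Finset.mem_filter] at h3
        have h5 := h3.2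
        by_cases h6 : (e t).1 ∈ A
        · have e1 : f t = e t := if_pos h6
          rw [e1]
          exact ⟨h6, fun h7 => h5 ⟨fun _ => h7, fun _ => h6⟩, Or.inl rfl⟩
        · have e1 : f t = ((e t).2, (e t).1) := if_neg h6
          rw [e1]
          refine ⟨?_, h6, Or.inr rfl⟩
          by_contra h7
          exact h5 ⟨fun h => absurd h h6, fun h => absurd h h7⟩
      refine Finset.card_le_card_of_injOn f ?_ ?_
      · intro t ht
        obtain ⟨h3, h4, h5, h6⟩ := hprop t ht
        have h8 : ∀ q : Fin n × Fin n, q ∈ cutp (kg64 e K) A ↔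
            q.1 ∈ A ∧ q.2 ∉ A ∧ (kg64 e K).Adj q.1 q.2 := by
          intro q
          unfold cutp
          simp only [Finset.mem_filter, Finset.mem_univ, true_and]
        refine (h8 _).2 ⟨h4, h5, ?_, t, h3, h6⟩
        intro h7
        rw [h7] at h4
        exact h5 h4
      · intro t ht t' ht' hff
        obtain ⟨h3, h4, h5, h6⟩ := hprop t ht
        obtain ⟨h3', h4', h5', h6'⟩ := hprop t' ht'
        rw [← hff] at h6'
        refine hpar t t' h3 h3' _ _ ?_ h6 h6'
        intro h7
        rw [h7] at h4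
        exact h5 h4
    have h3 : (crs e A).card ≤ (crs e A \ (R ∪ Z)).card + (R ∪ Z).card := by
      have := Finset.card_le_card_sdiff_add_card (s := crs e A) (t := R ∪ Z)
      exact this
    have h4 := Finset.card_union_le R Z
    omega

end Pool.Agent.Helper58.NE
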