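import Pool.Agent.Helper25.NU.Space

/-!
# Project NE, block F1: `exists_space` with a linear representation

The same proof as `Helper25.NU.exists_space`: the vector of the functional `g` is `y ↦ g (y i)`, so it depends linearly on `g`; its norm is at most every `c'` with `|g z| ≤ c' p_i(z)`, and the difference of the vectors of `g ℓ`, `g ℓ'` is `y ↦ g ℓ (y i) - g ℓ' (y i)`.
-/

namespace Pool.Agent.Helper58.NE

open Pool.Agent.Helper25.NU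

theorem exists_space_aux71 {C : ℝ → ℝ} (hC : ∀ ε, 0 < ε → 0 ≤ C ε) (E : ℕ → Type)
    [∀ i, NormedAddCommGroup (E i)] [∀ i, NormedSpace ℝ (E i)]
    (h : ∀ i, US C (fun z : E i => ‖z‖)) :
    ∃ (X : Type) (_ : NormedAddCommGroup X) (_ : NormedSpace ℝ X) (_ : CompleteSpace X),
      UniformConvexSpace X ∧
      ∀ (i : ℕ) (L : Type) (g : L → E i →ₗ[ℝ] ℝ) (c : ℝ),
        (∀ ℓ z, |g ℓ z| ≤ c * ‖z‖) →
        ∃ v : L → X,
          (∀ ℓ (c' : ℝ), 0 ≤ c' → (∀ z, |g ℓ z| ≤ c' * ‖z‖) → ‖v ℓ‖ ≤ c') ∧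
          (∀ ℓ ℓ' (c' : ℝ), 0 ≤ c' → (∀ z, |g ℓ z - g ℓ' z| ≤ c' * ‖z‖) → ‖v ℓ - v ℓ'‖ ≤ c') ∧
          ∀ z : E i, ∃ φ : StrongDual ℝ X, ‖φ‖ ≤ ‖z‖ ∧ ∀ ℓ, φ (v ℓ) = g ℓ z := by
  classical
  have : Fact ((1 : ENNReal) ≤ 2) := ⟨by norm_num⟩
  refine ⟨StrongDual ℝ (lp E 2), inferInstance, inferInstance, inferInstance,
    US_dual hC _ (US_lp hC E h), ?_⟩
  intro i L g c hg
  have hb : ∀ (ℓ : L) (y : lp E 2), ‖g ℓ (y i)‖ ≤ |c| * ‖y‖ := by
    intro ℓ y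
    rw [Real.norm_eq_abs]
    refine ((hg ℓ (y i)).trans (mul_le_mul_of_nonneg_right (le_abs_self c) (norm_nonneg _))).trans ?_
    exact mul_le_mul_of_nonneg_left (lp.norm_apply_le_norm (by norm_num) y i) (abs_nonneg c)
  refine ⟨fun ℓ => LinearMap.mkContinuous
    { toFun := fun y : lp E 2 => g ℓ (y i)
      map_add' := fun a b => by rw [lp.coeFn_add, Pi.add_apply, map_add]
      map_smul' := fun r a => by
        rw [lp.coeFn_smul, Pi.smul_apply, map_smul, RingHom.id_apply] } |c| (hb ℓ),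
    ?_, ?_, ?_⟩
  · intro ℓ c' hc' hd
    refine ContinuousLinearMap.opNorm_le_bound _ hc' fun y => ?_
    rw [LinearMap.mkContinuous_apply]
    change ‖g ℓ (y i)‖ ≤ _
    rw [Real.norm_eq_abs]
    exact (hd (y i)).trans
      (mul_le_mul_of_nonneg_left (lp.norm_apply_le_norm (by norm_num) y i) hc')
  · intro ℓ ℓ' c' hc' hd
    refine ContinuousLinearMap.opNorm_le_bound _ hc' fun y => ?_
    rw [ContinuousLinearMap.sub_apply, LinearMap.mkContinuous_apply, LinearMap.mkContinuous_apply]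
    change ‖g ℓ (y i) - g ℓ' (y i)‖ ≤ _
    rw [Real.norm_eq_abs]
    exact (hd (y i)).trans
      (mul_le_mul_of_nonneg_left (lp.norm_apply_le_norm (by norm_num) y i) hc')
  · intro z
    refine ⟨NormedSpace.inclusionInDoubleDual ℝ (lp E 2) (lp.single 2 i z), ?_, ?_⟩
    · refine (NormedSpace.double_dual_bound ℝ (lp E 2) _).trans ?_
      rw [lp.norm_single (by norm_num)]
    · intro ℓ
      rw [NormedSpace.dual_def, LinearMap.mkContinuous_apply]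
      change g ℓ ((lp.single 2 i z : lp E 2) i) = g ℓ z
      rw [lp.single_apply_self]

theorem exists_space2 {C : ℝ → ℝ} (hC : ∀ ε, 0 < ε → 0 ≤ C ε) (V : ℕ → Type)
    [∀ i, AddCommGroup (V i)] [∀ i, Module ℝ (V i)] (p : ∀ i, Seminorm ℝ (V i))
    (hp : ∀ i z, p i z = 0 → z = 0) (h : ∀ i, US C (p i)) :
    ∃ (X : Type) (_ : NormedAddCommGroup X) (_ : NormedSpace ℝ X) (_ : CompleteSpace X),
      UniformConvexSpace X ∧
      ∀ (i : ℕ) (L : Type) (g : L → V i →ₗ[ℝ] ℝ) (c : ℝ), (∀ ℓ z, |g ℓ z| ≤ c * p i z) →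
        ∃ v : L → X,
          (∀ ℓ (c' : ℝ), 0 ≤ c' → (∀ z, |g ℓ z| ≤ c' * p i z) → ‖v ℓ‖ ≤ c') ∧
          (∀ ℓ ℓ' (c' : ℝ), 0 ≤ c' → (∀ z, |g ℓ z - g ℓ' z| ≤ c' * p i z) → ‖v ℓ - v ℓ'‖ ≤ c') ∧
          ∀ z : V i, ∃ φ : StrongDual ℝ X, ‖φ‖ ≤ p i z ∧ ∀ ℓ, φ (v ℓ) = g ℓ z := by
  exact @exists_space_aux71 C hC V
    (fun i => @NormedAddCommGroup.ofCore ℝ (V i) _ _ _ ⟨p i⟩ (core38 (p i) (hp i)))
    (fun i => @NormedSpace.ofCore ℝ (V i) _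
      (@NormedAddCommGroup.ofCore ℝ (V i) _ _ _ ⟨p i⟩
        (core38 (p i) (hp i))).toSeminormedAddCommGroup _ (core38 (p i) (hp i))) h

end Pool.Agent.Helper58.NE
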