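import Pool.Agent.Helper58.NE.Orth
import Pool.Agent.Helper58.NE.InfConv

/-!
# Project NE, block A8a: the system of seminorms

`exists_sys`: choose `g k` by `hg`; `P (some k) = (2^k)⁻¹ • g k` (as a seminorm: `(⟨(2^k)⁻¹, _⟩ : ℝ≥0) • g k`), `P none = 32^K • |·|₂` (`exists_e2_seminorm`), `N` by `exists_infconv`.
-/

namespace Pool.Agent.Helper58.NE

open Pool.Agent.Helper25.NU

variable {U : Type} [Fintype U]

/-- The weighted seminorms. -/
structure IsSys (H : U → U → ℝ) (K : ℕ) (g : ℕ → Seminorm ℝ (U → ℝ))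
    (P : Option (Fin K) → Seminorm ℝ (U → ℝ)) (N : Seminorm ℝ (U → ℝ)) : Prop where
  gauge : ∀ k, IsGauge H k (g k)
  some : ∀ (k : Fin K) x, P (some k) x = (2 ^ (k : ℕ))⁻¹ * g k x
  none : ∀ x, P none x = 32 ^ K * √(e2 x)
  le : ∀ y : Option (Fin K) → (U → ℝ), N (∑ i, y i) ^ 2 ≤ ∑ i, P i (y i) ^ 2
  ge : ∀ (x : U → ℝ) (η : ℝ), 0 < η →
    ∃ y : Option (Fin K) → (U → ℝ), ∑ i, y i = x ∧ ∑ i, P i (y i) ^ 2 ≤ N x ^ 2 + η

omit [Fintype U] in
private theorem smul61 {c : ℝ} (hc : 0 ≤ c) (p : Seminorm ℝ (U → ℝ)) :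
    ∃ q : Seminorm ℝ (U → ℝ), ∀ x, q x = c * p x := by
  refine ⟨Real.toNNReal c • p, fun x => ?_⟩
  have h1 : (Real.toNNReal c • p) x = (Real.toNNReal c : ℝ) * p x := rfl
  rw [h1, Real.coe_toNNReal c hc]

theorem exists_sys (H : U → U → ℝ) (K : ℕ)
    (hg : ∀ k, ∃ p : Seminorm ℝ (U → ℝ), IsGauge H k p) : ∃ g P N, IsSys H K g P N := by
  choose g hg using hg
  obtain ⟨p2, hp2⟩ := exists_e2_seminorm (U := U)
  have h1 : ∀ o : Option (Fin K), ∃ q : Seminorm ℝ (U → ℝ), ∀ x,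
      q x = Option.elim o (32 ^ K * √(e2 x)) (fun k => (2 ^ (k : ℕ))⁻¹ * g k x) := by
    intro o
    cases o with
    | none =>
      obtain ⟨q, hq⟩ := smul61 (c := (32 : ℝ) ^ K) (by positivity) p2
      exact ⟨q, fun x => by rw [hq, hp2]; rfl⟩
    | some k =>
      obtain ⟨q, hq⟩ := smul61 (c := ((2 : ℝ) ^ (k : ℕ))⁻¹) (by positivity) (g k)
      exact ⟨q, fun x => by rw [hq]; rfl⟩
  choose P hP using h1
  obtain ⟨N, hN1, hN2⟩ := exists_infconv P
  exact ⟨g, P, N,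
    { gauge := hg
      some := fun k x => hP (Option.some k) x
      none := fun x => hP Option.none x
      le := hN1
      ge := hN2 }⟩

end Pool.Agent.Helper58.NE
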