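import Pool.Agent.Helper58.NE.Norm
import Pool.Agent.Helper58.NE.Space2
import Pool.Agent.Helper25.NU.Abs

/-!
# Project NE, block F2: the uniformly convex space attached to a sequence of kernels

PROOF. `abstract_thm (fun i => 4096 ^ (3 * (i + 1)))` gives `c₁`, `C'`. For each `i` let `N i` be the norm of `exists_norm`; `abstract_thm` for `a = b = N i` gives `p i` with `US C' (p i)`, `p² ≤ 2 N²`, `N² ≤ 2 c₁ p²` (so `p i z = 0 → z = 0`). `exists_space2`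
for `V i = U i → ℝ`. `C₀ = √(2 c₁)`. The functional of `b` is `x ↦ pr x b`: `|pr x b| ≤ fbn K c c' N x ≤ fbn K c c' √(2 c₁) p x`. `φ` for `z = Pi.single u 1`: `‖φ‖ ≤ p z ≤ √2 N z ≤ √2 ≤ 2` and `pr (Pi.single u 1) b = b u`.
-/

namespace Pool.Agent.Helper58.NE

open Pool.Agent.Helper25.NU

/-- The functional `x ↦ pr x b`. -/
private noncomputable def prL69 {U : Type} [Fintype U] (b : U → ℝ) : (U → ℝ) →ₗ[ℝ] ℝ where
  toFun x := pr x b
  map_add' x y := by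
    simp only [pr, Pi.add_apply, add_mul, Finset.sum_add_distrib]
  map_smul' r x := by
    simp only [pr, Pi.smul_apply, smul_eq_mul, RingHom.id_apply, Finset.mul_sum, mul_assoc]

private theorem prL69_apply {U : Type} [Fintype U] (b x : U → ℝ) : prL69 b x = pr x b := rfl

private theorem pr_single69 {U : Type} [Fintype U] [DecidableEq U] (b : U → ℝ) (u : U) :
    pr (Pi.single u 1) b = b u := by
  unfold pr
  rw [Finset.sum_eq_single u]
  · simp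
  · intro v _ hv
    simp [hv]
  · intro h
    exact absurd (Finset.mem_univ u) h

private theorem pr_sub69 {U : Type} [Fintype U] (x b b' : U → ℝ) :
    pr x (b - b') = pr x b - pr x b' := by
  simp only [pr, Pi.sub_apply, mul_sub, Finset.sum_sub_distrib]

private theorem fbn_nonneg69 (K : ℕ) (c : ℕ → ℝ) (c' : ℝ) : 0 ≤ fbn K c c' := Real.sqrt_nonneg _

theorem exists_X : ∃ C₀ : ℝ, 1 ≤ C₀ ∧ ∀ (U : ℕ → Type) [∀ i, Fintype (U i)]
    [∀ i, DecidableEq (U i)] (H : ∀ i, U i → U i → ℝ) (K : ℕ → ℕ), (∀ i, Pos (H i) (K i)) →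
    (∀ i u, H i u u ≤ 2) →
    ∃ (X : Type) (_ : NormedAddCommGroup X) (_ : NormedSpace ℝ X) (_ : CompleteSpace X),
      UniformConvexSpace X ∧
      ∀ (i : ℕ) (L : Type) (b : L → (U i → ℝ)) (B : ℝ),
        (∀ ℓ, ∃ c c', FB (H i) (K i) (b ℓ) c c' ∧ fbn (K i) c c' ≤ B) →
        ∃ v : L → X, (∀ ℓ, ‖v ℓ‖ ≤ C₀ * B) ∧
          (∀ ℓ ℓ' c c', FB (H i) (K i) (b ℓ - b ℓ') c c' → ‖v ℓ - v ℓ'‖ ≤ C₀ * fbn (K i) c c') ∧
          ∀ u, ∃ φ : StrongDual ℝ X, ‖φ‖ ≤ 2 ∧ ∀ ℓ, φ (v ℓ) = b ℓ u := by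
  obtain ⟨c₁, C', hc₁, hC', habs⟩ :=
    abstract_thm (fun i => 4096 ^ (3 * (i + 1))) (fun i => by positivity)
  refine ⟨√(2 * c₁), ?_, ?_⟩
  · rw [Real.one_le_sqrt]
    linarith
  intro U _ _ H K hP hH
  have hN := fun i => exists_norm (H i) (K i) (hP i) (hH i)
  choose N hN0 hNB hN1 hNF using hN
  have hp : ∀ i, ∃ p : Seminorm ℝ (U i → ℝ), US C' p ∧ (∀ z, p z ^ 2 ≤ N i z ^ 2 + N i z ^ 2) ∧
      (∀ z, N i z ^ 2 ≤ 2 * c₁ * p z ^ 2) := fun i =>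
    habs (U i → ℝ) (N i) (N i) (fun j => hNB i j) (fun z => le_rfl)
  choose p hpU hp1 hp2 using hp
  have hNp : ∀ i z, N i z ≤ √(2 * c₁) * p i z := by
    intro i z
    have h0 : 0 ≤ p i z := apply_nonneg _ _
    have h1 : 0 ≤ N i z := apply_nonneg _ _
    have h2 : N i z = √(N i z ^ 2) := (Real.sqrt_sq h1).symm
    rw [h2]
    calc √(N i z ^ 2) ≤ √(2 * c₁ * p i z ^ 2) := Real.sqrt_le_sqrt (hp2 i z)
      _ = √(2 * c₁) * p i z := by
        rw [Real.sqrt_mul (by linarith), Real.sqrt_sq h0]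
  have hp0 : ∀ i z, p i z = 0 → z = 0 := by
    intro i z hz
    apply hN0 i z
    have h1 : 0 ≤ N i z := apply_nonneg _ _
    have h2 := hNp i z
    rw [hz, mul_zero] at h2
    exact le_antisymm h2 h1
  obtain ⟨X, i1, i2, i3, hUC, hX⟩ := exists_space2 hC' (fun i => U i → ℝ) p hp0 hpU
  refine ⟨X, i1, i2, i3, hUC, ?_⟩
  intro i L b B hb
  have hfun : ∀ (d : U i → ℝ) (c : ℕ → ℝ) (c' : ℝ), FB (H i) (K i) d c c' → ∀ z,
      |pr z d| ≤ √(2 * c₁) * fbn (K i) c c' * p i z := by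
    intro d c c' hd z
    calc |pr z d| ≤ fbn (K i) c c' * N i z := hNF i d c c' hd z
      _ ≤ fbn (K i) c c' * (√(2 * c₁) * p i z) :=
        mul_le_mul_of_nonneg_left (hNp i z) (fbn_nonneg69 _ _ _)
      _ = √(2 * c₁) * fbn (K i) c c' * p i z := by ring
  have hbB : ∀ ℓ z, |pr z (b ℓ)| ≤ √(2 * c₁) * B * p i z := by
    intro ℓ z
    obtain ⟨c, c', hFB, hle⟩ := hb ℓ
    refine (hfun (b ℓ) c c' hFB z).trans ?_
    exact mul_le_mul_of_nonneg_right (mul_le_mul_of_nonneg_left hle (Real.sqrt_nonneg _))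
      (apply_nonneg _ _)
  obtain ⟨v, hv1, hv2, hv3⟩ := hX i L (fun ℓ => prL69 (b ℓ)) (√(2 * c₁) * B)
    (fun ℓ z => by rw [prL69_apply]; exact hbB ℓ z)
  refine ⟨v, ?_, ?_, ?_⟩
  · intro ℓ
    obtain ⟨c, c', hFB, hle⟩ := hb ℓ
    have hB : 0 ≤ B := (fbn_nonneg69 _ _ _).trans hle
    exact hv1 ℓ _ (by positivity) (fun z => by rw [prL69_apply]; exact hbB ℓ z)
  · intro ℓ ℓ' c c' hFB
    refine hv2 ℓ ℓ' _ (mul_nonneg (Real.sqrt_nonneg _) (fbn_nonneg69 _ _ _)) ?_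
    intro z
    rw [prL69_apply, prL69_apply, ← pr_sub69]
    exact hfun _ c c' hFB z
  · intro u
    obtain ⟨φ, hφ1, hφ2⟩ := hv3 (Pi.single u 1)
    refine ⟨φ, hφ1.trans ?_, fun ℓ => by rw [hφ2 ℓ, prL69_apply, pr_single69]⟩
    have h1 := hp1 i (Pi.single u 1)
    have h2 := hN1 i u
    have h3 : 0 ≤ N i (Pi.single u 1) := apply_nonneg _ _
    have h4 : 0 ≤ p i (Pi.single u 1) := apply_nonneg _ _
    have h5 : N i (Pi.single u 1) ^ 2 ≤ 1 := by nlinarith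
    nlinarith

end Pool.Agent.Helper58.NE
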